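import Mathlib

set_option autoImplicit false

namespace Pool.Agent.H6

open Filter Topology ArithmeticFunction vonMangoldt

/-- The reciprocals of the primes in an invertible residue class are not summable. -/
theorem not_summable_inv_prime_mod {q : ℕ} [NeZero q] {a : ZMod q} (ha : IsUnit a) :
    ¬ Summable ({p : ℕ | p.Prime ∧ (p : ZMod q) = a}.indicator (fun n : ℕ => (1 : ℝ) / n)) := by
  intro hf
  set f : ℕ → ℝ := {p : ℕ | p.Prime ∧ (p : ZMod q) = a}.indicator (fun n : ℕ => (1 : ℝ) / n)
    with hfdef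
  have hf0 : ∀ n, 0 ≤ f n := fun n => Set.indicator_nonneg (fun n _ => by positivity) n
  have hA := summable_residueClass_non_primes_div a
  set A : ℕ → ℝ := fun n => (if n.Prime then 0 else residueClass a n) / n with hAdef
  have hA0 : ∀ n, 0 ≤ A n := by
    intro n
    rw [hAdef]
    have := residueClass_nonneg a n
    simp only
    split_ifs <;> positivity
  obtain ⟨C, hC⟩ := LSeries_residueClass_lower_bound ha
  -- the sequence x k = 1 + 1/(k+1)
  set x : ℕ → ℝ := fun k => 1 + 1 / ((k:ℝ) + 1) with hx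
  have hx1 : ∀ k, 1 < x k := by
    intro k; rw [hx]; simp only
    have : (0:ℝ) < 1 / ((k:ℝ) + 1) := by positivity
    linarith
  have hx2 : ∀ k, x k ≤ 2 := by
    intro k; rw [hx]; simp only
    have : 1 / ((k:ℝ) + 1) ≤ 1 := by
      rw [div_le_one (by positivity)]
      have : (0:ℝ) ≤ k := Nat.cast_nonneg k
      linarith
    linarith
  have hxlim : Tendsto (fun k => x k - 1) atTop (𝓝 0) := by
    have := tendsto_one_div_add_atTop_nhds_zero_nat (𝕜 := ℝ)
    refine this.congr (fun k => ?_)
    rw [hx]; ring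
  -- G k n = f n * ((x-1) log n n^{-(x-1)})
  set G : ℕ → ℕ → ℝ := fun k n => f n * ((x k - 1) * Real.log n * ((n:ℝ) ^ (-(x k - 1)))) with hG
  have hGbound : ∀ k n, |G k n| ≤ f n := by
    intro k n
    rw [hG]
    simp only
    rcases Nat.eq_zero_or_pos n with hn | hn
    · subst hn
      simp [hf0]
    have hn1 : (1:ℝ) ≤ n := by exact_mod_cast hn
    have hy : 0 < x k - 1 := by linarith [hx1 k]
    have hlog : 0 ≤ Real.log n := Real.log_nonneg hn1
    have h1 : 0 ≤ (x k - 1) * Real.log n * ((n:ℝ) ^ (-(x k - 1))) := by positivity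
    rw [abs_of_nonneg (mul_nonneg (hf0 n) h1)]
    have h2 : (x k - 1) * Real.log n * ((n:ℝ) ^ (-(x k - 1))) ≤ 1 := by
      rw [Real.rpow_neg (by positivity), ← div_eq_mul_inv, div_le_one (by positivity)]
      rw [← Real.log_rpow (by positivity)]
      exact (Real.log_le_sub_one_of_pos (by positivity)).trans (by linarith)
    calc f n * ((x k - 1) * Real.log n * ((n:ℝ) ^ (-(x k - 1)))) ≤ f n * 1 :=
          mul_le_mul_of_nonneg_left h2 (hf0 n)
      _ = f n := mul_one _
  have hGlim : ∀ n, Tendsto (fun k => G k n) atTop (𝓝 0) := by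
    intro n
    rw [hG]
    simp only
    rcases Nat.eq_zero_or_pos n with hn | hn
    · subst hn
      simp
    have hn1 : (1:ℝ) ≤ n := by exact_mod_cast hn
    have h1 : Tendsto (fun k => (n:ℝ) ^ (-(x k - 1))) atTop (𝓝 ((n:ℝ) ^ (-(0:ℝ)))) := by
      apply Tendsto.rpow tendsto_const_nhds hxlim.neg
      left; positivity
    have h2 := ((hxlim.mul_const (Real.log n)).mul h1).const_mul (f n)
    simpa using h2
  have hGtend : Tendsto (fun k => ∑' n, G k n) atTop (𝓝 0) := by
    have := tendsto_tsum_of_dominated_convergence (𝓕 := atTop) (f := G) (g := fun _ => (0:ℝ))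
      (bound := f) hf hGlim (Eventually.of_forall (fun k n => by
        rw [Real.norm_eq_abs]; exact hGbound k n))
    simpa using this
  have hGsum : ∀ k, Summable (G k) := fun k =>
    Summable.of_norm_bounded hf (fun n => by rw [Real.norm_eq_abs]; exact hGbound k n)
  -- the comparison
  have hcomp : ∀ k, (q.totient : ℝ)⁻¹ ≤ (x k - 1) * (C + ∑' n, A n) + ∑' n, G k n := by
    intro k
    have hy : 0 < x k - 1 := by linarith [hx1 k]
    have hlow := hC (x := x k) ⟨hx1 k, hx2 k⟩
    have hsumR : Summable (fun n => residueClass a n / (n : ℝ) ^ (x k)) :=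
      LSeries.summable_real_of_abscissaOfAbsConv_lt <|
        (abscissaOfAbsConv_residueClass_le_one a).trans_lt <| by exact_mod_cast hx1 k
    have hterm : ∀ n, (x k - 1) * (residueClass a n / (n : ℝ) ^ (x k)) ≤
        (x k - 1) * A n + G k n := by
      intro n
      rcases Nat.eq_zero_or_pos n with hn | hn
      · subst hn
        simp [hAdef, hG, hfdef]
      have hn1 : (1:ℝ) ≤ n := by exact_mod_cast hn
      have hn0 : (0:ℝ) < n := by linarith
      have hsplit : (n:ℝ) ^ (x k) = n * (n:ℝ) ^ (x k - 1) := by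
        rw [← Real.rpow_one_add' hn0.le (by linarith)]
        congr 1; ring
      by_cases hp : n.Prime
      · by_cases hna : (n : ZMod q) = a
        · have hR : residueClass a n = Real.log n := by
            rw [residueClass, Set.indicator_of_mem (by exact hna)]
            exact vonMangoldt_apply_prime hp
          have hfn : f n = 1 / n := by
            rw [hfdef, Set.indicator_of_mem (by exact ⟨hp, hna⟩)]
          have hAn : A n = 0 := by rw [hAdef]; simp [hp]
          rw [hAn, hG]
          simp only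
          rw [hR, hfn, hsplit, Real.rpow_neg hn0.le]
          apply le_of_eq
          have : (n:ℝ) ^ (x k - 1) ≠ 0 := by positivity
          field_simp
          ring
        · have hR : residueClass a n = 0 := by
            rw [residueClass, Set.indicator_of_notMem (by exact hna)]
          rw [hR]
          have h1 := mul_nonneg hy.le (hA0 n)
          have hfn : f n = 0 := by
            rw [hfdef, Set.indicator_of_notMem]
            rintro ⟨_, h⟩; exact hna h
          rw [hG]
          simp only [hfn, zero_mul, zero_div, mul_zero, add_zero]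
          exact h1
      · have hfn : f n = 0 := by
          rw [hfdef, Set.indicator_of_notMem]
          rintro ⟨h, _⟩; exact hp h
        have hAn : A n = residueClass a n / n := by rw [hAdef]; simp [hp]
        rw [hG]
        simp only [hfn, zero_mul, add_zero]
        rw [hAn]
        apply mul_le_mul_of_nonneg_left _ hy.le
        apply div_le_div_of_nonneg_left (residueClass_nonneg a n) hn0
        rw [hsplit]
        have : (1:ℝ) ≤ (n:ℝ) ^ (x k - 1) := Real.one_le_rpow hn1 hy.le
        nlinarith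
    have h1 : (x k - 1) * ∑' n, residueClass a n / (n : ℝ) ^ (x k) ≤
        (x k - 1) * ∑' n, A n + ∑' n, G k n := by
      rw [← tsum_mul_left, ← tsum_mul_left, ← (hA.mul_left _).tsum_add (hGsum k)]
      exact (hsumR.mul_left _).tsum_le_tsum hterm ((hA.mul_left _).add (hGsum k))
    have h2 : (x k - 1) * ((q.totient : ℝ)⁻¹ / (x k - 1) - C) ≤
        (x k - 1) * ∑' n, residueClass a n / (n : ℝ) ^ (x k) :=
      mul_le_mul_of_nonneg_left hlow hy.le
    have h3 : (x k - 1) * ((q.totient : ℝ)⁻¹ / (x k - 1) - C) =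
        (q.totient : ℝ)⁻¹ - (x k - 1) * C := by
      field_simp
    rw [h3] at h2
    linarith
  have hlim2 : Tendsto (fun k => (x k - 1) * (C + ∑' n, A n) + ∑' n, G k n) atTop (𝓝 0) := by
    have := (hxlim.mul_const (C + ∑' n, A n)).add hGtend
    simpa using this
  have hle : (q.totient : ℝ)⁻¹ ≤ 0 := ge_of_tendsto' hlim2 hcomp
  have hq : 0 < (q.totient : ℝ)⁻¹ := inv_pos.mpr (mod_cast Nat.totient_pos.mpr (NeZero.pos q))
  linarith

/-- Integers free of prime factors from a set of primes with divergent reciprocal sum have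
natural density zero. -/
theorem density_zero (S : Set ℕ) (hS : ∀ p ∈ S, p.Prime)
    (hdiv : ¬ Summable (S.indicator (fun n : ℕ => (1 : ℝ) / n)))
    (E : Set ℕ) [DecidablePred (· ∈ E)] (hE : ∀ n ∈ E, 0 < n → ∀ p ∈ S, ¬ p ∣ n) :
    Tendsto (fun N : ℕ => (((Finset.range N).filter (· ∈ E)).card : ℝ) / N) atTop (𝓝 0) := by
  classical
  have hnn : ∀ n, 0 ≤ S.indicator (fun n : ℕ => (1 : ℝ) / n) n :=
    fun n => Set.indicator_nonneg (fun n _ => by positivity) n
  rw [Metric.tendsto_atTop]
  intro ε hε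
  -- choose finite set with large sum
  have hbig : ∀ B : ℝ, ∃ F : Finset ℕ, (∀ p ∈ F, p ∈ S) ∧ B ≤ ∑ p ∈ F, (1:ℝ) / p := by
    intro B
    by_contra hcon
    push Not at hcon
    apply hdiv
    apply summable_of_sum_le hnn (c := B)
    intro u
    have h1 : ∑ i ∈ u, S.indicator (fun n : ℕ => (1 : ℝ) / n) i = ∑ i ∈ u.filter (· ∈ S), (1:ℝ) / i := by
      rw [Finset.sum_filter]
      apply Finset.sum_congr rfl
      intro i _
      by_cases h : i ∈ S <;> simp [h]
    rw [h1]
    exact (hcon (u.filter (· ∈ S)) (fun p hp => (Finset.mem_filter.mp hp).2)).le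
  obtain ⟨F, hFS, hF⟩ := hbig (-Real.log (ε / 3))
  have hFp : ∀ p ∈ F, p.Prime := fun p hp => hS p (hFS p hp)
  set P : ℕ := ∏ p ∈ F, p with hP
  have hPpos : 0 < P := Finset.prod_pos (fun p hp => (hFp p hp).pos)
  have hPF : P.primeFactors = F := Nat.primeFactors_prod hFp
  -- totient bound
  have htot : (P.totient : ℝ) ≤ P * (ε / 3) := by
    have h1 : (P.totient : ℚ) = P * ∏ p ∈ P.primeFactors, (1 - (p : ℚ)⁻¹) :=
      Nat.totient_eq_mul_prod_factors P
    have h2 : (P.totient : ℝ) = P * ∏ p ∈ F, (1 - (p : ℝ)⁻¹) := by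
      rw [hPF] at h1
      have h3 : ((P.totient : ℚ) : ℝ) = ((P * ∏ p ∈ F, (1 - (p : ℚ)⁻¹) : ℚ) : ℝ) := by rw [h1]
      push_cast at h3
      exact h3
    rw [h2]
    apply mul_le_mul_of_nonneg_left _ (Nat.cast_nonneg P)
    have h3 : ∏ p ∈ F, (1 - (p : ℝ)⁻¹) ≤ ∏ p ∈ F, Real.exp (-(1 / (p:ℝ))) := by
      apply Finset.prod_le_prod
      · intro p hp
        have : (1:ℝ) ≤ p := by exact_mod_cast (hFp p hp).one_lt.le
        have : (p:ℝ)⁻¹ ≤ 1 := inv_le_one_of_one_le₀ this
        linarith
      · intro p _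
        have := Real.add_one_le_exp (-(1 / (p:ℝ)))
        rw [one_div] at this ⊢
        linarith
    rw [← Real.exp_sum] at h3
    refine h3.trans ?_
    rw [Finset.sum_neg_distrib]
    have h4 : Real.exp (-∑ p ∈ F, 1 / (p:ℝ)) ≤ Real.exp (Real.log (ε / 3)) :=
      Real.exp_le_exp.mpr (by linarith)
    rwa [Real.exp_log (by positivity)] at h4
  obtain ⟨N0, hN0⟩ : ∃ N0 : ℕ, 3 * ((P.totient : ℝ) + 2) / ε < N0 := exists_nat_gt _
  refine ⟨max N0 1, fun N hN => ?_⟩
  have hNN0 : N0 ≤ N := le_trans (le_max_left _ _) hN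
  have hN1 : 1 ≤ N := le_trans (le_max_right _ _) hN
  have hNr : (0:ℝ) < N := by exact_mod_cast hN1
  rw [Real.dist_eq, sub_zero, abs_of_nonneg (by positivity), div_lt_iff₀ hNr]
  have hcard : (((Finset.range N).filter (· ∈ E)).card : ℝ) ≤ P.totient * ((N:ℝ) / P + 1) + 1 := by
    have h1 : (Finset.range N).filter (· ∈ E) ⊆
        insert 0 ((Finset.Ico 0 (0 + N)).filter (P.Coprime)) := by
      intro n hn
      rw [Finset.mem_filter, Finset.mem_range] at hn
      rw [Finset.mem_insert, Finset.mem_filter, Finset.mem_Ico]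
      rcases Nat.eq_zero_or_pos n with h | h
      · left; exact h
      · right
        refine ⟨⟨Nat.zero_le _, by omega⟩, ?_⟩
        rw [hP]
        apply Nat.Coprime.prod_left
        intro p hp
        exact (Nat.Prime.coprime_iff_not_dvd (hFp p hp)).mpr (hE n hn.2 h p (hFS p hp))
    have h2 := Finset.card_le_card h1
    have h3 := Finset.card_insert_le 0 ((Finset.Ico 0 (0 + N)).filter (P.Coprime))
    have h4 : ((Finset.Ico 0 (0 + N)).filter (P.Coprime)).card ≤ P.totient * (N / P + 1) :=
      Nat.Ico_filter_coprime_le (a := P) 0 N hPpos.ne'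
    have h5 : ((Finset.range N).filter (· ∈ E)).card ≤ P.totient * (N / P + 1) + 1 := by omega
    have h6 : (((Finset.range N).filter (· ∈ E)).card : ℝ) ≤
        ((P.totient * (N / P + 1) + 1 : ℕ) : ℝ) := by exact_mod_cast h5
    push_cast at h6
    have h7 : ((N / P : ℕ) : ℝ) ≤ (N:ℝ) / P := Nat.cast_div_le
    have h8 : (P.totient : ℝ) * (((N / P : ℕ) : ℝ) + 1) ≤ P.totient * ((N:ℝ) / P + 1) :=
      mul_le_mul_of_nonneg_left (by linarith) (Nat.cast_nonneg _)
    linarith
  have hPr : (0:ℝ) < P := by exact_mod_cast hPpos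
  have h9 : (P.totient : ℝ) * ((N:ℝ) / P) ≤ (ε / 3) * N := by
    have : (P.totient : ℝ) * ((N:ℝ) / P) = (P.totient / P) * N := by ring
    rw [this]
    apply mul_le_mul_of_nonneg_right _ hNr.le
    rw [div_le_iff₀ hPr]; linarith
  have h10 : 3 * ((P.totient : ℝ) + 2) < ε * N := by
    rw [div_lt_iff₀ hε] at hN0
    have : (N0:ℝ) ≤ N := by exact_mod_cast hNN0
    nlinarith
  have h11 : (P.totient : ℝ) * ((N:ℝ) / P + 1) + 1 = (P.totient : ℝ) * ((N:ℝ) / P) + P.totient + 1 := by
    ring
  rw [h11] at hcard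
  nlinarith

end Pool.Agent.H6
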