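import Mathlib

set_option autoImplicit false

namespace Pool.Agent.H6

/-- The value `1/(a₁ + 1/(a₂ + ... + 1/(aₙ + y)))`. -/
noncomputable def cf : List ℕ → ℝ → ℝ
  | [], y => y
  | (a :: l), y => 1 / ((a : ℝ) + cf l y)

lemma cf_append (l d : List ℕ) (y : ℝ) : cf (l ++ d) y = cf l (cf d y) := by
  induction l with
  | nil => rfl
  | cons a l ih => simp [cf, ih]

lemma cf_mem_Icc (l : List ℕ) (hl : ∀ a ∈ l, 1 ≤ a) (y : ℝ) (hy : y ∈ Set.Icc (0:ℝ) 1) :
    cf l y ∈ Set.Icc (0:ℝ) 1 := by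
  induction l with
  | nil => simpa [cf] using hy
  | cons a l ih =>
    have h1 := ih (fun b hb => hl b (List.mem_cons_of_mem _ hb))
    have ha : (1:ℝ) ≤ a := by exact_mod_cast hl a (List.mem_cons_self)
    rcases h1 with ⟨h0, h1⟩
    simp only [cf]
    constructor
    · positivity
    · rw [div_le_one (by linarith)]; linarith

lemma cf_pos (l : List ℕ) (hl : ∀ a ∈ l, 1 ≤ a) (hne : l ≠ []) (y : ℝ) (hy : y ∈ Set.Icc (0:ℝ) 1) :
    0 < cf l y := by
  cases l with
  | nil => exact absurd rfl hne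
  | cons a l =>
    have h1 := cf_mem_Icc l (fun b hb => hl b (List.mem_cons_of_mem _ hb)) y hy
    have ha : (1:ℝ) ≤ a := by exact_mod_cast hl a (List.mem_cons_self)
    simp only [cf]
    have := h1.1
    positivity

lemma cf_lt_one (l : List ℕ) (hl : ∀ a ∈ l, 1 ≤ a) (hne : 2 ≤ l.length) (y : ℝ)
    (hy : y ∈ Set.Icc (0:ℝ) 1) : cf l y < 1 := by
  cases l with
  | nil => simp at hne
  | cons a l =>
    have hl' : l ≠ [] := by
      rintro rfl; simp at hne
    have h1 := cf_pos l (fun b hb => hl b (List.mem_cons_of_mem _ hb)) hl' y hy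
    have ha : (1:ℝ) ≤ a := by exact_mod_cast hl a (List.mem_cons_self)
    simp only [cf]
    rw [div_lt_one (by linarith)]; linarith

/-- The Gauss map. -/
noncomputable def gm (y : ℝ) : ℝ := Int.fract (1 / y)

lemma gm_cf_cons (a : ℕ) (l : List ℕ) (y : ℝ) (h : cf l y ∈ Set.Ico (0:ℝ) 1) :
    gm (cf (a :: l) y) = cf l y := by
  simp only [gm, cf, one_div, inv_inv]
  rw [Int.fract_natCast_add]
  exact Int.fract_eq_self.mpr h

lemma floor_cf_cons (a : ℕ) (l : List ℕ) (y : ℝ) (h : cf l y ∈ Set.Ico (0:ℝ) 1) :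
    ⌊1 / (cf (a :: l) y)⌋ = (a : ℤ) := by
  simp only [cf, one_div, inv_inv]
  rw [Int.floor_natCast_add, Int.floor_eq_zero_iff.mpr h, add_zero]

lemma iterate_gm (l : List ℕ) (hl : ∀ a ∈ l, 1 ≤ a) (y : ℝ) (hy : y ∈ Set.Icc (0:ℝ) 1)
    (i : ℕ) (hi : i + 2 ≤ l.length) : gm^[i] (cf l y) = cf (l.drop i) y := by
  induction i generalizing l with
  | zero => simp
  | succ i ih =>
    cases l with
    | nil => simp at hi
    | cons a l =>
      have hl2 : ∀ b ∈ l, 1 ≤ b := fun b hb => hl b (List.mem_cons_of_mem _ hb)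
      have hlen : i + 2 ≤ l.length := by
        simp only [List.length_cons] at hi; omega
      rw [Function.iterate_succ_apply, gm_cf_cons, ih l hl2 hlen]
      · simp
      · exact ⟨(cf_mem_Icc l hl2 y hy).1, cf_lt_one l hl2 (by omega) y hy⟩

lemma digit_cf (l : List ℕ) (hl : ∀ a ∈ l, 1 ≤ a) (y : ℝ) (hy : y ∈ Set.Icc (0:ℝ) 1)
    (i : ℕ) (hi : i + 3 ≤ l.length) :
    ⌊1 / (gm^[i] (cf l y))⌋ = ((l[i]'(by omega) : ℕ) : ℤ) := by
  rw [iterate_gm l hl y hy i (by omega)]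
  have hil : i < l.length := by omega
  rw [List.drop_eq_getElem_cons hil]
  have hl2 : ∀ b ∈ l.drop (i+1), 1 ≤ b := fun b hb => hl b (List.mem_of_mem_drop hb)
  rw [floor_cf_cons]
  refine ⟨(cf_mem_Icc _ hl2 y hy).1, cf_lt_one _ hl2 ?_ y hy⟩
  simp only [List.length_drop]; omega

/-- `Cv l p p' q q' e`: the last two convergents of the list `l` and the sign of the error. -/
structure Cv (l : List ℕ) (p p' q q' : ℤ) (e : ℝ) : Prop where
  pos : ∀ a ∈ l, 1 ≤ a
  form : ∀ y : ℝ, 0 ≤ y → cf l y = (p + p' * y) / (q + q' * y)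
  det : (p : ℝ) * q' - p' * q = -e
  he : e = 1 ∨ e = -1
  hq : 1 ≤ q
  hq' : 0 ≤ q'
  hqq : q' ≤ q
  hlen : (l.length : ℤ) + 1 ≤ q + q'

lemma Cv.nil : Cv [] 0 1 1 0 1 := by
  refine ⟨by simp, ?_, by norm_num, Or.inl rfl, le_rfl, le_rfl, by norm_num, by simp⟩
  intro y _
  simp [cf]

lemma Cv.snoc {l : List ℕ} {p p' q q' : ℤ} {e : ℝ} (h : Cv l p p' q q' e) (a : ℕ) (ha : 1 ≤ a) :
    Cv (l ++ [a]) (a * p + p') p (a * q + q') q (-e) := by
  have haz : (1:ℤ) ≤ (a:ℤ) := by exact_mod_cast ha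
  have har : (1:ℝ) ≤ (a:ℝ) := by exact_mod_cast ha
  have hq := h.hq
  have hq' := h.hq'
  have hqq := h.hqq
  have hlen := h.hlen
  refine ⟨?_, ?_, ?_, ?_, ?_, ?_, ?_, ?_⟩
  · intro b hb
    rcases List.mem_append.mp hb with hb | hb
    · exact h.pos b hb
    · simp only [List.mem_singleton] at hb; rw [hb]; exact ha
  · intro y hy
    rw [cf_append]
    have h1 : cf [a] y = 1 / (a + y) := by simp [cf]
    have hay : (0:ℝ) < a + y := by linarith
    rw [h1, h.form _ (by positivity)]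
    have hqr : (1:ℝ) ≤ q := by exact_mod_cast hq
    have hqr' : (0:ℝ) ≤ q' := by exact_mod_cast hq'
    have hd1 : (0:ℝ) < q + q' * (1 / (a + y)) := by positivity
    have hd2 : (0:ℝ) < ((a:ℝ) * q + q') + q * y := by positivity
    push_cast
    rw [div_eq_div_iff hd1.ne' hd2.ne']
    field_simp
    ring
  · have := h.det
    push_cast
    linarith
  · rcases h.he with h | h <;> simp [h]
  · nlinarith
  · linarith
  · nlinarith
  · simp only [List.length_append, List.length_singleton]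
    push_cast
    nlinarith

end Pool.Agent.H6
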