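import Pool.Agent.H6.CF

set_option autoImplicit false

namespace Pool.Agent.H6

open Filter Set

lemma cf_continuousOn (l : List ℕ) (hl : ∀ a ∈ l, 1 ≤ a) :
    ContinuousOn (fun y => cf l y) (Icc (0:ℝ) 1) := by
  induction l with
  | nil => exact continuousOn_id
  | cons a l ih =>
    have hl2 : ∀ b ∈ l, 1 ≤ b := fun b hb => hl b (List.mem_cons_of_mem _ hb)
    have ha : (1:ℝ) ≤ a := by exact_mod_cast hl a (List.mem_cons_self)
    simp only [cf]
    apply ContinuousOn.div continuousOn_const (continuousOn_const.add (ih hl2))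
    intro y hy
    have := (cf_mem_Icc l hl2 y hy).1
    exact (by linarith : (0:ℝ) < (a:ℝ) + cf l y).ne'

/-- Existence of a real number in all the nested cylinders. -/
lemma exists_limit (L : ℕ → List ℕ) (d : ℕ → List ℕ) (hL : ∀ N, L (N+1) = L N ++ d N)
    (h0 : ∀ a ∈ L 0, 1 ≤ a) (hd : ∀ N, d N ≠ [] ∧ ∀ a ∈ d N, 1 ≤ a ∧ N ≤ a) :
    ∃ g ∈ Ioo (0:ℝ) 1, Tendsto (fun n : ℕ => ⌊1 / (gm^[n] g)⌋) atTop atTop ∧
      ∀ N, ∃ y ∈ Icc (0:ℝ) 1, g = cf (L N) y := by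
  have hpos : ∀ N, ∀ a ∈ L N, 1 ≤ a := by
    intro N
    induction N with
    | zero => exact h0
    | succ N ih =>
      intro a ha
      rw [hL] at ha
      rcases List.mem_append.mp ha with ha | ha
      · exact ih a ha
      · exact ((hd N).2 a ha).1
  have hlen : ∀ N, N ≤ (L N).length := by
    intro N
    induction N with
    | zero => simp
    | succ N ih =>
      rw [hL, List.length_append]
      have : 1 ≤ (d N).length := List.length_pos_iff.mpr (hd N).1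
      omega
  have hcomp : ∀ N, IsCompact ((fun y => cf (L N) y) '' Icc (0:ℝ) 1) := fun N =>
    isCompact_Icc.image_of_continuousOn (cf_continuousOn _ (hpos N))
  have hmono : ∀ N, (fun y => cf (L (N+1)) y) '' Icc (0:ℝ) 1 ⊆ (fun y => cf (L N) y) '' Icc (0:ℝ) 1 := by
    intro N
    rintro _ ⟨y, hy, rfl⟩
    refine ⟨cf (d N) y, cf_mem_Icc _ (fun a ha => ((hd N).2 a ha).1) y hy, ?_⟩
    simp only [hL, cf_append]
  obtain ⟨g, hg⟩ := IsCompact.nonempty_iInter_of_sequence_nonempty_isCompact_isClosed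
    (fun N => (fun y => cf (L N) y) '' Icc (0:ℝ) 1) hmono
    (fun N => ⟨_, mem_image_of_mem _ (⟨le_rfl, zero_le_one⟩ : (0:ℝ) ∈ Icc (0:ℝ) 1)⟩)
    (hcomp 0) (fun N => (hcomp N).isClosed)
  have hgN : ∀ N, ∃ y ∈ Icc (0:ℝ) 1, g = cf (L N) y := by
    intro N
    obtain ⟨y, hy, h⟩ := mem_iInter.mp hg N
    exact ⟨y, hy, h.symm⟩
  refine ⟨g, ?_, ?_, hgN⟩
  · obtain ⟨y, hy, h⟩ := hgN 2
    rw [h]
    have h2 := hlen 2
    refine ⟨cf_pos _ (hpos 2) ?_ y hy, cf_lt_one _ (hpos 2) h2 y hy⟩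
    intro h; rw [h] at h2; simp at h2
  · -- initial segments
    have hpre : ∀ N M, N ≤ M → ∃ e, L M = L N ++ e ∧ ∀ a ∈ e, N ≤ a := by
      intro N M hNM
      induction M, hNM using Nat.le_induction with
      | base => exact ⟨[], by simp, by simp⟩
      | succ M hM ih =>
        obtain ⟨e, he, hea⟩ := ih
        refine ⟨e ++ d M, by rw [hL, he, List.append_assoc], ?_⟩
        intro a ha
        rcases List.mem_append.mp ha with ha | ha
        · exact hea a ha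
        · exact le_trans hM ((hd M).2 a ha).2
    rw [tendsto_atTop]
    intro b
    obtain ⟨B, hB⟩ : ∃ B : ℕ, b ≤ (B : ℤ) := ⟨b.toNat, Int.self_le_toNat b⟩
    rw [eventually_atTop]
    refine ⟨(L B).length, fun i hi => ?_⟩
    set M := i + 3 + B with hM
    obtain ⟨e, he, hea⟩ := hpre B M (by omega)
    obtain ⟨y, hy, h⟩ := hgN M
    have hlM := hlen M
    rw [h, digit_cf _ (hpos M) y hy i (by omega)]
    refine le_trans hB ?_
    have hi1 : i < (L M).length := by omega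
    have : (L M)[i]'hi1 = e[i - (L B).length]'(by rw [he, List.length_append] at hi1; omega) := by
      simp only [he]
      rw [List.getElem_append_right hi]
    rw [this]
    exact_mod_cast hea _ (List.getElem_mem _)

lemma Cv.dist {l : List ℕ} {p p' q q' : ℤ} {e : ℝ} (h : Cv l p p' q q' e) (y : ℝ)
    (hy : y ∈ Icc (0:ℝ) 1) : |cf l y - p / q| ≤ 1 / q := by
  have hq := h.hq
  have hq' := h.hq'
  have hqr : (1:ℝ) ≤ q := by exact_mod_cast hq
  have hqr' : (0:ℝ) ≤ q' := by exact_mod_cast hq'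
  have hy0 := hy.1
  have hd1 : (0:ℝ) < q + q' * y := by positivity
  rw [h.form y hy.1]
  have hq0 : (0:ℝ) < q := by linarith
  have : ((p:ℝ) + p' * y) / (q + q' * y) - p / q = e * y / (q * (q + q' * y)) := by
    have hdet := h.det
    rw [div_sub_div _ _ hd1.ne' hq0.ne', div_eq_div_iff (by positivity) (by positivity)]
    have : (e : ℝ) = p' * q - p * q' := by linarith
    rw [this]; ring
  rw [this, abs_div, abs_mul]
  have habs : |e| = 1 := by rcases h.he with h | h <;> simp [h]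
  rw [habs, one_mul, abs_of_nonneg hy0, abs_of_pos (by positivity)]
  rw [div_le_div_iff₀ (by positivity) hq0, one_mul]
  have h1 : y * q ≤ 1 * q := mul_le_mul_of_nonneg_right hy.2 hq0.le
  have h2 : (q:ℝ) * 1 ≤ q * (q + q' * y) := by
    apply mul_le_mul_of_nonneg_left _ hq0.le
    nlinarith
  linarith

lemma Cv.q_ge {l : List ℕ} {p p' q q' : ℤ} {e : ℝ} (h : Cv l p p' q q' e) :
    ((l.length : ℝ) + 1) / 2 ≤ q := by
  have h1 := h.hlen
  have h2 := h.hqq
  have h3 : (l.length : ℤ) + 1 ≤ 2 * q := by linarith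
  have h4 : (l.length : ℝ) + 1 ≤ 2 * q := by exact_mod_cast h3
  linarith

/-- Assembly: two sequences of digit lists whose convergents sum to something tending to `x`. -/
lemma assemble (x : ℝ) (L1 L2 d1 d2 : ℕ → List ℕ)
    (p p' q q' r r' s s' : ℕ → ℤ) (e f : ℕ → ℝ)
    (hL1 : ∀ N, L1 (N+1) = L1 N ++ d1 N) (hL2 : ∀ N, L2 (N+1) = L2 N ++ d2 N)
    (hd1 : ∀ N, d1 N ≠ [] ∧ ∀ a ∈ d1 N, 1 ≤ a ∧ N ≤ a)
    (hd2 : ∀ N, d2 N ≠ [] ∧ ∀ a ∈ d2 N, 1 ≤ a ∧ N ≤ a)
    (h1 : ∀ N, Cv (L1 N) (p N) (p' N) (q N) (q' N) (e N))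
    (h2 : ∀ N, Cv (L2 N) (r N) (r' N) (s N) (s' N) (f N))
    (hx : ∀ N, |x - p N / q N - r N / s N| ≤ 1 / q N) :
    ∃ g₁ g₂ : ℝ, g₁ ∈ Ioo (0:ℝ) 1 ∧ g₂ ∈ Ioo (0:ℝ) 1 ∧
      Tendsto (fun n : ℕ => ⌊1 / (gm^[n] g₁)⌋) atTop atTop ∧
      Tendsto (fun n : ℕ => ⌊1 / (gm^[n] g₂)⌋) atTop atTop ∧ x = g₁ + g₂ := by
  obtain ⟨g₁, hg1, ht1, hc1⟩ := exists_limit L1 d1 hL1 (h1 0).pos hd1
  obtain ⟨g₂, hg2, ht2, hc2⟩ := exists_limit L2 d2 hL2 (h2 0).pos hd2
  refine ⟨g₁, g₂, hg1, hg2, ht1, ht2, ?_⟩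
  have hlen : ∀ (L d : ℕ → List ℕ), (∀ N, L (N+1) = L N ++ d N) →
      (∀ N, d N ≠ [] ∧ ∀ a ∈ d N, 1 ≤ a ∧ N ≤ a) → ∀ N, N ≤ (L N).length := by
    intro L d hL hd N
    induction N with
    | zero => simp
    | succ N ih =>
      rw [hL, List.length_append]
      have : 1 ≤ (d N).length := List.length_pos_iff.mpr (hd N).1
      omega
  have key : ∀ N : ℕ, |x - (g₁ + g₂)| ≤ 6 / ((N:ℝ) + 1) := by
    intro N
    obtain ⟨y, hy, hgy⟩ := hc1 N
    obtain ⟨z, hz, hgz⟩ := hc2 N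
    have b1 := (h1 N).dist y hy
    have b2 := (h2 N).dist z hz
    have b3 := hx N
    rw [← hgy] at b1
    rw [← hgz] at b2
    have q1 := (h1 N).q_ge
    have q2 := (h2 N).q_ge
    have l1 : (N:ℝ) ≤ (L1 N).length := by exact_mod_cast hlen L1 d1 hL1 hd1 N
    have l2 : (N:ℝ) ≤ (L2 N).length := by exact_mod_cast hlen L2 d2 hL2 hd2 N
    have hN : (0:ℝ) < (N:ℝ) + 1 := by positivity
    have i1 : 1 / (q N : ℝ) ≤ 2 / ((N:ℝ) + 1) := by
      rw [div_le_div_iff₀ (by linarith) hN]; linarith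
    have i2 : 1 / (s N : ℝ) ≤ 2 / ((N:ℝ) + 1) := by
      rw [div_le_div_iff₀ (by linarith) hN]; linarith
    have e1 : x - (g₁ + g₂) = (x - p N / q N - r N / s N) - (g₁ - p N / q N) - (g₂ - r N / s N) := by
      ring
    rw [e1]
    have := abs_sub (x - p N / q N - r N / s N - (g₁ - p N / q N)) (g₂ - r N / s N)
    have := abs_sub (x - p N / q N - r N / s N) (g₁ - p N / q N)
    have : 6 / ((N:ℝ) + 1) = 2 / ((N:ℝ) + 1) + 2 / ((N:ℝ) + 1) + 2 / ((N:ℝ) + 1) := by ring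
    linarith
  have hz : |x - (g₁ + g₂)| ≤ 0 := by
    have ht : Tendsto (fun N : ℕ => 6 / ((N:ℝ) + 1)) atTop (nhds 0) := by
      have := tendsto_one_div_add_atTop_nhds_zero_nat (𝕜 := ℝ)
      have h6 := this.const_mul 6
      simp only [mul_zero] at h6
      refine h6.congr (fun N => ?_)
      ring
    exact ge_of_tendsto ht (Eventually.of_forall key)
  have : x - (g₁ + g₂) = 0 := abs_eq_zero.mp (le_antisymm hz (abs_nonneg _))
  linarith

end Pool.Agent.H6
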