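import Pool.Agent.H6.CF2

set_option autoImplicit false

namespace Pool.Agent.H6

open Filter Set

lemma Cv.next_diff {l : List ℕ} {p p' q q' : ℤ} {e : ℝ} (h : Cv l p p' q q' e) (a : ℕ)
    (ha : 1 ≤ a) (D : ℝ) :
    D + p / q - ((a * p + p' : ℤ) : ℝ) / ((a * q + q' : ℤ) : ℝ) = D - e / (q * (a * q + q')) := by
  have hqr : (1:ℝ) ≤ q := by exact_mod_cast h.hq
  have hqr' : (0:ℝ) ≤ q' := by exact_mod_cast h.hq'
  have har : (1:ℝ) ≤ (a:ℝ) := by exact_mod_cast ha
  have hd : (0:ℝ) < a * q + q' := by positivity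
  have hq0 : (q:ℝ) ≠ 0 := by positivity
  have hdet := h.det
  push_cast
  have : (e : ℝ) = p' * q - p * q' := by linarith
  rw [this]
  field_simp
  ring

/-- Algebra of one new digit. -/
lemma Cv.base {l : List ℕ} {p p' q q' : ℤ} {e : ℝ} (h : Cv l p p' q q' e) (D T : ℝ)
    (hT : T = e * D) (a : ℕ) (ha : 1 ≤ a) (σ : ℝ)
    (hσ : T * q * (a * q + q') = 1 - σ * T * q ^ 2) :
    (-e) * (D - e / (q * (a * q + q'))) * (a * q + q') = σ * T * q := by
  have hqr : (1:ℝ) ≤ q := by exact_mod_cast h.hq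
  have hqr' : (0:ℝ) ≤ q' := by exact_mod_cast h.hq'
  have har : (1:ℝ) ≤ (a:ℝ) := by exact_mod_cast ha
  have hd : (0:ℝ) < a * q + q' := by positivity
  have hq0 : (q:ℝ) ≠ 0 := by positivity
  have hee : e * e = 1 := by rcases h.he with h | h <;> simp [h]
  have h1 : (-e) * (D - e / (q * (a * q + q'))) * (a * q + q') =
      (e * e - T * q * (a * q + q')) / q := by
    rw [hT]; field_simp; ring
  rw [h1, hσ, hee]
  field_simp
  ring

lemma Cv.floor_exists {l : List ℕ} {p p' q q' : ℤ} {e : ℝ} (h : Cv l p p' q q' e) (T : ℝ)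
    (hT0 : 0 < T) (B : ℕ) (hTq : T * q ^ 2 * (B + 1) ≤ 1) :
    ∃ a : ℕ, B ≤ a ∧ ∃ σ : ℝ, 0 ≤ σ ∧ σ < 1 ∧ T * q * (a * q + q') = 1 - σ * T * q ^ 2 := by
  have hqr : (1:ℝ) ≤ q := by exact_mod_cast h.hq
  have hqr' : (0:ℝ) ≤ q' := by exact_mod_cast h.hq'
  have hqq : (q':ℝ) ≤ q := by exact_mod_cast h.hqq
  have hTq0 : 0 < T * q ^ 2 := by positivity
  set X : ℝ := 1 / (T * q ^ 2) - q' / q with hX
  have h1 : (B : ℝ) + 1 ≤ 1 / (T * q ^ 2) := by
    rw [le_div_iff₀ hTq0]; linarith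
  have h2 : (q':ℝ) / q ≤ 1 := by
    rw [div_le_one (by linarith)]; exact hqq
  have hXB : (B:ℝ) ≤ X := by rw [hX]; linarith
  have hX0 : 0 ≤ X := le_trans (Nat.cast_nonneg B) hXB
  refine ⟨⌊X⌋₊, Nat.le_floor hXB, X - ⌊X⌋₊, ?_, ?_, ?_⟩
  · have := Nat.floor_le hX0; linarith
  · have := Nat.lt_floor_add_one X; linarith
  · have h3 : T * q * (q * X + q') = 1 := by
      rw [hX]; field_simp; ring
    linear_combination h3

lemma Cv.down {l : List ℕ} {p p' q q' : ℤ} {e : ℝ} (h : Cv l p p' q q' e) (D T : ℝ)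
    (hT : T = e * D) (hT0 : 0 < T) (B : ℕ) (hB : 1 ≤ B) (hTq : T * q ^ 2 * (B + 1) ≤ 1)
    (hirr : ∀ a : ℕ, 1 ≤ a → D - e / (q * (a * q + q')) ≠ 0) :
    ∃ a : ℕ, B ≤ a ∧ ∃ σ : ℝ, 0 < σ ∧ σ < 1 ∧ T * q * (a * q + q') = 1 - σ * T * q ^ 2 ∧
      (-e) * (D - e / (q * (a * q + q'))) * (a * q + q') = σ * T * q := by
  obtain ⟨a, hBa, σ, h0, h1, h2⟩ := h.floor_exists T hT0 B hTq
  have hb := h.base D T hT a (le_trans hB hBa) σ h2
  refine ⟨a, hBa, σ, lt_of_le_of_ne h0 ?_, h1, h2, hb⟩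
  rintro rfl
  have hqr : (1:ℝ) ≤ q := by exact_mod_cast h.hq
  have hqr' : (0:ℝ) ≤ q' := by exact_mod_cast h.hq'
  have har : (1:ℝ) ≤ (a:ℝ) := by exact_mod_cast (le_trans hB hBa)
  have hd : (0:ℝ) < a * q + q' := by positivity
  have he : -e ≠ 0 := by rcases h.he with h | h <;> simp [h]
  have h3 := hirr a (le_trans hB hBa)
  simp only [zero_mul] at hb
  exact (mul_ne_zero (mul_ne_zero he h3) hd.ne') hb

lemma irr_ne {x : ℝ} (hx : Irrational x) (p q r s : ℤ) : x - p / q - r / s ≠ 0 := by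
  intro h
  apply hx
  refine ⟨(p:ℚ) / q + (r:ℚ) / s, ?_⟩
  push_cast
  linarith

/-- A single round of the algorithm. -/
lemma round {x : ℝ} (hx : Irrational x) (N : ℕ) {l1 l2 : List ℕ} {p p' q q' r r' s s' : ℤ} {e : ℝ}
    (c1 : Cv l1 p p' q q' e) (c2 : Cv l2 r r' s s' e)
    (hT0 : 0 < e * (x - p / q - r / s))
    (hκ : e * (x - p / q - r / s) * q * s * (N + 2) ≤ 1) (hqs : q ≤ s) :
    ∃ (d1 d2 : List ℕ) (P P' Q Q' R R' S S' : ℤ) (E : ℝ), d1 ≠ [] ∧
      (∀ a ∈ d1, 1 ≤ a ∧ N ≤ a) ∧ (∀ a ∈ d2, 1 ≤ a ∧ N ≤ a) ∧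
      Cv (l1 ++ d1) P P' Q Q' E ∧ Cv (l2 ++ d2) R R' S S' E ∧
      0 < E * (x - P / Q - R / S) ∧ E * (x - P / Q - R / S) * Q * S * (N + 3) ≤ 1 ∧
      (d2 ≠ [] ∨ S ≤ Q) := by
  have hqr : (1:ℝ) ≤ q := by exact_mod_cast c1.hq
  have hqr' : (0:ℝ) ≤ q' := by exact_mod_cast c1.hq'
  have hsr : (1:ℝ) ≤ s := by exact_mod_cast c2.hq
  have hsr' : (0:ℝ) ≤ s' := by exact_mod_cast c2.hq'
  have hqs' : (q:ℝ) ≤ s := by exact_mod_cast hqs
  set D : ℝ := x - p / q - r / s with hD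
  set T : ℝ := e * D with hT
  have hN : (0:ℝ) ≤ (N:ℝ) := Nat.cast_nonneg N
  have hκ0 : 0 < T * q * s := by positivity
  have hκ2 : T * q * s ≤ 1 / 2 := by
    have h5 : T * q * s * 2 ≤ T * q * s * (N + 2) :=
      mul_le_mul_of_nonneg_left (by linarith) hκ0.le
    linarith
  have hTq2 : T * q ^ 2 ≤ T * q * s := by
    have : T * q * q ≤ T * q * s := mul_le_mul_of_nonneg_left hqs' (by positivity)
    linarith
  have hTq0 : 0 < T * q ^ 2 := by positivity
  -- nonvanishing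
  have hD1 : ∀ a : ℕ, 1 ≤ a → D - e / (q * (a * q + q')) ≠ 0 := by
    intro a ha
    have := c1.next_diff a ha D
    rw [← this]
    have h2 := irr_ne hx (a * p + p') (a * q + q') r s
    intro h3
    apply h2
    rw [← h3, hD]; ring
  obtain ⟨a0, ha0, τ, hτ0, hτ1, hτ, hb0⟩ := c1.down D T hT hT0 (N+1) (by omega)
    (by
      push_cast
      have h5 : T * q ^ 2 * ((N:ℝ) + 1 + 1) ≤ T * q * s * ((N:ℝ) + 1 + 1) :=
        mul_le_mul_of_nonneg_right hTq2 (by positivity)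
      linarith) hD1
  have ha0r : (1:ℝ) ≤ (a0:ℝ) := by exact_mod_cast (by omega : 1 ≤ a0)
  by_cases hcase : τ * (N + 3) < 1
  · -- case (b)
    set D1 : ℝ := D - e / (q * (a0 * q + q')) with hD1def
    have c1' := c1.snoc a0 (by omega)
    set q1 : ℝ := a0 * q + q' with hq1
    have hq1pos : 0 < q1 := by positivity
    have hT1 : 0 < -e * D1 := by
      have : 0 < (-e * D1) * q1 := by rw [hb0]; positivity
      exact (mul_pos_iff_of_pos_right hq1pos).mp this
    have hcast1 : (((a0 * q + q' : ℤ)) : ℝ) = q1 := by rw [hq1]; push_cast; ring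
    have hD1eq : D1 = x - ((a0 * p + p' : ℤ) : ℝ) / ((a0 * q + q' : ℤ) : ℝ) - r / s := by
      have := c1.next_diff a0 (by omega) D
      rw [hD1def, ← this, hD]; ring
    have hTq1 : (-e * D1) * (((a0 * q + q' : ℤ)) : ℝ) ^ 2 * (((N+1 : ℕ) : ℝ) + 1) ≤ 1 := by
      rw [hcast1]
      have h1 : (-e * D1) * q1 ^ 2 = τ * (T * q * q1) := by
        have : (-e * D1) * q1 ^ 2 = ((-e * D1) * q1) * q1 := by ring
        rw [this, hb0]; ring
      rw [h1, hτ]
      have h2 : 1 - τ * T * q ^ 2 ≤ 1 := by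
        have : 0 < τ * T * q ^ 2 := by positivity
        linarith
      have h3 : τ * (1 - τ * T * q ^ 2) ≤ τ * 1 := mul_le_mul_of_nonneg_left h2 hτ0.le
      push_cast
      have h4 : τ * (1 - τ * T * q ^ 2) * ((N:ℝ) + 1 + 1) ≤ τ * 1 * ((N:ℝ) + 1 + 1) :=
        mul_le_mul_of_nonneg_right h3 (by positivity)
      linarith
    have hD2 : ∀ a : ℕ, 1 ≤ a → D1 - (-e) / ((((a0 * q + q' : ℤ)) : ℝ) *
        (a * (((a0 * q + q' : ℤ)) : ℝ) + q)) ≠ 0 := by
      intro a ha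
      have h4 := c1'.next_diff a ha D1
      rw [← h4]
      have h2 := irr_ne hx (a * (a0 * p + p') + p) (a * (a0 * q + q') + q) r s
      intro h3
      apply h2
      rw [← h3, hD1eq]; ring
    obtain ⟨a1, ha1, σ, hσ0, hσ1, hσ, hb1⟩ := c1'.down D1 (-e * D1) rfl hT1 (N+1) (by omega)
      hTq1 hD2
    have ha1r : (1:ℝ) ≤ (a1:ℝ) := by exact_mod_cast (by omega : 1 ≤ a1)
    have c1'' := c1'.snoc a1 (by omega)
    set D2 : ℝ := D1 - (-e) / ((((a0 * q + q' : ℤ)) : ℝ) *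
        (a1 * (((a0 * q + q' : ℤ)) : ℝ) + q)) with hD2def
    set q2 : ℝ := a1 * (((a0 * q + q' : ℤ)) : ℝ) + q with hq2
    have hq2pos : 0 < q2 := by rw [hq2, hcast1]; positivity
    have hcast2 : (((a1 * (a0 * q + q') + q : ℤ)) : ℝ) = q2 := by rw [hq2]; push_cast; ring
    have hD2eq : D2 = x - ((a1 * (a0 * p + p') + p : ℤ) : ℝ) /
        ((a1 * (a0 * q + q') + q : ℤ) : ℝ) - r / s := by
      have := c1'.next_diff a1 (by omega) D1
      rw [hD2def, ← this, hD1eq]; ring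
    rw [hcast1] at hb1 hq2
    have hprod : (- -e * D2) * q2 * s = σ * τ * (T * q * s) := by
      rw [hb1, mul_assoc σ, hb0]; ring
    have g0 : ∀ a ∈ [a0, a1], 1 ≤ a ∧ N ≤ a := by
      intro a ha
      simp only [List.mem_cons, List.not_mem_nil, or_false] at ha
      rcases ha with rfl | rfl <;> omega
    have g1 : Cv (l1 ++ [a0, a1]) (a1 * (a0 * p + p') + p) (a0 * p + p')
        (a1 * (a0 * q + q') + q) (a0 * q + q') (- -e) := by
      have : l1 ++ [a0, a1] = l1 ++ [a0] ++ [a1] := by simp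
      rw [this]; exact c1''
    have g2 : Cv (l2 ++ []) r r' s s' (- -e) := by
      have : - -e = e := by ring
      rw [List.append_nil, this]; exact c2
    have g3 : 0 < (- -e) * D2 := by
      have : 0 < (- -e * D2) * q2 := by rw [hb1]; positivity
      exact (mul_pos_iff_of_pos_right hq2pos).mp this
    have g4 : (- -e) * D2 * q2 * s * (N + 3) ≤ 1 := by
      rw [hprod]
      have h1 : σ * τ * (T * q * s) * (N + 3) = σ * (T * q * s) * (τ * (N + 3)) := by ring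
      rw [h1]
      have h2 : σ * (T * q * s) ≤ 1 * (T * q * s) := mul_le_mul_of_nonneg_right hσ1.le hκ0.le
      have h4 : 0 ≤ σ * (T * q * s) := by positivity
      have h5 : σ * (T * q * s) * (τ * (N + 3)) ≤ σ * (T * q * s) * 1 :=
        mul_le_mul_of_nonneg_left hcase.le h4
      linarith
    have g5 : s ≤ a1 * (a0 * q + q') + q := by
      have h1 : (s:ℝ) ≤ q1 := by
        have h2 : T * q * s ≤ T * q * q1 := by
          rw [hτ]
          have : τ * T * q ^ 2 ≤ 1 / 2 := by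
            have h5 : τ * (T * q ^ 2) ≤ 1 * (T * q ^ 2) :=
              mul_le_mul_of_nonneg_right hτ1.le hTq0.le
            linarith
          linarith
        exact le_of_mul_le_mul_left h2 (by positivity)
      have h2 : (s:ℝ) ≤ (((a1 * (a0 * q + q') + q : ℤ)) : ℝ) := by
        rw [hcast2, hq2]
        have h6 : 1 * q1 ≤ a1 * q1 := mul_le_mul_of_nonneg_right ha1r hq1pos.le
        linarith
      exact_mod_cast h2
    rw [← hcast2] at g4
    rw [hD2eq] at g3 g4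
    exact ⟨[a0, a1], [], _, _, _, _, _, _, _, _, _, by simp, g0, by simp, g1, g2, g3, g4, Or.inr g5⟩
  · -- case (a)
    push Not at hcase
    have har : (1:ℝ) ≤ ((a0 + 1 : ℕ):ℝ) := by push_cast; linarith
    set ρ : ℝ := 1 - τ with hρ
    have hρ0 : 0 < ρ := by rw [hρ]; linarith
    have hσ' : T * q * (((a0 + 1 : ℕ) : ℝ) * q + q') = 1 - (-ρ) * T * q ^ 2 := by
      push_cast
      rw [hρ]; linear_combination hτ
    have hb1 := c1.base D T hT (a0 + 1) (by omega) (-ρ) hσ'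
    have c1' := c1.snoc (a0 + 1) (by omega)
    set D1 : ℝ := D - e / (q * (((a0 + 1 : ℕ) : ℝ) * q + q')) with hD1def
    set q1 : ℝ := ((a0 + 1 : ℕ) : ℝ) * q + q' with hq1
    have hq1pos : 0 < q1 := by positivity
    have hb1' : (e * D1) * q1 = ρ * T * q := by linarith
    have hT1 : 0 < e * D1 := by
      have : 0 < (e * D1) * q1 := by rw [hb1']; positivity
      exact (mul_pos_iff_of_pos_right hq1pos).mp this
    have hcast1 : (((((a0 + 1 : ℕ) : ℤ) * q + q' : ℤ)) : ℝ) = q1 := by rw [hq1]; push_cast; ring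
    have hD1eq : D1 = x - ((((a0 + 1 : ℕ) : ℤ) * p + p' : ℤ) : ℝ) /
        ((((a0 + 1 : ℕ) : ℤ) * q + q' : ℤ) : ℝ) - r / s := by
      have := c1.next_diff (a0 + 1) (by omega) D
      rw [hD1def, ← this, hD]; ring
    have hTs : (e * D1) * (s:ℝ) ^ 2 * (((N+1 : ℕ) : ℝ) + 1) ≤ 1 := by
      have h1 : (e * D1) * (s:ℝ) ^ 2 ≤ (T * q * s) ^ 2 := by
        -- multiply by q1 > 0
        have h2 : (e * D1) * (s:ℝ) ^ 2 * q1 ≤ (T * q * s) ^ 2 * q1 := by
          have h3 : (e * D1) * (s:ℝ) ^ 2 * q1 = ρ * (T * q * s ^ 2) := by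
            have : (e * D1) * (s:ℝ) ^ 2 * q1 = ((e * D1) * q1) * s ^ 2 := by ring
            rw [this, hb1']; ring
          have h4 : (T * q * s) ^ 2 * q1 = (T * q * s ^ 2) * (T * q * q1) := by ring
          rw [h3, h4, hσ']
          have h5 : 0 < T * q * s ^ 2 := by positivity
          have h6 : ρ ≤ 1 - -ρ * T * q ^ 2 := by
            have : 0 < ρ * T * q ^ 2 := by positivity
            have h7 : ρ ≤ 1 := by rw [hρ]; linarith
            linarith
          have h9 := mul_le_mul_of_nonneg_right h6 h5.le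
          linarith
        exact le_of_mul_le_mul_right h2 hq1pos
      push_cast
      have h8 : (T * q * s) * (T * q * s * ((N:ℝ) + 2)) ≤ T * q * s * 1 :=
        mul_le_mul_of_nonneg_left hκ hκ0.le
      have h9 : e * D1 * (s:ℝ) ^ 2 * ((N:ℝ) + 1 + 1) ≤ (T * q * s) ^ 2 * ((N:ℝ) + 1 + 1) :=
        mul_le_mul_of_nonneg_right h1 (by positivity)
      linarith
    have hD2 : ∀ a : ℕ, 1 ≤ a → D1 - e / ((s : ℝ) * (a * s + s')) ≠ 0 := by
      intro a ha
      have h4 := c2.next_diff a ha D1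
      rw [← h4]
      have h2 := irr_ne hx (((a0 + 1 : ℕ) : ℤ) * p + p') (((a0 + 1 : ℕ) : ℤ) * q + q')
        (a * r + r') (a * s + s')
      intro h3
      apply h2
      rw [← h3, hD1eq]; ring
    obtain ⟨b, hb, σ, hσ0, hσ1, hσ, hb2⟩ := c2.down D1 (e * D1) rfl hT1 (N+1) (by omega) hTs hD2
    have hbr : (1:ℝ) ≤ (b:ℝ) := by exact_mod_cast (by omega : 1 ≤ b)
    have c2' := c2.snoc b (by omega)
    set D2 : ℝ := D1 - e / ((s : ℝ) * (b * s + s')) with hD2def
    set s1 : ℝ := b * s + s' with hs1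
    have hs1pos : 0 < s1 := by positivity
    have hcast2 : (((b * s + s' : ℤ)) : ℝ) = s1 := by rw [hs1]; push_cast; ring
    have hD2eq : D2 = x - ((((a0 + 1 : ℕ) : ℤ) * p + p' : ℤ) : ℝ) /
        ((((a0 + 1 : ℕ) : ℤ) * q + q' : ℤ) : ℝ) - ((b * r + r' : ℤ) : ℝ) / ((b * s + s' : ℤ) : ℝ) := by
      have := c2.next_diff b (by omega) D1
      rw [hD2def, ← this, hD1eq]; ring
    have hprod : (-e * D2) * q1 * s1 = σ * ρ * (T * q * s) := by
      have : (-e * D2) * q1 * s1 = ((-e * D2) * s1) * q1 := by ring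
      rw [this, hb2]
      have : σ * (e * D1) * s * q1 = σ * ((e * D1) * q1) * s := by ring
      rw [this, hb1']; ring
    refine ⟨[a0 + 1], [b], _, _, _, _, _, _, _, _, _, by simp, ?_, ?_, c1', c2', ?_, ?_,
      Or.inl (by simp)⟩
    · intro a ha
      simp only [List.mem_singleton] at ha
      omega
    · intro a ha
      simp only [List.mem_singleton] at ha
      omega
    · rw [← hD2eq]
      have : 0 < (-e * D2) * s1 := by rw [hb2]; positivity
      exact (mul_pos_iff_of_pos_right hs1pos).mp this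
    · rw [← hD2eq, hcast1, hcast2, hprod]
      have h1 : ρ * ((N:ℝ) + 3) ≤ N + 2 := by rw [hρ]; linarith
      have h2 : σ * (T * q * s) * (ρ * ((N:ℝ) + 3)) ≤ σ * (T * q * s) * (N + 2) :=
        mul_le_mul_of_nonneg_left h1 (by positivity)
      have h3 : σ * (T * q * s * (N + 2)) ≤ 1 := by
        have h4 : 0 < T * q * s * ((N:ℝ) + 2) := by positivity
        have h5 : σ * (T * q * s * ((N:ℝ) + 2)) ≤ 1 * (T * q * s * ((N:ℝ) + 2)) :=
          mul_le_mul_of_nonneg_right hσ1.le h4.le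
        linarith
      linarith

end Pool.Agent.H6
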