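import Pool.Agent.H6.CF3

set_option autoImplicit false

namespace Pool.Agent.H6

open Filter Set

lemma round_swap {x : ℝ} (hx : Irrational x) (N : ℕ) {l1 l2 : List ℕ}
    {p p' q q' r r' s s' : ℤ} {e : ℝ}
    (c1 : Cv l1 p p' q q' e) (c2 : Cv l2 r r' s s' e)
    (hT0 : 0 < e * (x - p / q - r / s))
    (hκ : e * (x - p / q - r / s) * q * s * (N + 2) ≤ 1) (hqs : s ≤ q) :
    ∃ (d1 d2 : List ℕ) (P P' Q Q' R R' S S' : ℤ) (E : ℝ), d2 ≠ [] ∧
      (∀ a ∈ d1, 1 ≤ a ∧ N ≤ a) ∧ (∀ a ∈ d2, 1 ≤ a ∧ N ≤ a) ∧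
      Cv (l1 ++ d1) P P' Q Q' E ∧ Cv (l2 ++ d2) R R' S S' E ∧
      0 < E * (x - P / Q - R / S) ∧ E * (x - P / Q - R / S) * Q * S * (N + 3) ≤ 1 ∧
      (d1 ≠ [] ∨ Q ≤ S) := by
  have e1 : e * (x - p / q - r / s) = e * (x - r / s - p / q) := by ring
  have e2 : e * (x - p / q - r / s) * q * s * (N + 2) =
    e * (x - r / s - p / q) * s * q * (N + 2) := by ring
  rw [e1] at hT0
  rw [e2] at hκ
  obtain ⟨d1, d2, P, P', Q, Q', R, R', S, S', E, h1, h2, h3, h4, h5, h6, h7, h8⟩ :=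
    round hx N c2 c1 hT0 hκ hqs
  refine ⟨d2, d1, R, R', S, S', P, P', Q, Q', E, h1, h3, h2, h5, h4, ?_, ?_, h8⟩
  · have : E * (x - R / S - P / Q) = E * (x - P / Q - R / S) := by ring
    rw [this]; exact h6
  · have : E * (x - R / S - P / Q) * S * Q * (N + 3) = E * (x - P / Q - R / S) * Q * S * (N + 3) := by
      ring
    rw [this]; exact h7

/-- States of the algorithm. -/
structure StI (x : ℝ) (N : ℕ) where
  l1 : List ℕ
  l2 : List ℕ
  p : ℤ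
  p' : ℤ
  q : ℤ
  q' : ℤ
  r : ℤ
  r' : ℤ
  s : ℤ
  s' : ℤ
  e : ℝ
  c1 : Cv l1 p p' q q' e
  c2 : Cv l2 r r' s s' e
  h0 : 0 < e * (x - p / q - r / s)
  hk : e * (x - p / q - r / s) * q * s * (N + 2) ≤ 1

lemma StI.next {x : ℝ} (hx : Irrational x) {N : ℕ} (σ : StI x N) :
    ∃ (τ : StI x (N+1)) (d1 d2 : List ℕ), τ.l1 = σ.l1 ++ d1 ∧ τ.l2 = σ.l2 ++ d2 ∧
      (d1 ≠ [] ∧ ∀ a ∈ d1, 1 ≤ a ∧ N ≤ a) ∧ (d2 ≠ [] ∧ ∀ a ∈ d2, 1 ≤ a ∧ N ≤ a) := by
  obtain ⟨l1, l2, p, p', q, q', r, r', s, s', e, c1, c2, h0, hk⟩ := σ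
  rcases le_total q s with hqs | hqs
  · obtain ⟨d1, d2, P, P', Q, Q', R, R', S, S', E, h1, h2, h3, h4, h5, h6, h7, h8⟩ :=
      round hx N c1 c2 h0 hk hqs
    by_cases hd2 : d2 = []
    · have hSQ : S ≤ Q := by
        rcases h8 with h8 | h8
        · exact absurd hd2 h8
        · exact h8
      obtain ⟨D1, D2, P1, P1', Q1, Q1', R1, R1', S1, S1', E1, g1, g2, g3, g4, g5, g6, g7, g8⟩ :=
        round_swap hx (N+1) h4 h5 h6 (by push_cast; linarith) hSQ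
      refine ⟨⟨(l1 ++ d1) ++ D1, (l2 ++ d2) ++ D2, P1, P1', Q1, Q1', R1, R1', S1, S1', E1, g4, g5,
        g6, ?_⟩, d1 ++ D1, d2 ++ D2, by simp, by simp, ⟨by simp [h1], ?_⟩, ⟨by simp [g1], ?_⟩⟩
      · have h9 : 0 ≤ E1 * (x - P1 / Q1 - R1 / S1) * Q1 * S1 := by
          have : (0:ℝ) ≤ Q1 := by exact_mod_cast (by linarith [g4.hq] : (0:ℤ) ≤ Q1)
          have : (0:ℝ) ≤ S1 := by exact_mod_cast (by linarith [g5.hq] : (0:ℤ) ≤ S1)
          positivity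
        push_cast at g7 ⊢
        linarith
      · intro a ha
        rcases List.mem_append.mp ha with ha | ha
        · exact h2 a ha
        · exact ⟨(g2 a ha).1, by have := (g2 a ha).2; omega⟩
      · intro a ha
        rcases List.mem_append.mp ha with ha | ha
        · exact h3 a ha
        · exact ⟨(g3 a ha).1, by have := (g3 a ha).2; omega⟩
    · exact ⟨⟨l1 ++ d1, l2 ++ d2, P, P', Q, Q', R, R', S, S', E, h4, h5, h6,
        by push_cast; linarith⟩, d1, d2, rfl, rfl, ⟨h1, h2⟩, ⟨hd2, h3⟩⟩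
  · obtain ⟨d1, d2, P, P', Q, Q', R, R', S, S', E, h1, h2, h3, h4, h5, h6, h7, h8⟩ :=
      round_swap hx N c1 c2 h0 hk hqs
    by_cases hd1 : d1 = []
    · have hSQ : Q ≤ S := by
        rcases h8 with h8 | h8
        · exact absurd hd1 h8
        · exact h8
      obtain ⟨D1, D2, P1, P1', Q1, Q1', R1, R1', S1, S1', E1, g1, g2, g3, g4, g5, g6, g7, g8⟩ :=
        round hx (N+1) h4 h5 h6 (by push_cast; linarith) hSQ
      refine ⟨⟨(l1 ++ d1) ++ D1, (l2 ++ d2) ++ D2, P1, P1', Q1, Q1', R1, R1', S1, S1', E1, g4, g5,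
        g6, ?_⟩, d1 ++ D1, d2 ++ D2, by simp, by simp, ⟨by simp [g1], ?_⟩, ⟨by simp [h1], ?_⟩⟩
      · have h9 : 0 ≤ E1 * (x - P1 / Q1 - R1 / S1) * Q1 * S1 := by
          have : (0:ℝ) ≤ Q1 := by exact_mod_cast (by linarith [g4.hq] : (0:ℤ) ≤ Q1)
          have : (0:ℝ) ≤ S1 := by exact_mod_cast (by linarith [g5.hq] : (0:ℤ) ≤ S1)
          positivity
        push_cast at g7 ⊢
        linarith
      · intro a ha
        rcases List.mem_append.mp ha with ha | ha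
        · exact h2 a ha
        · exact ⟨(g2 a ha).1, by have := (g2 a ha).2; omega⟩
      · intro a ha
        rcases List.mem_append.mp ha with ha | ha
        · exact h3 a ha
        · exact ⟨(g3 a ha).1, by have := (g3 a ha).2; omega⟩
    · exact ⟨⟨l1 ++ d1, l2 ++ d2, P, P', Q, Q', R, R', S, S', E, h4, h5, h6,
        by push_cast; linarith⟩, d1, d2, rfl, rfl, ⟨hd1, h2⟩, ⟨h1, h3⟩⟩

/-- From one good state we get the decomposition. -/
lemma of_state {x : ℝ} (hx : Irrational x) (σ0 : StI x 0) :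
    ∃ g₁ g₂ : ℝ, g₁ ∈ Ioo (0:ℝ) 1 ∧ g₂ ∈ Ioo (0:ℝ) 1 ∧
      Tendsto (fun n : ℕ => ⌊1 / (gm^[n] g₁)⌋) atTop atTop ∧
      Tendsto (fun n : ℕ => ⌊1 / (gm^[n] g₂)⌋) atTop atTop ∧ x = g₁ + g₂ := by
  classical
  choose nx d1 d2 e1 e2 hd1 hd2 using fun (N : ℕ) (σ : StI x N) => StI.next hx σ
  let sq : (N : ℕ) → StI x N := fun N => Nat.rec σ0 (fun N σ => nx N σ) N
  have hsq : ∀ N, sq (N+1) = nx N (sq N) := fun N => rfl
  refine assemble x (fun N => (sq N).l1) (fun N => (sq N).l2) (fun N => d1 N (sq N))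
    (fun N => d2 N (sq N)) (fun N => (sq N).p) (fun N => (sq N).p') (fun N => (sq N).q)
    (fun N => (sq N).q') (fun N => (sq N).r) (fun N => (sq N).r') (fun N => (sq N).s)
    (fun N => (sq N).s') (fun N => (sq N).e) (fun N => (sq N).e)
    (fun N => ?_) (fun N => ?_) (fun N => hd1 N (sq N)) (fun N => hd2 N (sq N))
    (fun N => (sq N).c1) (fun N => (sq N).c2) (fun N => ?_)
  · simp only [hsq, e1]
  · simp only [hsq, e2]
  · set σ := sq N with hσ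
    have h0 := σ.h0
    have hk := σ.hk
    have hq : (1:ℝ) ≤ σ.q := by exact_mod_cast σ.c1.hq
    have hs : (1:ℝ) ≤ σ.s := by exact_mod_cast σ.c2.hq
    have habs : |x - σ.p / σ.q - σ.r / σ.s| = σ.e * (x - σ.p / σ.q - σ.r / σ.s) := by
      rcases σ.c1.he with h | h
      · rw [h] at h0 ⊢
        rw [abs_of_pos (by linarith)]; ring
      · rw [h] at h0 ⊢
        rw [abs_of_neg (by linarith)]; ring
    rw [habs, le_div_iff₀ (by linarith)]
    have hN : (0:ℝ) ≤ N := Nat.cast_nonneg N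
    have h2 : 0 < σ.e * (x - σ.p / σ.q - σ.r / σ.s) * σ.q := by positivity
    have h3 : (1:ℝ) ≤ σ.s * (N + 2) := by nlinarith
    have h4 : σ.e * (x - σ.p / σ.q - σ.r / σ.s) * σ.q * 1 ≤
        σ.e * (x - σ.p / σ.q - σ.r / σ.s) * σ.q * (σ.s * (N + 2)) :=
      mul_le_mul_of_nonneg_left h3 h2.le
    have h5 : σ.e * (x - σ.p / σ.q - σ.r / σ.s) * σ.q * (σ.s * (N + 2)) =
      σ.e * (x - σ.p / σ.q - σ.r / σ.s) * σ.q * σ.s * (N + 2) := by ring
    linarith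

/-- The irrational case. -/
theorem irrational_case {x : ℝ} (hx : Irrational x) (h0 : 0 < x) (h1 : x < 1) :
    ∃ g₁ g₂ : ℝ, g₁ ∈ Ioo (0:ℝ) 1 ∧ g₂ ∈ Ioo (0:ℝ) 1 ∧
      Tendsto (fun n : ℕ => ⌊1 / (gm^[n] g₁)⌋) atTop atTop ∧
      Tendsto (fun n : ℕ => ⌊1 / (gm^[n] g₂)⌋) atTop atTop ∧ x = g₁ + g₂ := by
  by_cases hx2 : x ≤ 1 / 2
  · refine of_state hx ⟨[], [], 0, 1, 1, 0, 0, 1, 1, 0, 1, Cv.nil, Cv.nil, ?_, ?_⟩
    · simpa using h0
    · simp only [Int.cast_zero, Int.cast_one, Nat.cast_zero]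
      linarith
  · push Not at hx2
    -- first digit 1
    have c1 := Cv.nil.snoc 1 le_rfl
    have c1' : Cv ([] ++ [1]) 1 0 1 1 (-1) := by simpa using c1
    set D : ℝ := x - 1 with hD
    have halg : ∀ a : ℕ, 1 ≤ a → D - (-1) / (((1:ℤ):ℝ) * (a * ((1:ℤ):ℝ) + ((1:ℤ):ℝ))) =
        x - a / (a + 1) := by
      intro a ha
      have ha' : (0:ℝ) < (a:ℝ) + 1 := by positivity
      rw [hD]
      push_cast
      field_simp
      ring
    have hD1 : ∀ a : ℕ, 1 ≤ a → D - (-1) / (((1:ℤ):ℝ) * (a * ((1:ℤ):ℝ) + ((1:ℤ):ℝ))) ≠ 0 := by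
      intro a ha h
      have := irr_ne hx a (a+1) 0 1
      apply this
      rw [halg a ha] at h
      push_cast
      rw [zero_div, sub_zero]; exact h
    obtain ⟨a, ha, σ, hσ0, hσ1, hσ, hb⟩ := c1'.down D (1 - x) (by rw [hD]; ring) (by linarith) 1
      le_rfl (by push_cast; linarith) hD1
    have c2 := c1'.snoc a ha
    have ha' : (0:ℝ) < (a:ℝ) + 1 := by positivity
    rw [halg a ha] at hb
    push_cast at hb
    have hkey : (x - a / (a + 1)) * (a + 1) = σ * (1 - x) := by linarith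
    have hpos : 0 < x - (a:ℝ) / (a + 1) := by
      have : 0 < (x - (a:ℝ) / (a + 1)) * (a + 1) := by
        rw [hkey]
        have : 0 < 1 - x := by linarith
        positivity
      exact (mul_pos_iff_of_pos_right ha').mp this
    have c3 : Cv ([] ++ [1] ++ [a]) (a : ℤ) 1 (a + 1 : ℤ) 1 1 := by simpa using c2
    refine of_state hx ⟨[] ++ [1] ++ [a], [], _, _, _, _, 0, 1, 1, 0, 1, c3, Cv.nil, ?_, ?_⟩
    · push_cast
      rw [zero_div, sub_zero, one_mul]; exact hpos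
    · push_cast
      rw [zero_div, sub_zero, one_mul, hkey]
      nlinarith

end Pool.Agent.H6
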