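import Pool.Agent.H6.CF4

set_option autoImplicit false

namespace Pool.Agent.H6

open Filter Set

lemma exists_Cv (l : List ℕ) (hl : ∀ a ∈ l, 1 ≤ a) :
    ∃ p p' q q' : ℤ, Cv l p p' q q' ((-1) ^ l.length) := by
  induction l using List.reverseRecOn with
  | nil => exact ⟨0, 1, 1, 0, by simpa using Cv.nil⟩
  | append_singleton l a ih =>
    obtain ⟨p, p', q, q', h⟩ := ih (fun b hb => hl b (List.mem_append_left _ hb))
    have h2 := h.snoc a (hl a (by simp))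
    have : ((-1:ℝ)) ^ (l ++ [a]).length = -(-1) ^ l.length := by
      rw [List.length_append, List.length_singleton, pow_succ]; ring
    rw [this]
    exact ⟨_, _, _, _, h2⟩

lemma rat_lists (Q : ℕ) : ∀ P : ℕ, 0 < P → P < Q →
    (∃ l : List ℕ, (∀ a ∈ l, 1 ≤ a) ∧ cf l 0 = (P:ℝ) / Q ∧ Odd l.length) ∧
    (∃ l : List ℕ, (∀ a ∈ l, 1 ≤ a) ∧ cf l 0 = (P:ℝ) / Q ∧ Even l.length) := by
  induction Q using Nat.strong_induction_on with
  | _ Q ih =>
    intro P hP hPQ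
    have hdm : P * (Q / P) + Q % P = Q := Nat.div_add_mod Q P
    have hc : 1 ≤ Q / P := Nat.div_pos hPQ.le hP
    have hR : Q % P < P := Nat.mod_lt _ hP
    have hPr : (0:ℝ) < P := by exact_mod_cast hP
    have hQr : (0:ℝ) < Q := by exact_mod_cast (lt_trans hP hPQ)
    set c := Q / P with hcdef
    set R := Q % P with hRdef
    have hdmr : (P:ℝ) * c + R = Q := by exact_mod_cast hdm
    rcases Nat.eq_zero_or_pos R with hR0 | hRpos
    · have hQc : Q = P * c := by omega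
      have hc2 : 2 ≤ c := by
        by_contra h
        have : c = 1 := by omega
        rw [this] at hQc; omega
      have hcr : (0:ℝ) < c := by exact_mod_cast (by omega : 0 < c)
      have hval : (P:ℝ) / Q = 1 / c := by
        rw [hQc]; push_cast; field_simp
      constructor
      · refine ⟨[c], by simp; omega, ?_, by simp⟩
        simp [cf, hval]
      · refine ⟨[c - 1, 1], by simp; omega, ?_, by simp⟩
        have : ((c - 1 : ℕ) : ℝ) = c - 1 := by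
          rw [Nat.cast_sub (by omega)]; simp
        simp [cf, hval, this]
    · obtain ⟨⟨l1, a1, b1, o1⟩, ⟨l2, a2, b2, o2⟩⟩ := ih P hPQ R hRpos hR
      have hval : (P:ℝ) / Q = 1 / (c + R / P) := by
        rw [← hdmr]
        field_simp
      constructor
      · refine ⟨c :: l2, ?_, ?_, ?_⟩
        · intro a ha
          rcases List.mem_cons.mp ha with rfl | ha
          · exact hc
          · exact a2 a ha
        · simp only [cf]; rw [b2, hval]
        · rw [List.length_cons]; exact o2.add_one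
      · refine ⟨c :: l1, ?_, ?_, ?_⟩
        · intro a ha
          rcases List.mem_cons.mp ha with rfl | ha
          · exact hc
          · exact a1 a ha
        · simp only [cf]; rw [b1, hval]
        · rw [List.length_cons]; exact o1.add_one

lemma rat_list_odd (Q P : ℕ) (hP : 0 < P) (hPQ : P ≤ Q) :
    ∃ l : List ℕ, (∀ a ∈ l, 1 ≤ a) ∧ cf l 0 = (P:ℝ) / Q ∧ Odd l.length := by
  rcases hPQ.lt_or_eq with h | h
  · exact (rat_lists Q P hP h).1
  · refine ⟨[1], by simp, ?_, by simp⟩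
    have hPr : (P:ℝ) ≠ 0 := by exact_mod_cast hP.ne'
    rw [← h]
    simp [cf, hPr]

/-- States in the rational case. -/
structure StR (x : ℝ) (K : ℕ) where
  l1 : List ℕ
  l2 : List ℕ
  p : ℤ
  p' : ℤ
  q : ℤ
  q' : ℤ
  r : ℤ
  r' : ℤ
  s : ℤ
  s' : ℤ
  e : ℝ
  c1 : Cv l1 p p' q q' e
  c2 : Cv l2 r r' s s' (-e)
  h1 : q = K * s
  h2 : s' = K * q'
  hx : x - p / q - r / s = 0

lemma ratStep {x : ℝ} {K : ℕ} (hK : 1 ≤ K) {l1 l2 : List ℕ} {p p' q q' r r' s s' : ℤ} {e : ℝ}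
    (c1 : Cv l1 p p' q q' e) (c2 : Cv l2 r r' s s' (-e)) (h1 : q = K * s) (h2 : s' = K * q')
    (hx : x - p / q - r / s = 0) (c : ℕ) (hc : 1 ≤ c) :
    ∃ P P' Q Q' R R' S S' : ℤ, Cv (l1 ++ [c]) P P' Q Q' (-e) ∧
      Cv (l2 ++ [K ^ 2 * c]) R R' S S' e ∧ S = K * Q ∧ Q' = K * S' ∧ x - R / S - P / Q = 0 := by
  have hKc : 1 ≤ K ^ 2 * c := Nat.mul_pos (pow_pos hK 2) hc
  have g1 := c1.snoc c hc
  have g2 := c2.snoc (K ^ 2 * c) hKc
  rw [neg_neg] at g2
  have d1 := c1.next_diff c hc (x - p / q - r / s)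
  have d2 := c2.next_diff (K ^ 2 * c) hKc (x - ((c * p + p' : ℤ) : ℝ) / ((c * q + q' : ℤ) : ℝ) - r / s)
  refine ⟨_, _, _, _, _, _, _, _, g1, g2, ?_, ?_, ?_⟩
  · rw [h1, h2]; push_cast; ring
  · exact h1
  · have hq : (1:ℝ) ≤ q := by exact_mod_cast c1.hq
    have hq' : (0:ℝ) ≤ q' := by exact_mod_cast c1.hq'
    have hs : (1:ℝ) ≤ s := by exact_mod_cast c2.hq
    have hs' : (0:ℝ) ≤ s' := by exact_mod_cast c2.hq'
    have hcr : (1:ℝ) ≤ c := by exact_mod_cast hc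
    have hKr : (1:ℝ) ≤ K := by exact_mod_cast hK
    have hd1 : (0:ℝ) < c * q + q' := by positivity
    have hd2 : (0:ℝ) < (K ^ 2 * c : ℕ) * s + s' := by
      push_cast; positivity
    have e1 : (q:ℝ) * (c * q + q') = s * ((K ^ 2 * c : ℕ) * s + s') := by
      have h1r : (q:ℝ) = K * s := by exact_mod_cast h1
      have h2r : (s':ℝ) = K * q' := by exact_mod_cast h2
      rw [h2r, h1r]; push_cast; ring
    have : x - (((K ^ 2 * c : ℕ) * r + r' : ℤ) : ℝ) / (((K ^ 2 * c : ℕ) * s + s' : ℤ) : ℝ) -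
        ((c * p + p' : ℤ) : ℝ) / ((c * q + q' : ℤ) : ℝ) = 0 := by
      have : x - (((K ^ 2 * c : ℕ) * r + r' : ℤ) : ℝ) / (((K ^ 2 * c : ℕ) * s + s' : ℤ) : ℝ) -
        ((c * p + p' : ℤ) : ℝ) / ((c * q + q' : ℤ) : ℝ) =
        (x - p / q - r / s) - e / (q * (c * q + q')) - (-e) / (s * ((K ^ 2 * c : ℕ) * s + s')) := by
        linarith
      rw [this, hx, ← e1]; ring
    exact this

lemma StR.next {x : ℝ} {K : ℕ} (hK : 1 ≤ K) (N : ℕ) (σ : StR x K) :
    ∃ τ : StR x K, τ.l1 = σ.l1 ++ [N + 1, K ^ 2 * (N + 1)] ∧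
      τ.l2 = σ.l2 ++ [K ^ 2 * (N + 1), N + 1] := by
  obtain ⟨l1, l2, p, p', q, q', r, r', s, s', e, c1, c2, h1, h2, hx⟩ := σ
  obtain ⟨P, P', Q, Q', R, R', S, S', g1, g2, g3, g4, g5⟩ :=
    ratStep hK c1 c2 h1 h2 hx (N + 1) (by omega)
  obtain ⟨A, A', B, B', C, C', D, D', f1, f2, f3, f4, f5⟩ :=
    ratStep hK g2 g1 g3 g4 g5 (N + 1) (by omega)
  refine ⟨⟨(l1 ++ [N + 1]) ++ [K ^ 2 * (N + 1)], (l2 ++ [K ^ 2 * (N + 1)]) ++ [N + 1],
    C, C', D, D', A, A', B, B', e, f2, f1, f3, f4, f5⟩, by simp, by simp⟩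

/-- The rational case. -/
theorem rational_case (P Q : ℕ) (hP : 0 < P) (hPQ : P ≤ Q) :
    ∃ g₁ g₂ : ℝ, g₁ ∈ Ioo (0:ℝ) 1 ∧ g₂ ∈ Ioo (0:ℝ) 1 ∧
      Tendsto (fun n : ℕ => ⌊1 / (gm^[n] g₁)⌋) atTop atTop ∧
      Tendsto (fun n : ℕ => ⌊1 / (gm^[n] g₂)⌋) atTop atTop ∧ (P:ℝ) / Q = g₁ + g₂ := by
  classical
  obtain ⟨l, hl, hval, hodd⟩ := rat_list_odd Q P hP hPQ
  obtain ⟨p, p', q, q', c⟩ := exists_Cv l hl
  rw [hodd.neg_one_pow] at c
  have hform := c.form 0 le_rfl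
  rw [hval] at hform
  simp only [mul_zero, add_zero] at hform
  set x : ℝ := (P:ℝ) / Q with hx
  have hq := c.hq
  have hq' := c.hq'
  have hqr : (1:ℝ) ≤ q := by exact_mod_cast hq
  have hqr' : (0:ℝ) ≤ q' := by exact_mod_cast hq'
  obtain ⟨K, hK⟩ : ∃ K : ℕ, (K:ℤ) = q := ⟨q.toNat, Int.toNat_of_nonneg (by linarith)⟩
  have hK1 : 1 ≤ K := by
    have : (1:ℤ) ≤ K := by rw [hK]; exact hq
    exact_mod_cast this
  obtain ⟨M, hM⟩ : ∃ M : ℕ, (M:ℤ) = q' := ⟨q'.toNat, Int.toNat_of_nonneg hq'⟩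
  have c2 := c.snoc 1 le_rfl
  rw [neg_neg] at c2
  have hA : 1 ≤ K * (K + M) := Nat.mul_pos hK1 (by omega)
  have c1 := Cv.nil.snoc (K * (K + M)) hA
  have c2' : Cv (l ++ [1]) (p + p') p (q + q') q (-(-1)) := by
    rw [neg_neg]
    simpa using c2
  have c1' : Cv [K * (K + M)] 1 0 (q * (q + q')) 1 (-1) := by
    have : ((K * (K + M) : ℕ) : ℤ) * 1 + 0 = q * (q + q') := by
      push_cast; rw [hK, hM]; ring
    rw [this] at c1
    simpa using c1
  have hx0 : x - ((1:ℤ):ℝ) / ((q * (q + q') : ℤ) : ℝ) - ((p + p' : ℤ) : ℝ) / ((q + q' : ℤ) : ℝ) = 0 := by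
    rw [hform]
    push_cast
    have hdet := c.det
    have h5 : (0:ℝ) < q + q' := by linarith
    have h6 : (q:ℝ) ≠ 0 := by positivity
    field_simp
    linarith
  let σ0 : StR x K := ⟨[K * (K + M)], l ++ [1], 1, 0, q * (q + q'), 1, p + p', p, q + q', q, -1,
    c1', c2', by rw [hK], by rw [hK, mul_one], hx0⟩
  choose nx e1 e2 using fun (N : ℕ) (σ : StR x K) => StR.next hK1 N σ
  let sq : (N : ℕ) → StR x K := fun N => Nat.rec σ0 (fun N σ => nx N σ) N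
  have hsq : ∀ N, sq (N+1) = nx N (sq N) := fun N => rfl
  refine assemble x (fun N => (sq N).l1) (fun N => (sq N).l2)
    (fun N => [N + 1, K ^ 2 * (N + 1)]) (fun N => [K ^ 2 * (N + 1), N + 1])
    (fun N => (sq N).p) (fun N => (sq N).p') (fun N => (sq N).q)
    (fun N => (sq N).q') (fun N => (sq N).r) (fun N => (sq N).r') (fun N => (sq N).s)
    (fun N => (sq N).s') (fun N => (sq N).e) (fun N => -(sq N).e)
    (fun N => ?_) (fun N => ?_) (fun N => ⟨by simp, ?_⟩) (fun N => ⟨by simp, ?_⟩)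
    (fun N => (sq N).c1) (fun N => (sq N).c2) (fun N => ?_)
  · simp only [hsq, e1]
  · simp only [hsq, e2]
  · intro a ha
    have h7 : N + 1 ≤ K ^ 2 * (N + 1) := Nat.le_mul_of_pos_left _ (pow_pos hK1 2)
    simp only [List.mem_cons, List.not_mem_nil, or_false] at ha
    rcases ha with rfl | rfl <;> omega
  · intro a ha
    have h7 : N + 1 ≤ K ^ 2 * (N + 1) := Nat.le_mul_of_pos_left _ (pow_pos hK1 2)
    simp only [List.mem_cons, List.not_mem_nil, or_false] at ha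
    rcases ha with rfl | rfl <;> omega
  · rw [(sq N).hx, abs_zero]
    have : (1:ℝ) ≤ (sq N).q := by exact_mod_cast (sq N).c1.hq
    positivity

/-- Full statement. -/
theorem main_thm (x : ℝ) (h0 : 0 < x) (h1 : x ≤ 1) :
    ∃ g₁ g₂ : ℝ, g₁ ∈ Ioo (0:ℝ) 1 ∧ g₂ ∈ Ioo (0:ℝ) 1 ∧
      Tendsto (fun n : ℕ => ⌊1 / (gm^[n] g₁)⌋) atTop atTop ∧
      Tendsto (fun n : ℕ => ⌊1 / (gm^[n] g₂)⌋) atTop atTop ∧ x = g₁ + g₂ := by
  by_cases hx : Irrational x
  · exact irrational_case hx h0 (lt_of_le_of_ne h1 (fun h => hx ⟨1, by simp [h]⟩))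
  · unfold Irrational at hx
    push Not at hx
    obtain ⟨y, hy⟩ := hx
    have hy0 : 0 < y := by exact_mod_cast (hy ▸ h0 : (0:ℝ) < (y:ℝ))
    have hy1 : y ≤ 1 := by exact_mod_cast (hy ▸ h1 : (y:ℝ) ≤ 1)
    have hnum : 0 < y.num := Rat.num_pos.mpr hy0
    obtain ⟨P, hP⟩ : ∃ P : ℕ, (P:ℤ) = y.num := ⟨y.num.toNat, Int.toNat_of_nonneg hnum.le⟩
    have hPpos : 0 < P := by
      have : (0:ℤ) < P := by rw [hP]; exact hnum
      exact_mod_cast this
    have hPQ : P ≤ y.den := by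
      have h2 : y.num ≤ y.den := by
        rw [← Rat.num_div_den y] at hy1
        rw [div_le_one (by exact_mod_cast y.den_pos)] at hy1
        exact_mod_cast hy1
      rw [← hP] at h2
      exact_mod_cast h2
    have hxy : x = (P:ℝ) / (y.den : ℕ) := by
      rw [← hy]
      conv_lhs => rw [← Rat.num_div_den y]
      push_cast
      rw [← hP]; push_cast; rfl
    rw [hxy]
    exact rational_case P y.den hPpos hPQ

end Pool.Agent.H6
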