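import Mathlib
import Pool.Prelude.Def_F_09379136

namespace Pool.Agent.H6.NewPrimes

open Finset

theorem card_modEq_le (x q v : ℕ) (hq : 0 < q) :
    (((range x).filter (fun n => n ≡ v [MOD q])).card : ℝ) ≤ x / q + 1 := by
  have h := Nat.count_modEq_card x hq v
  rw [Nat.count_eq_card_filter_range] at h
  rw [h]
  have h1 : ((x / q : ℕ) : ℝ) ≤ (x : ℝ) / q := Nat.cast_div_le
  push_cast
  split_ifs <;> simp <;> linarith

theorem card_modEq_ge (x q v : ℕ) (hq : 0 < q) :
    (x : ℝ) / q - 1 ≤ (((range x).filter (fun n => n ≡ v [MOD q])).card : ℝ) := by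
  have h := Nat.count_modEq_card x hq v
  rw [Nat.count_eq_card_filter_range] at h
  rw [h]
  have h1 : (x : ℝ) / q < ((x / q : ℕ) : ℝ) + 1 := by
    have hq' : (0 : ℝ) < q := by exact_mod_cast hq
    rw [div_lt_iff₀ hq']
    have : x < (x / q + 1) * q := by
      have := Nat.lt_div_mul_add (a := x) hq
      linarith [this]
    exact_mod_cast this
  push_cast
  split_ifs <;> simp <;> linarith

theorem dvd_add_iff (q j n : ℕ) (hq : 0 < q) : q ∣ n + j ↔ n ≡ q * j - j [MOD q] := by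
  have hj : j ≤ q * j := Nat.le_mul_of_pos_left j hq
  constructor
  · intro h
    have h1 : n + j ≡ (q * j - j) + j [MOD q] := by
      rw [Nat.sub_add_cancel hj]
      exact ((Nat.modEq_zero_iff_dvd).2 h).trans
        ((Nat.modEq_zero_iff_dvd).2 (Dvd.intro j rfl)).symm
    exact Nat.ModEq.add_right_cancel' j h1
  · intro h
    have h1 : n + j ≡ (q * j - j) + j [MOD q] := Nat.ModEq.add_right j h
    rw [Nat.sub_add_cancel hj] at h1
    exact (Nat.modEq_zero_iff_dvd).1 (h1.trans ((Nat.modEq_zero_iff_dvd).2 (Dvd.intro j rfl)))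

theorem card_dvd_le (x q j : ℕ) (hq : 0 < q) :
    (((range x).filter (fun n => q ∣ n + j)).card : ℝ) ≤ x / q + 1 := by
  simp only [dvd_add_iff q j _ hq]
  exact card_modEq_le x q _ hq

theorem card_dvd_ge (x q j : ℕ) (hq : 0 < q) :
    (x : ℝ) / q - 1 ≤ (((range x).filter (fun n => q ∣ n + j)).card : ℝ) := by
  simp only [dvd_add_iff q j _ hq]
  exact card_modEq_ge x q _ hq

theorem card_dvd_dvd_le (x q r i j : ℕ) (hq : 0 < q) (hr : 0 < r) (h : Nat.Coprime q r) :
    (((range x).filter (fun n => q ∣ n + i ∧ r ∣ n + j)).card : ℝ) ≤ x / (q * r) + 1 := by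
  obtain ⟨c, hc1, hc2⟩ := Nat.chineseRemainder h (q * i - i) (r * j - j)
  have : ((range x).filter (fun n => q ∣ n + i ∧ r ∣ n + j)) ⊆
      ((range x).filter (fun n => n ≡ c [MOD (q * r)])) := by
    intro n hn
    rw [mem_filter] at hn ⊢
    refine ⟨hn.1, ?_⟩
    rw [dvd_add_iff q i n hq, dvd_add_iff r j n hr] at hn
    exact (Nat.modEq_and_modEq_iff_modEq_mul h).1
      ⟨hn.2.1.trans hc1.symm, hn.2.2.trans hc2.symm⟩
  calc (((range x).filter (fun n => q ∣ n + i ∧ r ∣ n + j)).card : ℝ)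
      ≤ (((range x).filter (fun n => n ≡ c [MOD (q * r)])).card : ℝ) := by
        exact_mod_cast card_le_card this
    _ ≤ x / ((q * r : ℕ) : ℝ) + 1 := card_modEq_le x _ c (Nat.mul_pos hq hr)
    _ = x / (q * r) + 1 := by push_cast; ring

end Pool.Agent.H6.NewPrimes
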