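import Mathlib
import Pool.Agent.H6.NPa

namespace Pool.Agent.H6.NewPrimes

open Finset

/-- weight of a pair -/
noncomputable def w (p q : ℕ) : ℝ := if p = q then (1 : ℝ) / p else 1 / (p * q)

/-- least common multiple as a natural number, for primes -/
def lc (p q : ℕ) : ℕ := if p = q then p else p * q

theorem w_eq (p q : ℕ) : w p q = 1 / (lc p q : ℝ) := by
  unfold w lc; split_ifs <;> simp

theorem w_nonneg (p q : ℕ) : 0 ≤ w p q := by
  rw [w_eq]; positivity

section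
variable {M : ℕ} (B : Fin M → Finset ℕ) (y : ℕ)

/-- sum of reciprocals -/
noncomputable def L (S : Finset ℕ) : ℝ := ∑ p ∈ S, (1 : ℝ) / p

theorem sum_w_le (S : Finset ℕ) : ∑ p ∈ S, ∑ q ∈ S, w p q ≤ L S + L S ^ 2 := by
  have h1 : ∀ p ∈ S, ∑ q ∈ S, w p q ≤ 1 / (p:ℝ) + (1 / (p:ℝ)) * L S := by
    intro p hp
    rw [← Finset.add_sum_erase S _ hp]
    have e1 : w p p = 1 / (p:ℝ) := by simp [w]
    rw [e1]
    have e2 : ∑ q ∈ S.erase p, w p q ≤ (1 / (p:ℝ)) * L S := by
      unfold L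
      rw [Finset.mul_sum]
      calc ∑ q ∈ S.erase p, w p q = ∑ q ∈ S.erase p, (1 / (p:ℝ)) * (1 / (q:ℝ)) := by
            apply Finset.sum_congr rfl
            intro q hq
            have : p ≠ q := fun h => (Finset.ne_of_mem_erase hq) h.symm
            simp only [w, if_neg this]
            rw [one_div_mul_one_div]
        _ ≤ ∑ q ∈ S, (1 / (p:ℝ)) * (1 / (q:ℝ)) := by
            apply Finset.sum_le_sum_of_subset_of_nonneg (Finset.erase_subset _ _)
            intros; positivity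
    linarith
  calc ∑ p ∈ S, ∑ q ∈ S, w p q ≤ ∑ p ∈ S, (1 / (p:ℝ) + (1 / (p:ℝ)) * L S) :=
        Finset.sum_le_sum h1
    _ = L S + L S ^ 2 := by
        rw [Finset.sum_add_distrib, ← Finset.sum_mul]
        unfold L; ring

variable {B y}

theorem prod_pos (hB : ∀ i, ∀ p ∈ B i, p.Prime ∧ y < p) {f : Fin M → ℕ}
    (hf : f ∈ Fintype.piFinset B) : 0 < ∏ i, f i := by
  apply Finset.prod_pos
  intro i _
  exact ((hB i _ (Fintype.mem_piFinset.1 hf i)).1).pos

theorem coprime_of_ne (hB : ∀ i, ∀ p ∈ B i, p.Prime ∧ y < p)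
    (hd : ∀ i j, i ≠ j → Disjoint (B i) (B j)) {f g : Fin M → ℕ}
    (hf : f ∈ Fintype.piFinset B) (hg : g ∈ Fintype.piFinset B) {i j : Fin M}
    (h : i ≠ j) : Nat.Coprime (f i) (g j) := by
  rw [Nat.coprime_primes (hB i _ (Fintype.mem_piFinset.1 hf i)).1
    (hB j _ (Fintype.mem_piFinset.1 hg j)).1]
  intro hfg
  have h1 := Fintype.mem_piFinset.1 hf i
  have h2 := Fintype.mem_piFinset.1 hg j
  rw [← hfg] at h2
  exact (Finset.disjoint_left.1 (hd i j h)) h1 h2

theorem coprime_prod (hB : ∀ i, ∀ p ∈ B i, p.Prime ∧ y < p)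
    (hd : ∀ i j, i ≠ j → Disjoint (B i) (B j)) {f g : Fin M → ℕ}
    (hf : f ∈ Fintype.piFinset B) (hg : g ∈ Fintype.piFinset B)
    (h : ∀ i, f i ≠ g i) : Nat.Coprime (∏ i, f i) (∏ i, g i) := by
  apply Nat.Coprime.prod_left
  intro i _
  apply Nat.Coprime.prod_right
  intro j _
  by_cases hij : i = j
  · subst hij
    rw [Nat.coprime_primes (hB i _ (Fintype.mem_piFinset.1 hf i)).1
      (hB i _ (Fintype.mem_piFinset.1 hg i)).1]
    exact h i
  · exact coprime_of_ne hB hd hf hg hij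

theorem lc_prod_dvd (hB : ∀ i, ∀ p ∈ B i, p.Prime ∧ y < p)
    (hd : ∀ i j, i ≠ j → Disjoint (B i) (B j)) {f g : Fin M → ℕ}
    (hf : f ∈ Fintype.piFinset B) (hg : g ∈ Fintype.piFinset B) {m : ℕ}
    (h1 : ∏ i, f i ∣ m) (h2 : ∏ i, g i ∣ m) : ∏ i, lc (f i) (g i) ∣ m := by
  apply Finset.prod_dvd_of_isRelPrime
  · intro i _ j _ hij
    show IsRelPrime _ _
    rw [← Nat.coprime_iff_isRelPrime]
    have c1 := coprime_of_ne hB hd hf hf hij
    have c2 := coprime_of_ne hB hd hf hg hij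
    have c3 := coprime_of_ne hB hd hg hf hij
    have c4 := coprime_of_ne hB hd hg hg hij
    show Nat.Coprime (lc (f i) (g i)) (lc (f j) (g j))
    unfold lc
    split_ifs
    · exact c1
    · exact Nat.Coprime.mul_right c1 c2
    · exact Nat.Coprime.mul_left c1 c3
    · exact Nat.Coprime.mul_left (Nat.Coprime.mul_right c1 c2) (Nat.Coprime.mul_right c3 c4)
  · intro i _
    have d1 : f i ∣ m := (Finset.dvd_prod_of_mem f (mem_univ i)).trans h1
    have d2 : g i ∣ m := (Finset.dvd_prod_of_mem g (mem_univ i)).trans h2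
    unfold lc
    split_ifs with h
    · exact d1
    · apply Nat.Coprime.mul_dvd_of_dvd_of_dvd _ d1 d2
      rw [Nat.coprime_primes (hB i _ (Fintype.mem_piFinset.1 hf i)).1
        (hB i _ (Fintype.mem_piFinset.1 hg i)).1]
      exact h

theorem lc_pos (hB : ∀ i, ∀ p ∈ B i, p.Prime ∧ y < p) {f g : Fin M → ℕ}
    (hf : f ∈ Fintype.piFinset B) (hg : g ∈ Fintype.piFinset B) :
    0 < ∏ i, lc (f i) (g i) := by
  apply Finset.prod_pos
  intro i _
  have h1 := ((hB i _ (Fintype.mem_piFinset.1 hf i)).1).pos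
  have h2 := ((hB i _ (Fintype.mem_piFinset.1 hg i)).1).pos
  unfold lc
  split_ifs
  · exact h1
  · exact Nat.mul_pos h1 h2

/-- pair correlation -/
noncomputable def Dc (x y a b : ℕ) : ℝ :=
  ∑ i ∈ range y, ∑ j ∈ range y,
    (((range x).filter (fun n => a ∣ n + i ∧ b ∣ n + j)).card : ℝ)

theorem Dc_le (hB : ∀ i, ∀ p ∈ B i, p.Prime ∧ y < p)
    (hd : ∀ i j, i ≠ j → Disjoint (B i) (B j)) (x : ℕ) {f g : Fin M → ℕ}
    (hf : f ∈ Fintype.piFinset B) (hg : g ∈ Fintype.piFinset B) :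
    Dc x y (∏ i, f i) (∏ i, g i) ≤
      (y : ℝ) ^ 2 * x * ((∏ i, (1 : ℝ) / (f i : ℝ)) * (∏ i, (1 : ℝ) / (g i : ℝ)))
       + y * x * (∏ i, w (f i) (g i)) + ((y : ℝ) ^ 2 + y) := by
  have hy0 : (0 : ℝ) ≤ y := Nat.cast_nonneg _
  have hx0 : (0 : ℝ) ≤ x := Nat.cast_nonneg _
  have hw : 0 ≤ ∏ i, w (f i) (g i) := Finset.prod_nonneg (fun i _ => w_nonneg _ _)
  have hp : 0 ≤ (∏ i, (1 : ℝ) / (f i : ℝ)) * (∏ i, (1 : ℝ) / (g i : ℝ)) := by positivity
  by_cases h : ∀ i, f i ≠ g i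
  · have hc := coprime_prod hB hd hf hg h
    have h1 : Dc x y (∏ i, f i) (∏ i, g i) ≤ ∑ i ∈ range y, ∑ j ∈ range y,
        ((x : ℝ) / (((∏ i, f i : ℕ) : ℝ) * ((∏ i, g i : ℕ) : ℝ)) + 1) := by
      unfold Dc
      apply Finset.sum_le_sum; intro i _
      apply Finset.sum_le_sum; intro j _
      exact card_dvd_dvd_le x _ _ i j (prod_pos hB hf) (prod_pos hB hg) hc
    have h2 : ∑ i ∈ range y, ∑ j ∈ range y,
        ((x : ℝ) / (((∏ i, f i : ℕ) : ℝ) * ((∏ i, g i : ℕ) : ℝ)) + 1) =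
        (y : ℝ) ^ 2 * x * ((∏ i, (1 : ℝ) / (f i : ℝ)) * (∏ i, (1 : ℝ) / (g i : ℝ)))
          + (y : ℝ) ^ 2 := by
      simp only [Finset.sum_const, card_range, nsmul_eq_mul]
      push_cast
      simp only [Finset.prod_div_distrib, Finset.prod_const_one]
      ring
    have : 0 ≤ y * x * (∏ i, w (f i) (g i)) := by positivity
    linarith
  · push Not at h
    obtain ⟨i0, hi0⟩ := h
    have h1 : ∀ i ∈ range y, ∀ j ∈ range y, i ≠ j →
        (((range x).filter (fun n => (∏ i, f i) ∣ n + i ∧ (∏ i, g i) ∣ n + j)).card : ℝ) = 0 := by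
      intro i hi j hj hij
      rw [mem_range] at hi hj
      have : ((range x).filter (fun n => (∏ i, f i) ∣ n + i ∧ (∏ i, g i) ∣ n + j)) = ∅ := by
        apply Finset.filter_eq_empty_iff.2
        intro n _ hn
        have hyp := (hB i0 _ (Fintype.mem_piFinset.1 hf i0)).2
        have d1 : f i0 ∣ n + i := (Finset.dvd_prod_of_mem f (mem_univ i0)).trans hn.1
        have d2 : f i0 ∣ n + j := by
          rw [hi0]; exact (Finset.dvd_prod_of_mem g (mem_univ i0)).trans hn.2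
        rcases lt_or_gt_of_ne hij with hlt | hlt
        · have := (Nat.dvd_sub d2 d1)
          have h3 : n + j - (n + i) = j - i := by omega
          rw [h3] at this
          have := Nat.le_of_dvd (by omega) this
          omega
        · have := (Nat.dvd_sub d1 d2)
          have h3 : n + i - (n + j) = i - j := by omega
          rw [h3] at this
          have := Nat.le_of_dvd (by omega) this
          omega
      rw [this]; simp
    have h2 : Dc x y (∏ i, f i) (∏ i, g i) ≤ ∑ i ∈ range y, ((x : ℝ) * (∏ i, w (f i) (g i)) + 1) := by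
      unfold Dc
      apply Finset.sum_le_sum
      intro i hi
      rw [Finset.sum_eq_single_of_mem i hi (fun j hj hji => h1 i hi j hj (fun h => hji h.symm))]
      have h3 : ((range x).filter (fun n => (∏ i, f i) ∣ n + i ∧ (∏ i, g i) ∣ n + i)) ⊆
          ((range x).filter (fun n => (∏ i, lc (f i) (g i)) ∣ n + i)) := by
        intro n hn
        rw [mem_filter] at hn ⊢
        exact ⟨hn.1, lc_prod_dvd hB hd hf hg hn.2.1 hn.2.2⟩
      calc (((range x).filter (fun n => (∏ i, f i) ∣ n + i ∧ (∏ i, g i) ∣ n + i)).card : ℝ)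
          ≤ (((range x).filter (fun n => (∏ i, lc (f i) (g i)) ∣ n + i)).card : ℝ) := by
            exact_mod_cast card_le_card h3
        _ ≤ (x : ℝ) / ((∏ i, lc (f i) (g i) : ℕ) : ℝ) + 1 := card_dvd_le x _ i (lc_pos hB hf hg)
        _ = (x : ℝ) * (∏ i, w (f i) (g i)) + 1 := by
            simp only [w_eq, Finset.prod_div_distrib, Finset.prod_const_one]
            push_cast
            ring
    have h4 : ∑ i ∈ range y, ((x : ℝ) * (∏ i, w (f i) (g i)) + 1) =
        y * x * (∏ i, w (f i) (g i)) + y := by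
      simp only [Finset.sum_const, card_range, nsmul_eq_mul]
      ring
    have h5 : 0 ≤ (y : ℝ) ^ 2 * x * ((∏ i, (1 : ℝ) / (f i : ℝ)) * (∏ i, (1 : ℝ) / (g i : ℝ))) := by
      positivity
    have h6 : 0 ≤ (y : ℝ) ^ 2 := by positivity
    linarith

end

end Pool.Agent.H6.NewPrimes
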