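import Mathlib
import Pool.Agent.H6.NPb

namespace Pool.Agent.H6.NewPrimes

open Finset

section
variable {M : ℕ} {B : Fin M → Finset ℕ} {y : ℕ}

/-- number of hits -/
noncomputable def N (B : Fin M → Finset ℕ) (y n : ℕ) : ℝ :=
  ∑ f ∈ Fintype.piFinset B, ∑ j ∈ range y, if (∏ i, f i) ∣ n + j then (1 : ℝ) else 0

theorem sum_N_ge (hB : ∀ i, ∀ p ∈ B i, p.Prime ∧ y < p) (x : ℕ) :
    (y : ℝ) * x * (∏ i, L (B i)) - y * (∏ i, ((B i).card : ℝ)) ≤ ∑ n ∈ range x, N B y n := by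
  have h1 : ∑ n ∈ range x, N B y n = ∑ f ∈ Fintype.piFinset B, ∑ j ∈ range y,
      (((range x).filter (fun n => (∏ i, f i) ∣ n + j)).card : ℝ) := by
    unfold N
    rw [Finset.sum_comm]
    apply Finset.sum_congr rfl; intro f _
    rw [Finset.sum_comm]
    apply Finset.sum_congr rfl; intro j _
    rw [Finset.card_filter]
    push_cast
    rfl
  rw [h1]
  have h2 : ∑ f ∈ Fintype.piFinset B, ∑ j ∈ range y, ((x : ℝ) / ((∏ i, f i : ℕ) : ℝ) - 1) ≤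
      ∑ f ∈ Fintype.piFinset B, ∑ j ∈ range y,
      (((range x).filter (fun n => (∏ i, f i) ∣ n + j)).card : ℝ) := by
    apply Finset.sum_le_sum; intro f hf
    apply Finset.sum_le_sum; intro j _
    exact card_dvd_ge x _ j (prod_pos hB hf)
  refine le_trans (le_of_eq ?_) h2
  have h3 : (∏ i, L (B i)) = ∑ f ∈ Fintype.piFinset B, ∏ i, (1 : ℝ) / (f i : ℝ) := by
    unfold L
    rw [Finset.prod_univ_sum]
  have h4 : (∏ i, ((B i).card : ℝ)) = ((Fintype.piFinset B).card : ℝ) := by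
    rw [Fintype.card_piFinset]; push_cast; rfl
  rw [h3, h4]
  simp only [Finset.sum_const, card_range, nsmul_eq_mul]
  rw [Finset.mul_sum]
  have h5 : (y : ℝ) * ((Fintype.piFinset B).card : ℝ) = ∑ f ∈ Fintype.piFinset B, (y : ℝ) := by
    simp [mul_comm]
  rw [h5, ← Finset.sum_sub_distrib]
  apply Finset.sum_congr rfl; intro f _
  push_cast
  simp only [Finset.prod_div_distrib, Finset.prod_const_one]
  ring

theorem sum_N_sq_le (hB : ∀ i, ∀ p ∈ B i, p.Prime ∧ y < p)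
    (hd : ∀ i j, i ≠ j → Disjoint (B i) (B j)) (x : ℕ) :
    ∑ n ∈ range x, (N B y n) ^ 2 ≤ (y : ℝ) ^ 2 * x * (∏ i, L (B i)) ^ 2 +
      y * x * (∏ i, (L (B i) + L (B i) ^ 2)) + ((y : ℝ) ^ 2 + y) * (∏ i, ((B i).card : ℝ)) ^ 2 := by
  have h1 : ∑ n ∈ range x, (N B y n) ^ 2 = ∑ f ∈ Fintype.piFinset B, ∑ g ∈ Fintype.piFinset B,
      Dc x y (∏ i, f i) (∏ i, g i) := by
    unfold N Dc
    have : ∀ n ∈ range x, (∑ f ∈ Fintype.piFinset B, ∑ j ∈ range y,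
        if (∏ i, f i) ∣ n + j then (1 : ℝ) else 0) ^ 2 =
        ∑ f ∈ Fintype.piFinset B, ∑ g ∈ Fintype.piFinset B, ∑ i ∈ range y, ∑ j ∈ range y,
          if ((∏ k, f k) ∣ n + i ∧ (∏ k, g k) ∣ n + j) then (1 : ℝ) else 0 := by
      intro n _
      rw [sq, Finset.sum_mul_sum]
      apply Finset.sum_congr rfl; intro f _
      apply Finset.sum_congr rfl; intro g _
      rw [Finset.sum_mul_sum]
      apply Finset.sum_congr rfl; intro i _
      apply Finset.sum_congr rfl; intro j _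
      by_cases h1 : (∏ k, f k) ∣ n + i <;> by_cases h2 : (∏ k, g k) ∣ n + j <;> simp [h1, h2]
    rw [Finset.sum_congr rfl this, Finset.sum_comm]
    apply Finset.sum_congr rfl; intro f _
    rw [Finset.sum_comm]
    apply Finset.sum_congr rfl; intro g _
    rw [Finset.sum_comm]
    apply Finset.sum_congr rfl; intro i _
    rw [Finset.sum_comm]
    apply Finset.sum_congr rfl; intro j _
    rw [Finset.card_filter]
    push_cast
    rfl
  rw [h1]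
  have h2 : ∑ f ∈ Fintype.piFinset B, ∑ g ∈ Fintype.piFinset B,
      Dc x y (∏ i, f i) (∏ i, g i) ≤ ∑ f ∈ Fintype.piFinset B, ∑ g ∈ Fintype.piFinset B,
      ((y : ℝ) ^ 2 * x * ((∏ i, (1 : ℝ) / (f i : ℝ)) * (∏ i, (1 : ℝ) / (g i : ℝ)))
       + y * x * (∏ i, w (f i) (g i)) + ((y : ℝ) ^ 2 + y)) := by
    apply Finset.sum_le_sum; intro f hf
    apply Finset.sum_le_sum; intro g hg
    exact Dc_le hB hd x hf hg
  refine h2.trans ?_
  have h3 : (∏ i, L (B i)) = ∑ f ∈ Fintype.piFinset B, ∏ i, (1 : ℝ) / (f i : ℝ) := by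
    unfold L
    rw [Finset.prod_univ_sum]
  have h4 : (∏ i, ((B i).card : ℝ)) = ((Fintype.piFinset B).card : ℝ) := by
    rw [Fintype.card_piFinset]; push_cast; rfl
  have h5 : ∑ f ∈ Fintype.piFinset B, ∑ g ∈ Fintype.piFinset B, (∏ i, w (f i) (g i)) ≤
      ∏ i, (L (B i) + L (B i) ^ 2) := by
    have e1 : ∀ f : Fin M → ℕ, ∑ g ∈ Fintype.piFinset B, (∏ i, w (f i) (g i)) =
        ∏ i, ∑ q ∈ B i, w (f i) q := by
      intro f
      rw [Finset.prod_univ_sum]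
    have e2 : ∑ f ∈ Fintype.piFinset B, ∏ i, ∑ q ∈ B i, w (f i) q =
        ∏ i, ∑ p ∈ B i, ∑ q ∈ B i, w p q := by
      rw [Finset.prod_univ_sum]
    rw [Finset.sum_congr rfl (fun f _ => e1 f), e2]
    apply Finset.prod_le_prod
    · intro i _
      exact Finset.sum_nonneg (fun p _ => Finset.sum_nonneg (fun q _ => w_nonneg p q))
    · intro i _
      exact sum_w_le (B i)
  have h6 : ∑ f ∈ Fintype.piFinset B, ∑ g ∈ Fintype.piFinset B,
      ((∏ i, (1 : ℝ) / (f i : ℝ)) * (∏ i, (1 : ℝ) / (g i : ℝ))) = (∏ i, L (B i)) ^ 2 := by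
    rw [h3, sq, Finset.sum_mul_sum]
  have h7 : ∑ f ∈ Fintype.piFinset B, ∑ g ∈ Fintype.piFinset B, ((y : ℝ) ^ 2 + y) =
      ((y : ℝ) ^ 2 + y) * (∏ i, ((B i).card : ℝ)) ^ 2 := by
    rw [h4]
    simp only [Finset.sum_const, nsmul_eq_mul]
    ring
  have h8 : ∑ f ∈ Fintype.piFinset B, ∑ g ∈ Fintype.piFinset B,
      ((y : ℝ) ^ 2 * x * ((∏ i, (1 : ℝ) / (f i : ℝ)) * (∏ i, (1 : ℝ) / (g i : ℝ)))
       + y * x * (∏ i, w (f i) (g i)) + ((y : ℝ) ^ 2 + y)) =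
       (y : ℝ) ^ 2 * x * (∑ f ∈ Fintype.piFinset B, ∑ g ∈ Fintype.piFinset B,
      ((∏ i, (1 : ℝ) / (f i : ℝ)) * (∏ i, (1 : ℝ) / (g i : ℝ)))) +
      y * x * (∑ f ∈ Fintype.piFinset B, ∑ g ∈ Fintype.piFinset B, (∏ i, w (f i) (g i))) +
      ∑ f ∈ Fintype.piFinset B, ∑ g ∈ Fintype.piFinset B, ((y : ℝ) ^ 2 + y) := by
    simp only [Finset.sum_add_distrib, Finset.mul_sum]
  rw [h8, h6, h7]
  have h9 : (y : ℝ) * x * (∑ f ∈ Fintype.piFinset B, ∑ g ∈ Fintype.piFinset B, (∏ i, w (f i) (g i)))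
      ≤ y * x * (∏ i, (L (B i) + L (B i) ^ 2)) := by
    apply mul_le_mul_of_nonneg_left h5
    positivity
  linarith

/-- the integers below `x` without a hit -/
def Ex (B : Fin M → Finset ℕ) (y x : ℕ) : Finset ℕ :=
  (range x).filter (fun n => ∀ f ∈ Fintype.piFinset B, ∀ j ∈ range y, ¬ (∏ i, f i) ∣ n + j)

/-- purely numerical part -/
theorem numeric_part (E S C W x y Q T1 T2 : ℝ) (hS : 0 < S) (hC : 0 ≤ C) (hy : 1 ≤ y)
    (h1 : E * (y * S) ^ 2 ≤ T2 - 2 * (y * S) * T1 + x * (y * S) ^ 2)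
    (h3 : y * x * S - y * C ≤ T1)
    (h4 : T2 ≤ y ^ 2 * x * S ^ 2 + y * x * W + (y ^ 2 + y) * C ^ 2)
    (h6 : C / S ≤ Q) : E ≤ x / y * (W / S ^ 2) + 2 * Q ^ 2 + 2 * Q := by
  have hy0 : 0 < y := by linarith
  have hQ0 : 0 ≤ C / S := div_nonneg hC hS.le
  have h5 : E * (y * S) ^ 2 ≤ y * x * W + (y ^ 2 + y) * C ^ 2 + 2 * (y * S) * (y * C) := by
    have hyS : 0 ≤ 2 * (y * S) := by positivity
    have := mul_le_mul_of_nonneg_left h3 hyS
    nlinarith [h1, h4, this]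
  have hyS2 : 0 < (y * S) ^ 2 := by positivity
  have h8 : E ≤ (y * x * W + (y ^ 2 + y) * C ^ 2 + 2 * (y * S) * (y * C)) / (y * S) ^ 2 := by
    rw [le_div_iff₀ hyS2]; exact h5
  have h9 : (y * x * W + (y ^ 2 + y) * C ^ 2 + 2 * (y * S) * (y * C)) / (y * S) ^ 2 =
      x / y * (W / S ^ 2) + (1 + 1 / y) * (C / S) ^ 2 + 2 * (C / S) := by
    field_simp
  rw [h9] at h8
  have h10 : (1 + 1 / y) * (C / S) ^ 2 ≤ 2 * Q ^ 2 := by
    have a1 : 1 + 1 / y ≤ 2 := by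
      have : 1 / y ≤ 1 := by rw [div_le_one hy0]; exact hy
      linarith
    have a2 : (C / S) ^ 2 ≤ Q ^ 2 := pow_le_pow_left₀ hQ0 h6 2
    have a3 : 0 ≤ (C / S) ^ 2 := sq_nonneg _
    calc (1 + 1 / y) * (C / S) ^ 2 ≤ 2 * (C / S) ^ 2 :=
          mul_le_mul_of_nonneg_right a1 a3
      _ ≤ 2 * Q ^ 2 := by linarith
  linarith

theorem main_ineq (hB : ∀ i, ∀ p ∈ B i, p.Prime ∧ y < p)
    (hd : ∀ i j, i ≠ j → Disjoint (B i) (B j)) (x : ℕ) (hy : 0 < y)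
    (hL : ∀ i, 0 < L (B i)) (Q : ℝ) (hQ : ∏ i, (((B i).card : ℝ) / L (B i)) ≤ Q) :
    ((Ex B y x).card : ℝ) ≤ x / y * (∏ i, (1 + 1 / L (B i))) + 2 * Q ^ 2 + 2 * Q := by
  have hSpos : 0 < ∏ i, L (B i) := Finset.prod_pos (fun i _ => hL i)
  have hy1 : (1 : ℝ) ≤ y := by exact_mod_cast hy
  have hCnn : 0 ≤ ∏ i, ((B i).card : ℝ) := Finset.prod_nonneg (fun i _ => Nat.cast_nonneg _)
  have h1 : ((Ex B y x).card : ℝ) * (y * ∏ i, L (B i)) ^ 2 ≤
      ∑ n ∈ range x, (N B y n - y * ∏ i, L (B i)) ^ 2 := by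
    have e1 : ((Ex B y x).card : ℝ) * (y * ∏ i, L (B i)) ^ 2 =
        ∑ n ∈ Ex B y x, (N B y n - y * ∏ i, L (B i)) ^ 2 := by
      rw [Finset.sum_congr rfl (g := fun _ => (y * ∏ i, L (B i)) ^ 2)]
      · rw [Finset.sum_const, nsmul_eq_mul]
      · intro n hn
        have : N B y n = 0 := by
          unfold N
          apply Finset.sum_eq_zero; intro f hf
          apply Finset.sum_eq_zero; intro j hj
          rw [if_neg ((mem_filter.1 hn).2 f hf j hj)]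
        rw [this]; ring
    rw [e1]
    apply Finset.sum_le_sum_of_subset_of_nonneg (Finset.filter_subset _ _)
    intro n _ _
    exact sq_nonneg _
  have h2 : ∑ n ∈ range x, (N B y n - y * ∏ i, L (B i)) ^ 2 = ∑ n ∈ range x, (N B y n) ^ 2
      - 2 * (y * ∏ i, L (B i)) * ∑ n ∈ range x, N B y n + x * (y * ∏ i, L (B i)) ^ 2 := by
    have : ∀ n ∈ range x, (N B y n - y * ∏ i, L (B i)) ^ 2 =
        (N B y n) ^ 2 - 2 * (y * ∏ i, L (B i)) * N B y n + (y * ∏ i, L (B i)) ^ 2 := by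
      intro n _; ring
    rw [Finset.sum_congr rfl this, Finset.sum_add_distrib, Finset.sum_sub_distrib,
      ← Finset.mul_sum, Finset.sum_const, card_range, nsmul_eq_mul]
  have h6 : (∏ i, ((B i).card : ℝ)) / (∏ i, L (B i)) ≤ Q := by
    rw [← Finset.prod_div_distrib]; exact hQ
  have h7 : (∏ i, (L (B i) + L (B i) ^ 2)) / (∏ i, L (B i)) ^ 2 = ∏ i, (1 + 1 / L (B i)) := by
    rw [← Finset.prod_pow, ← Finset.prod_div_distrib]
    apply Finset.prod_congr rfl; intro i _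
    have := (hL i).ne'
    field_simp
    ring
  rw [h2] at h1
  have := numeric_part _ _ _ _ _ _ Q _ _ hSpos hCnn hy1 h1 (sum_N_ge hB x) (sum_N_sq_le hB hd x) h6
  rw [h7] at this
  exact this

end

end Pool.Agent.H6.NewPrimes
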