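import Mathlib
import Pool.Agent.H6.NPc

namespace Pool.Agent.H6.NewPrimes

open Finset Filter Asymptotics
open scoped Chebyshev

/-- the primes in `(z, 4z]` -/
def block (z : ℕ) : Finset ℕ := (Ioc z (4 * z)).filter Nat.Prime

theorem sum_log_block (z : ℕ) :
    ∑ p ∈ block z, Real.log p = θ (4 * z : ℕ) - θ (z : ℕ) := by
  unfold Chebyshev.theta block
  rw [Nat.floor_natCast, Nat.floor_natCast]
  have h : (Ioc 0 (4 * z)).filter Nat.Prime =
      ((Ioc 0 z).filter Nat.Prime) ∪ ((Ioc z (4 * z)).filter Nat.Prime) := by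
    rw [← Finset.filter_union, Finset.Ioc_union_Ioc_eq_Ioc (Nat.zero_le _) (by omega)]
  rw [h, Finset.sum_union]
  · ring
  · rw [Finset.disjoint_left]
    intro p hp hq
    simp only [mem_filter, mem_Ioc] at hp hq
    omega

theorem eventually_block : ∃ Z : ℕ, 2 ≤ Z ∧ ∀ z : ℕ, Z ≤ z →
    (z : ℝ) ≤ ∑ p ∈ block z, Real.log p := by
  have h1 : ∀ᶠ x : ℝ in atTop, Real.log x ≤ (1 / 100) * x ^ (1 / 2 : ℝ) := by
    have := (isLittleO_log_rpow_atTop (show (0:ℝ) < 1 / 2 by norm_num)).def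
      (show (0:ℝ) < 1 / 100 by norm_num)
    filter_upwards [this, eventually_ge_atTop (1:ℝ)] with x hx hx1
    rw [Real.norm_of_nonneg (Real.log_nonneg hx1),
      Real.norm_of_nonneg (by positivity)] at hx
    exact hx
  obtain ⟨X, hX⟩ := eventually_atTop.1 h1
  refine ⟨max 100 (⌈X⌉₊), le_trans (by norm_num) (le_max_left _ _), ?_⟩
  intro z hz
  have hz1 : 100 ≤ z := (le_max_left _ _).trans hz
  have hz2 : X ≤ z := (Nat.le_ceil X).trans (by exact_mod_cast (le_max_right _ _).trans hz)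
  have hz1' : (100 : ℝ) ≤ z := by exact_mod_cast hz1
  rw [sum_log_block]
  have h2 := Chebyshev.theta_ge (4 * z)
  have h3 := Chebyshev.theta_le_log4_mul_x (x := (z : ℝ)) (by positivity)
  have h4 := hX (4 * z) (by linarith)
  have h5 := hX (4 * z + 1) (by linarith)
  rw [← Real.sqrt_eq_rpow] at h4 h5
  have h6 : √(4 * (z : ℝ)) = 2 * √z := by
    rw [Real.sqrt_mul (by norm_num), show (4:ℝ) = 2 ^ 2 by norm_num,
      Real.sqrt_sq (by norm_num)]
  have h7 : √(4 * (z : ℝ) + 1) ≤ 4 * z + 1 := by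
    rw [Real.sqrt_le_left (by positivity)]
    nlinarith
  have h8 : √(z : ℝ) * √z = z := Real.mul_self_sqrt (by positivity)
  have h9 : (0.69 : ℝ) < Real.log 2 := by have := Real.log_two_gt_d9; linarith
  have h10 : Real.log 4 = 2 * Real.log 2 := by
    rw [show (4:ℝ) = 2 ^ 2 by norm_num, Real.log_pow]; norm_num
  push_cast at h2 ⊢
  rw [h6] at h2 h4
  rw [h10] at h3
  have hs : 0 ≤ √(z : ℝ) := Real.sqrt_nonneg _
  have h11 : 2 * (2 * √(z : ℝ)) * Real.log (4 * z) ≤ 2 * (2 * √(z : ℝ)) * (1 / 100 * (2 * √z)) :=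
    mul_le_mul_of_nonneg_left h4 (by positivity)
  have h12 : 2 * (2 * √(z : ℝ)) * (1 / 100 * (2 * √z)) = 8 / 100 * z := by
    calc 2 * (2 * √(z : ℝ)) * (1 / 100 * (2 * √z)) = 8 / 100 * (√(z : ℝ) * √z) := by ring
      _ = 8 / 100 * z := by rw [h8]
  nlinarith [h2, h3, h5, h7, h9, h11, h12]

theorem L_block_ge (z : ℕ) (hz : 2 ≤ z) (h : (z : ℝ) ≤ ∑ p ∈ block z, Real.log p) :
    1 / (4 * Real.log (4 * z)) ≤ L (block z) := by
  have hz' : (2 : ℝ) ≤ z := by exact_mod_cast hz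
  have hl : 0 < Real.log (4 * z) := Real.log_pos (by linarith)
  have h1 : ∑ p ∈ block z, Real.log p ≤ ∑ p ∈ block z, (4 * z * Real.log (4 * z)) * (1 / (p:ℝ)) := by
    apply Finset.sum_le_sum
    intro p hp
    simp only [block, mem_filter, mem_Ioc] at hp
    have hp0 : (0 : ℝ) < p := by exact_mod_cast (by omega : 0 < p)
    have hp1 : (p : ℝ) ≤ 4 * z := by exact_mod_cast hp.1.2
    have e1 : Real.log p ≤ Real.log (4 * z) := Real.log_le_log hp0 hp1
    have e2 : 1 ≤ 4 * z * (1 / (p:ℝ)) := by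
      rw [mul_one_div, le_div_iff₀ hp0]; linarith
    calc Real.log p ≤ 1 * Real.log (4 * z) := by linarith
      _ ≤ (4 * z * (1 / (p:ℝ))) * Real.log (4 * z) := mul_le_mul_of_nonneg_right e2 hl.le
      _ = _ := by ring
  rw [← Finset.mul_sum] at h1
  have h2 := h.trans h1
  unfold L
  rw [div_le_iff₀ (by positivity)]
  have h3 : (z : ℝ) * 1 ≤ z * ((∑ p ∈ block z, 1 / (p:ℝ)) * (4 * Real.log (4 * z))) := by
    linarith [h2]
  exact le_of_mul_le_mul_left h3 (by linarith)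

theorem card_block_div (z : ℕ) (hL : 0 < L (block z)) :
    ((block z).card : ℝ) / L (block z) ≤ 4 * z := by
  rw [div_le_iff₀ hL]
  unfold L
  rw [Finset.mul_sum, Finset.card_eq_sum_ones]
  push_cast
  apply Finset.sum_le_sum
  intro p hp
  simp only [block, mem_filter, mem_Ioc] at hp
  have hp0 : (0 : ℝ) < p := by exact_mod_cast (by omega : 0 < p)
  have hp1 : (p : ℝ) ≤ 4 * z := by exact_mod_cast hp.1.2
  rw [mul_one_div, le_div_iff₀ hp0]
  linarith

/-- the family of blocks -/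
def Bl (M y : ℕ) : Fin M → Finset ℕ := fun i => block (4 ^ (i : ℕ) * y)

theorem Bl_prime (M y : ℕ) (i : Fin M) (p : ℕ) (hp : p ∈ Bl M y i) : p.Prime ∧ y < p := by
  simp only [Bl, block, mem_filter, mem_Ioc] at hp
  refine ⟨hp.2, lt_of_le_of_lt ?_ hp.1.1⟩
  exact Nat.le_mul_of_pos_left y (by positivity)

theorem Bl_disjoint (M y : ℕ) (i j : Fin M) (h : i ≠ j) : Disjoint (Bl M y i) (Bl M y j) := by
  rw [Finset.disjoint_left]
  intro p hp hq
  simp only [Bl, block, mem_filter, mem_Ioc] at hp hq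
  rcases lt_or_gt_of_ne h with hlt | hlt
  · have h1 : 4 ^ ((i : ℕ) + 1) * y ≤ 4 ^ (j : ℕ) * y :=
      Nat.mul_le_mul_right _ (Nat.pow_le_pow_right (by norm_num) hlt)
    rw [pow_succ] at h1
    have h2 : 4 * (4 ^ (i : ℕ) * y) = 4 ^ (i : ℕ) * 4 * y := by ring
    omega
  · have h1 : 4 ^ ((j : ℕ) + 1) * y ≤ 4 ^ (i : ℕ) * y :=
      Nat.mul_le_mul_right _ (Nat.pow_le_pow_right (by norm_num) hlt)
    rw [pow_succ] at h1
    have h2 : 4 * (4 ^ (j : ℕ) * y) = 4 ^ (j : ℕ) * 4 * y := by ring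
    omega

open N129f076f in
theorem v_ge {M : ℕ} {B : Fin M → Finset ℕ} {y : ℕ} (hB : ∀ i, ∀ p ∈ B i, p.Prime ∧ y < p)
    (hd : ∀ i j, i ≠ j → Disjoint (B i) (B j)) {n j : ℕ} (hn : n ≠ 0) (hj : j < y)
    {f : Fin M → ℕ} (hf : f ∈ Fintype.piFinset B) (h : ∏ i, f i ∣ n + j) :
    M ≤ v n j := by
  have hinj : Function.Injective f := by
    intro a b hab
    by_contra hne
    have := coprime_of_ne hB hd hf hf hne
    rw [hab, Nat.coprime_self] at this
    exact ((hB b _ (Fintype.mem_piFinset.1 hf b)).1).one_lt.ne' this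
  have h1 : (univ.image f) ⊆ ((n + j).primeFactors.filter (fun p => ∀ i ∈ range j, ¬ p ∣ n + i)) := by
    intro p hp
    obtain ⟨i, _, rfl⟩ := mem_image.1 hp
    have hpi := hB i _ (Fintype.mem_piFinset.1 hf i)
    have hdv : f i ∣ n + j := (Finset.dvd_prod_of_mem f (mem_univ i)).trans h
    rw [mem_filter, Nat.mem_primeFactors]
    refine ⟨⟨hpi.1, hdv, by omega⟩, ?_⟩
    intro k hk hk2
    rw [mem_range] at hk
    have h3 := Nat.dvd_sub hdv hk2
    have h4 : n + j - (n + k) = j - k := by omega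
    rw [h4] at h3
    have := Nat.le_of_dvd (by omega) h3
    omega
  have h2 := card_le_card h1
  rw [Finset.card_image_of_injective _ hinj, Finset.card_univ, Fintype.card_fin] at h2
  exact h2

open N129f076f in
theorem bad_subset (M y x : ℕ) :
    ((range x).filter (fun n => v₀ n < (M : ℕ∞))) ⊆ insert 0 (Ex (Bl M y) y x) := by
  intro n hn
  rw [mem_filter] at hn
  rw [mem_insert]
  by_cases h0 : n = 0
  · exact Or.inl h0
  · refine Or.inr ?_
    unfold Ex
    rw [mem_filter]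
    refine ⟨hn.1, ?_⟩
    intro f hf j hj hdv
    have := v_ge (Bl_prime M y) (Bl_disjoint M y) h0 (mem_range.1 hj) hf hdv
    have h2 : ((v n j : ℕ) : ℕ∞) ≤ v₀ n := le_iSup (fun k => ((v n k : ℕ) : ℕ∞)) j
    have h3 : (M : ℕ∞) ≤ v₀ n := le_trans (by exact_mod_cast this) h2
    exact absurd hn.2 (not_lt.2 h3)

/-- explicit bound -/
theorem explicit_bound : ∃ Z : ℕ, 2 ≤ Z ∧ ∀ M y x : ℕ, Z ≤ y →
    ((((range x).filter (fun n => N129f076f.v₀ n < (M : ℕ∞))).card : ℕ) : ℝ) ≤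
      x / y * (1 + 4 * Real.log (4 ^ M * y)) ^ M + 4 * ((4 : ℝ) ^ (M ^ 2) * y ^ M) ^ 2 + 1 := by
  obtain ⟨Z, hZ2, hZ⟩ := eventually_block
  refine ⟨Z, hZ2, ?_⟩
  intro M y x hy
  have hy2 : 2 ≤ y := hZ2.trans hy
  have hy2' : (2 : ℝ) ≤ y := by exact_mod_cast hy2
  have hz : ∀ i : Fin M, Z ≤ 4 ^ (i : ℕ) * y := fun i =>
    hy.trans (Nat.le_mul_of_pos_left y (by positivity))
  have hLge : ∀ i : Fin M, 1 / (4 * Real.log (4 * ((4 ^ (i : ℕ) * y : ℕ) : ℝ))) ≤ L (Bl M y i) :=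
    fun i => L_block_ge _ (hZ2.trans (hz i)) (hZ _ (hz i))
  have hlogle : ∀ i : Fin M, Real.log (4 * ((4 ^ (i : ℕ) * y : ℕ) : ℝ)) ≤ Real.log (4 ^ M * y) := by
    intro i
    apply Real.log_le_log
    · push_cast; positivity
    · push_cast
      have : (4 : ℝ) ^ ((i : ℕ) + 1) ≤ 4 ^ M := pow_le_pow_right₀ (by norm_num) i.2
      calc (4 : ℝ) * (4 ^ (i : ℕ) * y) = 4 ^ ((i : ℕ) + 1) * y := by ring
        _ ≤ 4 ^ M * y := mul_le_mul_of_nonneg_right this (by positivity)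
  have hlogpos : ∀ i : Fin M, 0 < Real.log (4 * ((4 ^ (i : ℕ) * y : ℕ) : ℝ)) := by
    intro i
    apply Real.log_pos
    have : (1 : ℝ) ≤ ((4 ^ (i : ℕ) * y : ℕ) : ℝ) := by
      exact_mod_cast (by have := hz i; omega : 1 ≤ 4 ^ (i : ℕ) * y)
    linarith
  have hLpos : ∀ i : Fin M, 0 < L (Bl M y i) := fun i =>
    lt_of_lt_of_le (by have := hlogpos i; positivity) (hLge i)
  have hLinv : ∀ i : Fin M, 1 / L (Bl M y i) ≤ 4 * Real.log (4 ^ M * y) := by
    intro i
    have h1 := hlogpos i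
    have h2 := hLge i
    calc 1 / L (Bl M y i) ≤ 1 / (1 / (4 * Real.log (4 * ((4 ^ (i : ℕ) * y : ℕ) : ℝ)))) :=
          one_div_le_one_div_of_le (by positivity) h2
      _ = 4 * Real.log (4 * ((4 ^ (i : ℕ) * y : ℕ) : ℝ)) := by rw [one_div_one_div]
      _ ≤ 4 * Real.log (4 ^ M * y) := by linarith [hlogle i]
  have hcard : ∏ i, (((Bl M y i).card : ℝ) / L (Bl M y i)) ≤ (4 : ℝ) ^ (M ^ 2) * y ^ M := by
    calc ∏ i, (((Bl M y i).card : ℝ) / L (Bl M y i)) ≤ ∏ i : Fin M, ((4 : ℝ) ^ M * y) := by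
          apply Finset.prod_le_prod
          · intro i _
            exact div_nonneg (Nat.cast_nonneg _) (hLpos i).le
          · intro i _
            refine (card_block_div _ (hLpos i)).trans ?_
            push_cast
            have : (4 : ℝ) ^ ((i : ℕ) + 1) ≤ 4 ^ M := pow_le_pow_right₀ (by norm_num) i.2
            calc (4 : ℝ) * (4 ^ (i : ℕ) * y) = 4 ^ ((i : ℕ) + 1) * y := by ring
              _ ≤ 4 ^ M * y := mul_le_mul_of_nonneg_right this (by positivity)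
      _ = (4 : ℝ) ^ (M ^ 2) * y ^ M := by
          rw [Finset.prod_const, Finset.card_univ, Fintype.card_fin, mul_pow, ← pow_mul, sq]
  have hmain := main_ineq (Bl_prime M y) (Bl_disjoint M y) x (by omega) hLpos _ hcard
  have hprod : ∏ i, (1 + 1 / L (Bl M y i)) ≤ (1 + 4 * Real.log (4 ^ M * y)) ^ M := by
    calc ∏ i, (1 + 1 / L (Bl M y i)) ≤ ∏ i : Fin M, (1 + 4 * Real.log (4 ^ M * y)) := by
          apply Finset.prod_le_prod
          · intro i _
            have := hLpos i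
            positivity
          · intro i _
            linarith [hLinv i]
      _ = _ := by rw [Finset.prod_const, Finset.card_univ, Fintype.card_fin]
  have hQ1 : 1 ≤ (4 : ℝ) ^ (M ^ 2) * y ^ M :=
    one_le_mul_of_one_le_of_one_le (one_le_pow₀ (by norm_num)) (one_le_pow₀ (by linarith))
  have hbad : ((((range x).filter (fun n => N129f076f.v₀ n < (M : ℕ∞))).card : ℕ) : ℝ) ≤
      ((Ex (Bl M y) y x).card : ℝ) + 1 := by
    have := (card_le_card (bad_subset M y x)).trans (card_insert_le _ _)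
    exact_mod_cast this
  have hx0 : (0 : ℝ) ≤ x / y := by positivity
  have h1 : x / y * (∏ i, (1 + 1 / L (Bl M y i))) ≤
      (x : ℝ) / y * (1 + 4 * Real.log (4 ^ M * y)) ^ M := mul_le_mul_of_nonneg_left hprod hx0
  have h2 : 2 * ((4 : ℝ) ^ (M ^ 2) * y ^ M) ≤ 2 * ((4 : ℝ) ^ (M ^ 2) * y ^ M) ^ 2 := by
    have := le_self_pow₀ hQ1 (two_ne_zero)
    linarith
  linarith

end Pool.Agent.H6.NewPrimes
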