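import Mathlib
import Pool.Agent.H6.NPd

namespace Pool.Agent.H6.NewPrimes

open Finset Filter Asymptotics

/-- eventually in `x`, the number of `n < x` with `v₀ n < M` is at most `x ^ (1-1/(2M+1)+ε)` -/
theorem power_saving_eventually (M : ℕ) (ε : ℝ) (hε : 0 < ε) :
    ∀ᶠ x : ℕ in atTop, ((((range x).filter (fun n => N129f076f.v₀ n < (M : ℕ∞))).card : ℕ) : ℝ) ≤
      (x : ℝ) ^ (1 - 1 / (2 * (M : ℝ) + 1) + ε) := by
  obtain ⟨Z, hZ2, hZ⟩ := explicit_bound
  set a : ℝ := 1 / (2 * (M : ℝ) + 1) with ha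
  have ha0 : 0 < a := by positivity
  have ha1 : a ≤ 1 := by
    rw [ha, div_le_one (by positivity)]
    have : (0:ℝ) ≤ M := Nat.cast_nonneg _
    linarith
  -- asymptotic facts
  have t1 : Tendsto (fun x : ℕ => (x : ℝ) ^ a) atTop atTop :=
    (tendsto_rpow_atTop ha0).comp tendsto_natCast_atTop_atTop
  have e1 : ∀ᶠ x : ℕ in atTop, ((Z : ℝ) + 2) ≤ (x : ℝ) ^ a := t1.eventually_ge_atTop _
  -- log bound: (1 + 4 log (4^M x))^M ≤ (1/6) x^ε
  have e2 : ∀ᶠ x : ℕ in atTop, 1 + 4 * Real.log (4 ^ M * x) ≤ (1/6 : ℝ) * (x : ℝ) ^ (ε / (M + 1)) := by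
    have hδ : 0 < ε / ((M : ℝ) + 1) := by positivity
    have l1 : (fun x : ℝ => Real.log x) =o[atTop] fun x : ℝ => x ^ (ε / ((M : ℝ) + 1)) :=
      isLittleO_log_rpow_atTop hδ
    have l2 : ∀ᶠ x : ℝ in atTop, Real.log x ≤ (1 / 48) * x ^ (ε / ((M : ℝ) + 1)) := by
      filter_upwards [l1.def (show (0:ℝ) < 1 / 48 by norm_num), eventually_ge_atTop (1:ℝ)]
        with x hx hx1
      rw [Real.norm_of_nonneg (Real.log_nonneg hx1),
        Real.norm_of_nonneg (by positivity)] at hx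
      exact hx
    have l3 : ∀ᶠ x : ℝ in atTop, 1 + 4 * Real.log (4 ^ M) ≤ (1 / 12) * x ^ (ε / ((M : ℝ) + 1)) :=
      ((tendsto_rpow_atTop hδ).const_mul_atTop (show (0:ℝ) < 1 / 12 by norm_num)).eventually_ge_atTop _
    have l4 : ∀ᶠ x : ℝ in atTop, 1 + 4 * Real.log (4 ^ M * x) ≤ (1/6 : ℝ) * x ^ (ε / ((M : ℝ) + 1)) := by
      filter_upwards [l2, l3, eventually_ge_atTop (1:ℝ)] with x h2 h3 h1
      rw [Real.log_mul (by positivity) (by positivity)]
      linarith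
    exact tendsto_natCast_atTop_atTop.eventually l4
  have e3 : ∀ᶠ x : ℕ in atTop, (4 : ℝ) * ((4 : ℝ) ^ (M ^ 2)) ^ 2 ≤ (1/3 : ℝ) * (x : ℝ) ^ ε := by
    have := ((tendsto_rpow_atTop hε).const_mul_atTop (show (0:ℝ) < 1 / 3 by norm_num)).eventually_ge_atTop
      ((4 : ℝ) * ((4 : ℝ) ^ (M ^ 2)) ^ 2)
    exact tendsto_natCast_atTop_atTop.eventually this
  have e4 : ∀ᶠ x : ℕ in atTop, (1 : ℝ) ≤ (1/3 : ℝ) * (x : ℝ) ^ ε := by
    have := ((tendsto_rpow_atTop hε).const_mul_atTop (show (0:ℝ) < 1 / 3 by norm_num)).eventually_ge_atTop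
      (1 : ℝ)
    exact tendsto_natCast_atTop_atTop.eventually this
  filter_upwards [e1, e2, e3, e4, eventually_ge_atTop 1] with x h1 h2 h3 h4 hx1
  have hx1' : (1 : ℝ) ≤ x := by exact_mod_cast hx1
  have hx0 : (0 : ℝ) < x := by linarith
  set y : ℕ := ⌊(x : ℝ) ^ a⌋₊ with hy
  have hyle : (y : ℝ) ≤ (x : ℝ) ^ a := Nat.floor_le (by positivity)
  have hyge : (x : ℝ) ^ a - 1 < y := Nat.sub_one_lt_floor _
  have hyZ : Z ≤ y := by
    have : (Z : ℝ) ≤ y := by linarith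
    exact_mod_cast this
  have hy2 : (2 : ℝ) ≤ y := by exact_mod_cast hZ2.trans hyZ
  have hyhalf : (x : ℝ) ^ a ≤ 2 * y := by linarith
  have hyx : (y : ℝ) ≤ x := hyle.trans (by
    calc (x : ℝ) ^ a ≤ (x : ℝ) ^ (1 : ℝ) := Real.rpow_le_rpow_of_exponent_le hx1' ha1
      _ = x := Real.rpow_one _)
  have hmain := hZ M y x hyZ
  -- first term
  have f1 : (x : ℝ) / y ≤ 2 * (x : ℝ) ^ (1 - a) := by
    rw [div_le_iff₀ (by linarith)]
    have : (x : ℝ) = (x : ℝ) ^ (1 - a) * (x : ℝ) ^ a := by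
      rw [← Real.rpow_add hx0]; simp
    calc (x : ℝ) = (x : ℝ) ^ (1 - a) * (x : ℝ) ^ a := this
      _ ≤ (x : ℝ) ^ (1 - a) * (2 * y) := mul_le_mul_of_nonneg_left hyhalf (by positivity)
      _ = _ := by ring
  have f2 : (1 + 4 * Real.log (4 ^ M * y)) ^ M ≤ (1 / 6 : ℝ) * (x : ℝ) ^ ε ∨ M = 0 := by
    rcases Nat.eq_zero_or_pos M with hM | hM
    · exact Or.inr hM
    · left
      have hlog0 : 0 ≤ Real.log (4 ^ M * y) := by
        apply Real.log_nonneg
        exact one_le_mul_of_one_le_of_one_le (one_le_pow₀ (by norm_num)) (by linarith)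
      have g1 : Real.log (4 ^ M * y) ≤ Real.log (4 ^ M * x) :=
        Real.log_le_log (by positivity) (mul_le_mul_of_nonneg_left hyx (by positivity))
      have g2 : 1 + 4 * Real.log (4 ^ M * y) ≤ (1/6 : ℝ) * (x : ℝ) ^ (ε / (M + 1)) := by linarith
      calc (1 + 4 * Real.log (4 ^ M * y)) ^ M ≤ ((1/6 : ℝ) * (x : ℝ) ^ (ε / (M + 1))) ^ M :=
            pow_le_pow_left₀ (by positivity) g2 M
        _ = (1/6 : ℝ) ^ M * ((x : ℝ) ^ (ε / (M + 1))) ^ M := mul_pow _ _ _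
        _ ≤ (1/6 : ℝ) * (x : ℝ) ^ ε := by
            apply mul_le_mul
            · calc (1/6 : ℝ) ^ M ≤ (1/6 : ℝ) ^ 1 :=
                  pow_le_pow_of_le_one (by norm_num) (by norm_num) hM
                _ = 1 / 6 := pow_one _
            · rw [← Real.rpow_natCast, ← Real.rpow_mul hx0.le]
              apply Real.rpow_le_rpow_of_exponent_le hx1'
              rw [div_mul_eq_mul_div, div_le_iff₀ (by positivity)]
              nlinarith
            · positivity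
            · norm_num
  rcases f2 with f2 | f2
  · have s1 : (x : ℝ) / y * (1 + 4 * Real.log (4 ^ M * y)) ^ M ≤
        (1 / 3 : ℝ) * (x : ℝ) ^ (1 - a + ε) := by
      have hnn : 0 ≤ (x : ℝ) / y := by positivity
      calc (x : ℝ) / y * (1 + 4 * Real.log (4 ^ M * y)) ^ M ≤ (x : ℝ) / y * ((1 / 6 : ℝ) * (x : ℝ) ^ ε) :=
            mul_le_mul_of_nonneg_left f2 hnn
        _ ≤ (2 * (x : ℝ) ^ (1 - a)) * ((1 / 6 : ℝ) * (x : ℝ) ^ ε) :=
            mul_le_mul_of_nonneg_right f1 (by positivity)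
        _ = (1 / 3 : ℝ) * ((x : ℝ) ^ (1 - a) * (x : ℝ) ^ ε) := by ring
        _ = _ := by rw [← Real.rpow_add hx0]
    have s2 : 4 * ((4 : ℝ) ^ (M ^ 2) * y ^ M) ^ 2 ≤ (1 / 3 : ℝ) * (x : ℝ) ^ (1 - a + ε) := by
      have g1 : ((y : ℝ) ^ M) ^ 2 ≤ (x : ℝ) ^ (1 - a) := by
        rw [← pow_mul]
        calc (y : ℝ) ^ (M * 2) ≤ ((x : ℝ) ^ a) ^ (M * 2) := pow_le_pow_left₀ (by linarith) hyle _
          _ = (x : ℝ) ^ (1 - a) := by
              rw [← Real.rpow_natCast, ← Real.rpow_mul hx0.le]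
              congr 1
              rw [ha]
              have : (2 * (M : ℝ) + 1) ≠ 0 := by positivity
              field_simp
              push_cast
              ring
      calc 4 * ((4 : ℝ) ^ (M ^ 2) * y ^ M) ^ 2 = (4 * ((4 : ℝ) ^ (M ^ 2)) ^ 2) * ((y : ℝ) ^ M) ^ 2 := by
            ring
        _ ≤ ((1/3 : ℝ) * (x : ℝ) ^ ε) * (x : ℝ) ^ (1 - a) :=
            mul_le_mul h3 g1 (by positivity) (by positivity)
        _ = (1 / 3 : ℝ) * ((x : ℝ) ^ (1 - a) * (x : ℝ) ^ ε) := by ring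
        _ = _ := by rw [← Real.rpow_add hx0]
    have s3 : (1 : ℝ) ≤ (1 / 3 : ℝ) * (x : ℝ) ^ (1 - a + ε) := by
      refine h4.trans ?_
      apply mul_le_mul_of_nonneg_left _ (by norm_num)
      apply Real.rpow_le_rpow_of_exponent_le hx1'
      linarith
    linarith
  · have : ((range x).filter (fun n => N129f076f.v₀ n < (M : ℕ∞))) = ∅ := by
      apply Finset.filter_eq_empty_iff.2
      intro n _ hlt
      rw [f2] at hlt
      simp at hlt
    rw [this]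
    simp only [card_empty, Nat.cast_zero]
    positivity

/-- Main theorem: power-saving bound for the exceptional set. -/
theorem power_saving (M : ℕ) (ε : ℝ) (hε : 0 < ε) :
    ∃ C : ℝ, ∀ x : ℕ, 1 ≤ x →
      ((((range x).filter (fun n => N129f076f.v₀ n < (M : ℕ∞))).card : ℕ) : ℝ) ≤
      C * (x : ℝ) ^ (1 - 1 / (2 * (M : ℝ) + 1) + ε) := by
  obtain ⟨X, hX⟩ := eventually_atTop.1 (power_saving_eventually M ε hε)
  refine ⟨(X : ℝ) + 1, ?_⟩
  intro x hx
  have hx1' : (1 : ℝ) ≤ x := by exact_mod_cast hx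
  have hexp : 0 ≤ 1 - 1 / (2 * (M : ℝ) + 1) + ε := by
    have : 1 / (2 * (M : ℝ) + 1) ≤ 1 := by
      rw [div_le_one (by positivity)]
      have : (0:ℝ) ≤ M := Nat.cast_nonneg _
      linarith
    linarith
  have hone : 1 ≤ (x : ℝ) ^ (1 - 1 / (2 * (M : ℝ) + 1) + ε) := Real.one_le_rpow hx1' hexp
  by_cases h : X ≤ x
  · refine (hX x h).trans ?_
    have : (0 : ℝ) ≤ X := Nat.cast_nonneg _
    nlinarith
  · push Not at h
    have h1 : ((((range x).filter (fun n => N129f076f.v₀ n < (M : ℕ∞))).card : ℕ) : ℝ) ≤ x := by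
      have := card_filter_le (range x) (fun n => N129f076f.v₀ n < (M : ℕ∞))
      rw [card_range] at this
      exact_mod_cast this
    have h2 : (x : ℝ) ≤ X := by exact_mod_cast h.le
    have : (0 : ℝ) ≤ X := Nat.cast_nonneg _
    nlinarith

end Pool.Agent.H6.NewPrimes
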