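import Mathlib
import Pool.Agent.H6.NPe

namespace Pool.Agent.H6.NewPrimes

open Finset Filter Asymptotics

/-- sqrt (T / log T) -/
noncomputable def rr (T : ℝ) : ℝ := √(T / Real.log T)
/-- sqrt (T * log T) -/
noncomputable def ss (T : ℝ) : ℝ := √(T * Real.log T)

theorem log_ge_one {T : ℝ} (hT : 16 ≤ T) : 1 ≤ Real.log T := by
  rw [Real.le_log_iff_exp_le (by linarith)]
  have := Real.exp_one_lt_d9
  linarith

theorem rr_mul_ss {T : ℝ} (hT : 16 ≤ T) : rr T * ss T = T := by
  have h1 := log_ge_one hT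
  unfold rr ss
  rw [← Real.sqrt_mul (by positivity)]
  rw [show T / Real.log T * (T * Real.log T) = T * T by field_simp]
  exact Real.sqrt_mul_self (by linarith)

theorem rr_mul_log {T : ℝ} (hT : 16 ≤ T) : rr T * Real.log T = ss T := by
  have h1 := log_ge_one hT
  have h2 : √(Real.log T ^ 2) = Real.log T := Real.sqrt_sq (by linarith)
  unfold rr ss
  calc √(T / Real.log T) * Real.log T = √(T / Real.log T) * √(Real.log T ^ 2) := by rw [h2]
    _ = √(T / Real.log T * Real.log T ^ 2) := (Real.sqrt_mul (by positivity) _).symm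
    _ = √(T * Real.log T) := by congr 1; field_simp

theorem rr_pos {T : ℝ} (hT : 16 ≤ T) : 0 < rr T := by
  have h1 := log_ge_one hT
  unfold rr
  positivity

theorem ss_pos {T : ℝ} (hT : 16 ≤ T) : 0 < ss T := by
  have h1 := log_ge_one hT
  unfold ss
  positivity

theorem one_le_ss {T : ℝ} (hT : 16 ≤ T) : 1 ≤ ss T := by
  have h1 := log_ge_one hT
  unfold ss
  rw [Real.one_le_sqrt]
  nlinarith

theorem rr_le_ss {T : ℝ} (hT : 16 ≤ T) : rr T ≤ ss T := by
  rw [← rr_mul_log hT]
  have := log_ge_one hT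
  have := rr_pos hT
  nlinarith

theorem rr_sq {T : ℝ} (hT : 16 ≤ T) : rr T ^ 2 = T / Real.log T := by
  have h1 := log_ge_one hT
  unfold rr
  rw [Real.sq_sqrt (by positivity)]

theorem tendsto_rr : Tendsto rr atTop atTop := by
  unfold rr
  apply Real.tendsto_sqrt_atTop.comp
  have h : Tendsto (fun x : ℝ => Real.log x / x) atTop (nhdsWithin 0 (Set.Ioi 0)) := by
    rw [tendsto_nhdsWithin_iff]
    constructor
    · have := Real.isLittleO_log_id_atTop.tendsto_div_nhds_zero
      simpa using this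
    · filter_upwards [eventually_gt_atTop (1:ℝ)] with x hx
      have : 0 < Real.log x := Real.log_pos hx
      exact div_pos this (by linarith)
  have := h.inv_tendsto_nhdsGT_zero
  refine this.congr (fun x => ?_)
  simp

theorem tendsto_ss : Tendsto ss atTop atTop := by
  apply tendsto_atTop_mono' atTop _ tendsto_rr
  filter_upwards [eventually_ge_atTop (16:ℝ)] with T hT
  exact rr_le_ss hT

theorem lower_analytic (c : ℝ) (hc0 : 0 < c) (hc1 : c < 1) (Z : ℕ) (hZ2 : 2 ≤ Z) (ε : ℝ) (hε : 0 < ε) :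
    ∀ᶠ T : ℝ in atTop, ∀ M : ℕ, c * rr T ≤ M → (M : ℝ) ≤ c * rr T + 1 →
      ∃ y : ℕ, Z ≤ y ∧ Real.exp T / y * (1 + 4 * Real.log (4 ^ M * y)) ^ M +
        4 * ((4 : ℝ) ^ (M ^ 2) * y ^ M) ^ 2 + 1 ≤ ε * Real.exp T := by
  -- parameters
  set c' : ℝ := (1 + c) / 2 with hc'
  have hcc' : c < c' := by rw [hc']; linarith
  have hc'1 : c' < 1 := by rw [hc']; linarith
  have hc'0 : 0 < c' := by linarith
  have hc'2 : c' ^ 2 < 1 := by nlinarith
  set b : ℝ := (c' ^ 2 + 1) / 4 with hb
  have hb0 : 0 < b := by rw [hb]; positivity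
  have hb1 : c' ^ 2 / 2 < b := by rw [hb]; linarith
  have hb2 : b < 1 / 2 := by rw [hb]; linarith
  set η : ℝ := (b / c' ^ 2 - 1 / 2) / 2 with hη
  have hη0 : 0 < η := by
    have : 1 / 2 < b / c' ^ 2 := by rw [lt_div_iff₀ (by positivity)]; linarith
    rw [hη]; linarith
  set κ : ℝ := b / c' - c' * (1 / 2 + η) with hκ
  have hκ0 : 0 < κ := by
    have h1 : 1 / 2 + η < b / c' ^ 2 := by
      have : 1 / 2 < b / c' ^ 2 := by rw [lt_div_iff₀ (by positivity)]; linarith
      rw [hη]; linarith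
    have h2 : c' * (1 / 2 + η) < c' * (b / c' ^ 2) := mul_lt_mul_of_pos_left h1 hc'0
    have h3 : c' * (b / c' ^ 2) = b / c' := by field_simp
    rw [hκ]; linarith
  set K : ℝ := 7 + 4 * (b / c) with hK
  have hK0 : 0 < K := by rw [hK]; positivity
  have A1 : ∀ᶠ T : ℝ in atTop, 1 / (c' - c) ≤ rr T := tendsto_rr.eventually_ge_atTop _
  have A2 : ∀ᶠ T : ℝ in atTop, K * Real.log T ≤ T ^ η := by
    have := (isLittleO_log_rpow_atTop hη0).def (show (0:ℝ) < 1 / K by positivity)
    filter_upwards [this, eventually_ge_atTop (1:ℝ)] with x hx hx1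
    rw [Real.norm_of_nonneg (Real.log_nonneg hx1), Real.norm_of_nonneg (by positivity)] at hx
    calc K * Real.log x ≤ K * (1 / K * x ^ η) := mul_le_mul_of_nonneg_left hx hK0.le
      _ = x ^ η := by field_simp
  have A3 : ∀ᶠ T : ℝ in atTop, 4 * c' ^ 2 * Real.log 4 / (1 - 2 * b) ≤ Real.log T :=
    Real.tendsto_log_atTop.eventually_ge_atTop _
  have A4 : ∀ᶠ T : ℝ in atTop, (Z : ℝ) + 1 ≤ Real.exp (b / c' * ss T) :=
    (Real.tendsto_exp_atTop.comp (tendsto_ss.const_mul_atTop (by positivity))).eventually_ge_atTop _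
  have A5 : ∀ᶠ T : ℝ in atTop, 6 / ε ≤ Real.exp (κ * ss T) :=
    (Real.tendsto_exp_atTop.comp (tendsto_ss.const_mul_atTop hκ0)).eventually_ge_atTop _
  have A6 : ∀ᶠ T : ℝ in atTop, 12 / ε ≤ Real.exp ((1 - 2 * b) / 2 * T) :=
    (Real.tendsto_exp_atTop.comp (tendsto_id.const_mul_atTop (by linarith))).eventually_ge_atTop _
  have A7 : ∀ᶠ T : ℝ in atTop, 3 / ε ≤ Real.exp T := Real.tendsto_exp_atTop.eventually_ge_atTop _
  filter_upwards [A1, A2, A3, A4, A5, A6, A7, eventually_ge_atTop (16:ℝ)]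
    with T a1 a2 a3 a4 a5 a6 a7 a8
  intro M hM1 hM2
  have hlog := log_ge_one a8
  have hr := rr_pos a8
  have hs := ss_pos a8
  have hs1 := one_le_ss a8
  have hT0 : 0 < T := by linarith
  have hM3 : (M : ℝ) ≤ c' * rr T := by
    have : 1 ≤ (c' - c) * rr T := by
      rw [div_le_iff₀ (by linarith)] at a1; linarith
    linarith
  have hMpos : (0 : ℝ) < M := lt_of_lt_of_le (by positivity) hM1
  have hu1 : b / c' * ss T ≤ b * T / M := by
    rw [le_div_iff₀ hMpos]
    calc b / c' * ss T * M ≤ b / c' * ss T * (c' * rr T) :=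
          mul_le_mul_of_nonneg_left hM3 (by positivity)
      _ = b * (rr T * ss T) := by field_simp
      _ = b * T := by rw [rr_mul_ss a8]
  have hu2 : b * T / M ≤ b / c * ss T := by
    rw [div_le_iff₀ hMpos]
    calc b * T = b * (rr T * ss T) := by rw [rr_mul_ss a8]
      _ = b / c * ss T * (c * rr T) := by field_simp
      _ ≤ b / c * ss T * M := mul_le_mul_of_nonneg_left hM1 (by positivity)
  set u : ℝ := b * T / M with hu
  have hexpu : (Z : ℝ) + 1 ≤ Real.exp u := a4.trans (Real.exp_le_exp.2 hu1)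
  have hZ2' : (2 : ℝ) ≤ Z := by exact_mod_cast hZ2
  set y : ℕ := ⌊Real.exp u⌋₊ with hy
  have hyle : (y : ℝ) ≤ Real.exp u := Nat.floor_le (by positivity)
  have hyge : Real.exp u - 1 < y := Nat.sub_one_lt_floor _
  have hyZ : Z ≤ y := by
    have : (Z : ℝ) ≤ y := by linarith
    exact_mod_cast this
  have hy0 : (0 : ℝ) < y := by linarith
  have hyhalf : Real.exp u ≤ 2 * y := by linarith
  refine ⟨y, hyZ, ?_⟩
  -- the logarithm
  have hlogy : Real.log y ≤ u := by
    calc Real.log y ≤ Real.log (Real.exp u) := Real.log_le_log hy0 hyle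
      _ = u := Real.log_exp u
  have hlog4 : Real.log 4 < 3 / 2 := by
    have h := Real.log_two_lt_d9
    have : Real.log 4 = 2 * Real.log 2 := by
      rw [show (4:ℝ) = 2 ^ 2 by norm_num, Real.log_pow]; norm_num
    linarith
  have hlog4' : 0 < Real.log 4 := Real.log_pos (by norm_num)
  have hrs := rr_le_ss a8
  have hB : 1 + 4 * Real.log (4 ^ M * y) ≤ K * ss T := by
    rw [Real.log_mul (by positivity) hy0.ne', Real.log_pow]
    have h1 : (M : ℝ) * Real.log 4 ≤ 3 / 2 * ss T := by
      calc (M : ℝ) * Real.log 4 ≤ (c' * rr T) * Real.log 4 :=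
            mul_le_mul_of_nonneg_right hM3 hlog4'.le
        _ ≤ (1 * ss T) * (3 / 2) := by
            apply mul_le_mul _ hlog4.le hlog4'.le (by positivity)
            exact mul_le_mul hc'1.le hrs hr.le (by norm_num)
        _ = 3 / 2 * ss T := by ring
    have h2 : K * ss T = 7 * ss T + 4 * (b / c * ss T) := by rw [hK]; ring
    rw [h2]
    linarith
  have hB0 : 0 ≤ 1 + 4 * Real.log (4 ^ M * y) := by
    have : 0 ≤ Real.log (4 ^ M * y) := by
      apply Real.log_nonneg
      exact one_le_mul_of_one_le_of_one_le (one_le_pow₀ (by norm_num)) (by linarith)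
    linarith
  have hsT : K * ss T ≤ T ^ (1 / 2 + η) := by
    have h1 : ss T ≤ T ^ (1/2 : ℝ) * Real.log T := by
      unfold ss
      rw [Real.sqrt_mul hT0.le, Real.sqrt_eq_rpow T]
      apply mul_le_mul_of_nonneg_left _ (by positivity)
      rw [Real.sqrt_le_left (by linarith)]
      nlinarith
    calc K * ss T ≤ K * (T ^ (1/2 : ℝ) * Real.log T) := mul_le_mul_of_nonneg_left h1 hK0.le
      _ = T ^ (1/2 : ℝ) * (K * Real.log T) := by ring
      _ ≤ T ^ (1/2 : ℝ) * T ^ η := mul_le_mul_of_nonneg_left a2 (by positivity)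
      _ = T ^ (1 / 2 + η) := by rw [← Real.rpow_add hT0]
  have hBM : (1 + 4 * Real.log (4 ^ M * y)) ^ M ≤ Real.exp (c' * (1 / 2 + η) * ss T) := by
    calc (1 + 4 * Real.log (4 ^ M * y)) ^ M ≤ (T ^ (1 / 2 + η)) ^ M :=
          pow_le_pow_left₀ hB0 (hB.trans hsT) M
      _ = Real.exp (M * ((1 / 2 + η) * Real.log T)) := by
          rw [Real.rpow_def_of_pos hT0, ← Real.exp_nat_mul]
          congr 1; ring
      _ ≤ Real.exp (c' * (1 / 2 + η) * ss T) := by
          apply Real.exp_le_exp.2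
          rw [← rr_mul_log a8]
          calc (M : ℝ) * ((1 / 2 + η) * Real.log T) ≤ (c' * rr T) * ((1 / 2 + η) * Real.log T) :=
                mul_le_mul_of_nonneg_right hM3 (by positivity)
            _ = _ := by ring
  -- first term
  have F1 : Real.exp T / y * (1 + 4 * Real.log (4 ^ M * y)) ^ M ≤ ε / 3 * Real.exp T := by
    have g1 : 1 / (y : ℝ) ≤ 2 * Real.exp (-(b / c' * ss T)) := by
      rw [Real.exp_neg, div_le_iff₀ hy0]
      have : Real.exp (b / c' * ss T) ≤ 2 * y := (Real.exp_le_exp.2 hu1).trans hyhalf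
      have hpos := Real.exp_pos (b / c' * ss T)
      calc (1 : ℝ) = (Real.exp (b / c' * ss T))⁻¹ * Real.exp (b / c' * ss T) := by
            rw [inv_mul_cancel₀ hpos.ne']
        _ ≤ (Real.exp (b / c' * ss T))⁻¹ * (2 * y) :=
            mul_le_mul_of_nonneg_left this (by positivity)
        _ = _ := by ring
    have g2 : 2 * Real.exp (-(κ * ss T)) ≤ ε / 3 := by
      rw [Real.exp_neg]
      have hpos := Real.exp_pos (κ * ss T)
      rw [div_le_iff₀ hε] at a5
      rw [← div_eq_mul_inv, div_le_iff₀ hpos]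
      linarith
    have hT1 := Real.exp_pos T
    calc Real.exp T / y * (1 + 4 * Real.log (4 ^ M * y)) ^ M
        = Real.exp T * (1 / (y:ℝ)) * (1 + 4 * Real.log (4 ^ M * y)) ^ M := by ring
      _ ≤ Real.exp T * (2 * Real.exp (-(b / c' * ss T))) * Real.exp (c' * (1 / 2 + η) * ss T) := by
          apply mul_le_mul _ hBM (by positivity) (by positivity)
          exact mul_le_mul_of_nonneg_left g1 hT1.le
      _ = (2 * Real.exp (-(κ * ss T))) * Real.exp T := by
          have : Real.exp (-(κ * ss T)) =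
              Real.exp (-(b / c' * ss T)) * Real.exp (c' * (1 / 2 + η) * ss T) := by
            rw [← Real.exp_add]; congr 1; rw [hκ]; ring
          rw [this]; ring
      _ ≤ ε / 3 * Real.exp T := mul_le_mul_of_nonneg_right g2 hT1.le
  -- second term
  have F2 : 4 * ((4 : ℝ) ^ (M ^ 2) * y ^ M) ^ 2 ≤ ε / 3 * Real.exp T := by
    have g1 : (y : ℝ) ^ M ≤ Real.exp (b * T) := by
      calc (y : ℝ) ^ M ≤ (Real.exp u) ^ M := pow_le_pow_left₀ hy0.le hyle M
        _ = Real.exp (M * u) := by rw [← Real.exp_nat_mul]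
        _ = Real.exp (b * T) := by congr 1; rw [hu]; field_simp
    have g2 : (4 : ℝ) ^ (M ^ 2) ≤ Real.exp (c' ^ 2 * Real.log 4 * (T / Real.log T)) := by
      rw [← Real.rpow_natCast, Real.rpow_def_of_pos (by norm_num)]
      apply Real.exp_le_exp.2
      rw [← rr_sq a8]
      push_cast
      have : (M : ℝ) ^ 2 ≤ (c' * rr T) ^ 2 := pow_le_pow_left₀ hMpos.le hM3 2
      calc Real.log 4 * (M : ℝ) ^ 2 ≤ Real.log 4 * (c' * rr T) ^ 2 :=
            mul_le_mul_of_nonneg_left this hlog4'.le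
        _ = _ := by ring
    have g3 : 2 * (c' ^ 2 * Real.log 4 * (T / Real.log T)) ≤ (1 - 2 * b) / 2 * T := by
      rw [div_le_iff₀ (by linarith)] at a3
      have hTl : 0 ≤ T / Real.log T := by positivity
      have k1 := mul_le_mul_of_nonneg_left a3 hTl
      have k2 : T / Real.log T * (Real.log T * (1 - 2 * b)) = T * (1 - 2 * b) := by field_simp
      rw [k2] at k1
      linarith
    calc 4 * ((4 : ℝ) ^ (M ^ 2) * y ^ M) ^ 2 ≤
        4 * (Real.exp (c' ^ 2 * Real.log 4 * (T / Real.log T)) * Real.exp (b * T)) ^ 2 := by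
          apply mul_le_mul_of_nonneg_left _ (by norm_num)
          apply pow_le_pow_left₀ (by positivity)
          exact mul_le_mul g2 g1 (by positivity) (by positivity)
      _ = 4 * Real.exp (2 * (c' ^ 2 * Real.log 4 * (T / Real.log T)) + 2 * b * T) := by
          rw [← Real.exp_add, ← Real.exp_nat_mul]
          congr 2; push_cast; ring
      _ ≤ 4 * Real.exp (-((1 - 2 * b) / 2 * T) + T) := by
          apply mul_le_mul_of_nonneg_left _ (by norm_num)
          apply Real.exp_le_exp.2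
          linarith
      _ = (4 * Real.exp (-((1 - 2 * b) / 2 * T))) * Real.exp T := by
          rw [Real.exp_add]; ring
      _ ≤ ε / 3 * Real.exp T := by
          apply mul_le_mul_of_nonneg_right _ (Real.exp_pos T).le
          rw [Real.exp_neg]
          have hpos := Real.exp_pos ((1 - 2 * b) / 2 * T)
          rw [div_le_iff₀ hε] at a6
          rw [← div_eq_mul_inv, div_le_iff₀ hpos]
          linarith
  have F3 : 1 ≤ ε / 3 * Real.exp T := by
    rw [div_le_iff₀ hε] at a7
    linarith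
  linarith

end Pool.Agent.H6.NewPrimes
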