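import Mathlib
import Pool.Agent.H6.NPf

namespace Pool.Agent.H6.NewPrimes

open Finset Filter Asymptotics
open scoped Chebyshev

/-- sum of reciprocals of the primes up to `N` -/
noncomputable def Hs (N : ℕ) : ℝ := ∑ p ∈ (Ioc 0 N).filter Nat.Prime, (1 : ℝ) / p

theorem Hs_dyadic (K : ℕ) (hK : 1 ≤ K) : Hs (2 ^ (K + 1)) ≤ Hs (2 ^ K) + 4 / K := by
  have hsplit : (Ioc 0 (2 ^ (K + 1))).filter Nat.Prime =
      ((Ioc 0 (2 ^ K)).filter Nat.Prime) ∪ ((Ioc (2 ^ K) (2 ^ (K + 1))).filter Nat.Prime) := by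
    rw [← Finset.filter_union, Finset.Ioc_union_Ioc_eq_Ioc (Nat.zero_le _)
      (Nat.pow_le_pow_right (by norm_num) (by omega))]
  have hdisj : Disjoint ((Ioc 0 (2 ^ K)).filter Nat.Prime)
      ((Ioc (2 ^ K) (2 ^ (K + 1))).filter Nat.Prime) := by
    rw [Finset.disjoint_left]
    intro p hp hq
    simp only [mem_filter, mem_Ioc] at hp hq
    omega
  unfold Hs
  rw [hsplit, Finset.sum_union hdisj]
  have hK' : (0 : ℝ) < K := by exact_mod_cast hK
  have hl2 : 0 < Real.log 2 := Real.log_pos (by norm_num)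
  have h1 : ∑ p ∈ (Ioc (2 ^ K) (2 ^ (K + 1))).filter Nat.Prime, (1 : ℝ) / p ≤
      ∑ p ∈ (Ioc (2 ^ K) (2 ^ (K + 1))).filter Nat.Prime,
        (1 / (2 ^ K * (K * Real.log 2))) * Real.log p := by
    apply Finset.sum_le_sum
    intro p hp
    simp only [mem_filter, mem_Ioc] at hp
    have hp1 : (2 : ℝ) ^ K ≤ p := by exact_mod_cast hp.1.1.le
    have hp0 : (0 : ℝ) < p := lt_of_lt_of_le (by positivity) hp1
    have hlog : K * Real.log 2 ≤ Real.log p := by
      rw [← Real.log_pow]
      exact Real.log_le_log (by positivity) hp1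
    rw [div_mul_eq_mul_div, one_mul, div_le_div_iff₀ hp0 (by positivity), one_mul]
    calc (2 : ℝ) ^ K * (K * Real.log 2) ≤ p * Real.log p :=
          mul_le_mul hp1 hlog (by positivity) hp0.le
      _ = _ := by ring
  have h2 : ∑ p ∈ (Ioc (2 ^ K) (2 ^ (K + 1))).filter Nat.Prime, Real.log p ≤
      Real.log 4 * 2 ^ (K + 1) := by
    have h3 := Chebyshev.theta_le_log4_mul_x (x := ((2 ^ (K + 1) : ℕ) : ℝ)) (by positivity)
    refine le_trans ?_ (h3.trans (le_of_eq (by push_cast; ring)))
    unfold Chebyshev.theta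
    rw [Nat.floor_natCast, hsplit, Finset.sum_union hdisj]
    have : 0 ≤ ∑ p ∈ (Ioc 0 (2 ^ K)).filter Nat.Prime, Real.log p := by
      apply Finset.sum_nonneg
      intro p hp
      simp only [mem_filter, mem_Ioc] at hp
      exact Real.log_nonneg (by exact_mod_cast hp.1.1)
    linarith
  rw [← Finset.mul_sum] at h1
  have h4 : (1 / (2 ^ K * (K * Real.log 2))) * (Real.log 4 * 2 ^ (K + 1)) = 4 / K := by
    have : Real.log 4 = 2 * Real.log 2 := by
      rw [show (4:ℝ) = 2 ^ 2 by norm_num, Real.log_pow]; norm_num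
    rw [this, pow_succ]
    field_simp
    norm_num
  have h5 : (1 / (2 ^ K * (K * Real.log 2))) *
      ∑ p ∈ (Ioc (2 ^ K) (2 ^ (K + 1))).filter Nat.Prime, Real.log p ≤ 4 / K := by
    rw [← h4]
    exact mul_le_mul_of_nonneg_left h2 (by positivity)
  linarith

theorem Hs_two : Hs 2 = 1 / 2 := by
  unfold Hs
  have : (Ioc 0 2).filter Nat.Prime = {2} := by decide
  rw [this]; simp

theorem Hs_pow_le (K : ℕ) (hK : 1 ≤ K) : Hs (2 ^ K) ≤ 1 / 2 + 4 * (1 + Real.log K) := by
  have h1 : Hs (2 ^ K) ≤ 1 / 2 + 4 * ((harmonic (K - 1) : ℚ) : ℝ) := by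
    induction K, hK using Nat.le_induction with
    | base => simp [Hs_two]
    | succ n hn ih =>
      have h2 := Hs_dyadic n hn
      have h3 : ((harmonic (n + 1 - 1) : ℚ) : ℝ) = ((harmonic (n - 1) : ℚ) : ℝ) + 1 / n := by
        have : n + 1 - 1 = (n - 1) + 1 := by omega
        rw [this, harmonic_succ]
        push_cast
        have h4 : (((n - 1 : ℕ) : ℝ)) + 1 = n := by
          rw [Nat.cast_sub hn]; simp
        rw [h4]; simp
      rw [h3]
      have : (4 : ℝ) / n = 4 * (1 / n) := by ring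
      linarith
  have h2 : ((harmonic (K - 1) : ℚ) : ℝ) ≤ 1 + Real.log K := by
    refine (harmonic_le_one_add_log (K - 1)).trans ?_
    rcases Nat.eq_zero_or_pos (K - 1) with h | h
    · rw [h]
      simp only [Nat.cast_zero, Real.log_zero, add_zero]
      have : 0 ≤ Real.log K := Real.log_nonneg (by exact_mod_cast hK)
      linarith
    · have : Real.log ((K - 1 : ℕ) : ℝ) ≤ Real.log K :=
        Real.log_le_log (by exact_mod_cast h) (by exact_mod_cast Nat.sub_le K 1)
      linarith
  linarith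

theorem Hs_mono {a b : ℕ} (h : a ≤ b) : Hs a ≤ Hs b := by
  unfold Hs
  apply Finset.sum_le_sum_of_subset_of_nonneg
  · apply Finset.filter_subset_filter
    exact Finset.Ioc_subset_Ioc_right h
  · intros; positivity

/-- Rankin type bound -/
theorem rankin (X : ℕ) (z : ℝ) (hz : 1 ≤ z) :
    ∑ m ∈ Ico 1 X, z ^ (m.primeFactors.card) ≤ X * Real.exp ((z - 1) * Hs X) := by
  have hz0 : 0 ≤ z - 1 := by linarith
  set P : Finset ℕ := (Ioc 0 X).filter Nat.Prime with hP
  have h1 : ∀ m ∈ Ico 1 X, z ^ (m.primeFactors.card) =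
      ∑ A ∈ P.powerset, if (∏ p ∈ A, p) ∣ m then (z - 1) ^ A.card else 0 := by
    intro m hm
    rw [mem_Ico] at hm
    have e1 := Finset.sum_pow_mul_eq_add_pow (z - 1) 1 m.primeFactors
    rw [sub_add_cancel] at e1
    rw [← e1, ← Finset.sum_filter]
    simp only [one_pow, mul_one]
    apply Finset.sum_congr _ (fun _ _ => rfl)
    ext A
    rw [mem_powerset, mem_filter, mem_powerset]
    constructor
    · intro hA
      refine ⟨?_, ?_⟩
      · intro p hp
        have := Nat.mem_primeFactors.1 (hA hp)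
        rw [hP, mem_filter, mem_Ioc]
        exact ⟨⟨this.1.pos, (Nat.le_of_dvd (by omega) this.2.1).trans hm.2.le⟩, this.1⟩
      · exact (Finset.prod_dvd_prod_of_subset A m.primeFactors _ hA).trans
          (Nat.prod_primeFactors_dvd m)
    · rintro ⟨hA, hdvd⟩ p hp
      have hpP := hA hp
      rw [hP, mem_filter] at hpP
      rw [Nat.mem_primeFactors]
      exact ⟨hpP.2, (Finset.dvd_prod_of_mem _ hp).trans hdvd, by omega⟩
  rw [Finset.sum_congr rfl h1, Finset.sum_comm]
  have h2 : ∀ A ∈ P.powerset, ∑ m ∈ Ico 1 X, (if (∏ p ∈ A, p) ∣ m then (z - 1) ^ A.card else 0) ≤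
      X * ∏ p ∈ A, ((z - 1) / (p : ℝ)) := by
    intro A hA
    rw [mem_powerset] at hA
    have hApos : 0 < ∏ p ∈ A, p := by
      apply Finset.prod_pos
      intro p hp
      have := hA hp
      rw [hP, mem_filter, mem_Ioc] at this
      exact this.1.1
    rw [← Finset.sum_filter, Finset.sum_const, nsmul_eq_mul]
    have h3 : ((((Ico 1 X).filter (fun m => (∏ p ∈ A, p) ∣ m)).card : ℕ) : ℝ) ≤
        X / ((∏ p ∈ A, p : ℕ) : ℝ) := by
      have h4 : ((Ico 1 X).filter (fun m => (∏ p ∈ A, p) ∣ m)).card ≤ X / (∏ p ∈ A, p) := by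
        calc ((Ico 1 X).filter (fun m => (∏ p ∈ A, p) ∣ m)).card
            ≤ ((Ioc 0 X).filter (fun m => (∏ p ∈ A, p) ∣ m)).card := by
              apply card_le_card
              apply Finset.filter_subset_filter
              intro m hm
              rw [mem_Ico] at hm; rw [mem_Ioc]; omega
          _ = X / (∏ p ∈ A, p) := Nat.Ioc_filter_dvd_card_eq_div _ _
      calc ((((Ico 1 X).filter (fun m => (∏ p ∈ A, p) ∣ m)).card : ℕ) : ℝ) ≤
            ((X / (∏ p ∈ A, p) : ℕ) : ℝ) := by exact_mod_cast h4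
        _ ≤ X / ((∏ p ∈ A, p : ℕ) : ℝ) := Nat.cast_div_le
    calc ((((Ico 1 X).filter (fun m => (∏ p ∈ A, p) ∣ m)).card : ℕ) : ℝ) * (z - 1) ^ A.card
        ≤ X / ((∏ p ∈ A, p : ℕ) : ℝ) * (z - 1) ^ A.card :=
          mul_le_mul_of_nonneg_right h3 (by positivity)
      _ = X * ∏ p ∈ A, ((z - 1) / (p : ℝ)) := by
          rw [Finset.prod_div_distrib, Finset.prod_const]
          push_cast
          ring
  refine (Finset.sum_le_sum h2).trans ?_
  rw [← Finset.mul_sum]
  apply mul_le_mul_of_nonneg_left _ (Nat.cast_nonneg _)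
  rw [← Finset.prod_one_add]
  calc ∏ p ∈ P, (1 + (z - 1) / (p : ℝ)) ≤ ∏ p ∈ P, Real.exp ((z - 1) / (p : ℝ)) := by
        apply Finset.prod_le_prod
        · intro p _; positivity
        · intro p _
          have := Real.add_one_le_exp ((z - 1) / (p : ℝ))
          linarith
    _ = Real.exp ((z - 1) * Hs X) := by
        rw [← Real.exp_sum]
        congr 1
        unfold Hs
        rw [Finset.mul_sum]
        apply Finset.sum_congr rfl
        intro p _; ring

theorem rankin_card (X M : ℕ) (z : ℝ) (hz : 1 ≤ z) :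
    ((((Ico 1 X).filter (fun m => M ≤ m.primeFactors.card)).card : ℕ) : ℝ) * z ^ M ≤
      X * Real.exp (z * Hs X) := by
  have hH : 0 ≤ Hs X := Finset.sum_nonneg (fun _ _ => by positivity)
  calc ((((Ico 1 X).filter (fun m => M ≤ m.primeFactors.card)).card : ℕ) : ℝ) * z ^ M
      = ∑ m ∈ (Ico 1 X).filter (fun m => M ≤ m.primeFactors.card), z ^ M := by
        rw [Finset.sum_const, nsmul_eq_mul]
    _ ≤ ∑ m ∈ (Ico 1 X).filter (fun m => M ≤ m.primeFactors.card), z ^ (m.primeFactors.card) := by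
        apply Finset.sum_le_sum
        intro m hm
        exact pow_le_pow_right₀ hz (mem_filter.1 hm).2
    _ ≤ ∑ m ∈ Ico 1 X, z ^ (m.primeFactors.card) := by
        apply Finset.sum_le_sum_of_subset_of_nonneg (Finset.filter_subset _ _)
        intros; positivity
    _ ≤ X * Real.exp ((z - 1) * Hs X) := rankin X z hz
    _ ≤ X * Real.exp (z * Hs X) := by
        apply mul_le_mul_of_nonneg_left _ (Nat.cast_nonneg _)
        apply Real.exp_le_exp.2
        nlinarith

open N129f076f in
theorem v_structure {n k M : ℕ} (hn : 1 ≤ n) (hM : 2 ≤ M) (h : M ≤ v n k) :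
    k < n ∧ (k + 1) ^ M ≤ n + k ∧ M ≤ (n + k).primeFactors.card := by
  have h1 : M ≤ (n + k).primeFactors.card := h.trans (card_le_card (Finset.filter_subset _ _))
  have h2 : (k + 1) ^ M ≤ n + k := by
    set S := (n + k).primeFactors.filter (fun p => ∀ i ∈ range k, ¬ p ∣ n + i) with hS
    have h3 : ∀ p ∈ S, k + 1 ≤ p := by
      intro p hp
      rw [hS, mem_filter, Nat.mem_primeFactors] at hp
      by_contra hlt
      push Not at hlt
      have hp0 := hp.1.1.pos
      apply hp.2 (k - p) (mem_range.2 (by omega))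
      have h4 := Nat.dvd_sub hp.1.2.1 (dvd_refl p)
      have h5 : n + k - p = n + (k - p) := by omega
      rwa [h5] at h4
    calc (k + 1) ^ M ≤ (k + 1) ^ S.card := Nat.pow_le_pow_right (by omega) h
      _ ≤ ∏ p ∈ S, p := Finset.pow_card_le_prod S _ _ h3
      _ ≤ n + k := Nat.le_of_dvd (by omega)
          ((Finset.prod_dvd_prod_of_subset S _ _ (Finset.filter_subset _ _)).trans
            (Nat.prod_primeFactors_dvd _))
  refine ⟨?_, h2, h1⟩
  by_contra hlt
  push Not at hlt
  have h3 : (k + 1) ^ 2 ≤ (k + 1) ^ M := Nat.pow_le_pow_right (by omega) hM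
  nlinarith

open N129f076f in
theorem bad2_card (x M : ℕ) (hM : 2 ≤ M) (z : ℝ) (hz : 1 ≤ z) (hx : 1 ≤ x)
    (hdec : DecidablePred (fun n => ∃ k, M ≤ v n k)) :
    ((((range x).filter (fun n => ∃ k, M ≤ v n k)).card : ℕ) : ℝ) ≤
      1 + Real.exp (Real.log (2 * x) / M) * (2 * x * Real.exp (z * Hs (2 * x)) / z ^ M) := by
  set J : ℕ := ⌊Real.exp (Real.log (2 * x) / M)⌋₊ with hJ
  have hMpos : (0 : ℝ) < M := by exact_mod_cast (by omega : 0 < M)
  have hxpos : (0 : ℝ) < x := by exact_mod_cast hx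
  have hsub : (range x).filter (fun n => ∃ k, M ≤ v n k) ⊆
      insert 0 ((range J).biUnion (fun k => (range x).filter
        (fun n => n + k ∈ (Ico 1 (2 * x)).filter (fun m => M ≤ m.primeFactors.card)))) := by
    intro n hn
    rw [mem_filter, mem_range] at hn
    obtain ⟨hnx, k, hk⟩ := hn
    rw [mem_insert]
    rcases Nat.eq_zero_or_pos n with h0 | h0
    · exact Or.inl h0
    · right
      obtain ⟨g1, g2, g3⟩ := v_structure h0 hM hk
      rw [mem_biUnion]
      refine ⟨k, ?_, ?_⟩
      · rw [mem_range, hJ]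
        have h5 : ((k : ℝ) + 1) ≤ Real.exp (Real.log (2 * x) / M) := by
          have h6 : ((k : ℝ) + 1) ^ M ≤ 2 * x := by
            have : (k + 1) ^ M ≤ 2 * x := by omega
            exact_mod_cast this
          have h7 : Real.log ((k : ℝ) + 1) ≤ Real.log (2 * x) / M := by
            rw [le_div_iff₀ hMpos]
            have := Real.log_le_log (by positivity) h6
            rw [Real.log_pow] at this
            linarith
          calc (k : ℝ) + 1 = Real.exp (Real.log ((k : ℝ) + 1)) := by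
                rw [Real.exp_log (by positivity)]
            _ ≤ _ := Real.exp_le_exp.2 h7
        have : k + 1 ≤ ⌊Real.exp (Real.log (2 * x) / M)⌋₊ := Nat.le_floor (by exact_mod_cast h5)
        omega
      · rw [mem_filter, mem_range, mem_filter, mem_Ico]
        exact ⟨hnx, ⟨by omega, by omega⟩, g3⟩
  have h1 : (((range x).filter (fun n => ∃ k, M ≤ v n k)).card) ≤
      J * ((Ico 1 (2 * x)).filter (fun m => M ≤ m.primeFactors.card)).card + 1 := by
    refine (card_le_card hsub).trans ((card_insert_le _ _).trans ?_)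
    apply Nat.add_le_add_right
    refine (Finset.card_biUnion_le).trans ?_
    calc ∑ k ∈ range J, ((range x).filter
        (fun n => n + k ∈ (Ico 1 (2 * x)).filter (fun m => M ≤ m.primeFactors.card))).card
        ≤ ∑ k ∈ range J, ((Ico 1 (2 * x)).filter (fun m => M ≤ m.primeFactors.card)).card := by
          apply Finset.sum_le_sum
          intro k _
          apply Finset.card_le_card_of_injOn (fun n => n + k)
          · intro n hn
            exact (mem_filter.1 hn).2
          · intro a _ b _ hab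
            exact Nat.add_right_cancel hab
      _ = _ := by rw [Finset.sum_const, card_range, smul_eq_mul]
  have h2 := rankin_card (2 * x) M z hz
  have hzM : 0 < z ^ M := by positivity
  have h3 : ((((Ico 1 (2 * x)).filter (fun m => M ≤ m.primeFactors.card)).card : ℕ) : ℝ) ≤
      2 * x * Real.exp (z * Hs (2 * x)) / z ^ M := by
    rw [le_div_iff₀ hzM]
    refine h2.trans (le_of_eq ?_)
    push_cast; ring
  have h4 : (J : ℝ) ≤ Real.exp (Real.log (2 * x) / M) := Nat.floor_le (by positivity)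
  calc ((((range x).filter (fun n => ∃ k, M ≤ v n k)).card : ℕ) : ℝ)
      ≤ (J : ℝ) * (((Ico 1 (2 * x)).filter (fun m => M ≤ m.primeFactors.card)).card : ℕ) + 1 := by
        exact_mod_cast h1
    _ ≤ Real.exp (Real.log (2 * x) / M) * (2 * x * Real.exp (z * Hs (2 * x)) / z ^ M) + 1 := by
        have := mul_le_mul h4 h3 (Nat.cast_nonneg _) (by positivity)
        linarith
    _ = _ := by ring

end Pool.Agent.H6.NewPrimes
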