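import Mathlib
import Pool.Agent.H6.NPg

namespace Pool.Agent.H6.NewPrimes

open Finset Filter Asymptotics

theorem upper_analytic (D : ℝ) (hD0 : 0 < D) (hD : 2 < D ^ 2) (ε : ℝ) (hε : 0 < ε) :
    ∀ᶠ T : ℝ in atTop, ∀ M : ℕ, D * rr T ≤ M → 2 ≤ M ∧
      ∃ z : ℝ, 1 ≤ z ∧ ∀ H : ℝ, 0 ≤ H → H ≤ 13 * Real.log T →
        Real.exp ((T + Real.log 2) / M) * (2 * Real.exp T * Real.exp (z * H) / z ^ M) ≤
          ε * Real.exp T := by
  set η : ℝ := (1 / 2 - 1 / D ^ 2) / 2 with hη
  have hD2 : 1 / D ^ 2 < 1 / 2 := one_div_lt_one_div_of_lt (by norm_num) hD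
  have hη0 : 0 < η := by rw [hη]; linarith
  have hη1 : η < 1 / 2 := by
    have : 0 < 1 / D ^ 2 := by positivity
    rw [hη]; linarith
  set κ : ℝ := D * (1 / 2 - η) - 1 / D with hκ
  have hκ0 : 0 < κ := by
    have h1 : 1 / D ^ 2 < 1 / 2 - η := by rw [hη]; linarith
    have h2 : D * (1 / D ^ 2) < D * (1 / 2 - η) := mul_lt_mul_of_pos_left h1 hD0
    have h3 : D * (1 / D ^ 2) = 1 / D := by field_simp
    rw [hκ]; linarith
  have A1 : ∀ᶠ T : ℝ in atTop, 2 / D ≤ rr T := tendsto_rr.eventually_ge_atTop _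
  have A2 : ∀ᶠ T : ℝ in atTop, 13 * Real.log T ≤ κ / 2 * T ^ η := by
    have := (isLittleO_log_rpow_atTop hη0).def (show (0:ℝ) < κ / 26 by positivity)
    filter_upwards [this, eventually_ge_atTop (1:ℝ)] with x hx hx1
    rw [Real.norm_of_nonneg (Real.log_nonneg hx1), Real.norm_of_nonneg (by positivity)] at hx
    linarith
  have A3 : ∀ᶠ T : ℝ in atTop, 4 / ε ≤ Real.exp (κ / 2 * ss T) :=
    (Real.tendsto_exp_atTop.comp (tendsto_ss.const_mul_atTop (by positivity))).eventually_ge_atTop _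
  filter_upwards [A1, A2, A3, eventually_ge_atTop (16:ℝ)] with T a1 a2 a3 a8
  intro M hM
  have hlog := log_ge_one a8
  have hr := rr_pos a8
  have hs := ss_pos a8
  have hs1 := one_le_ss a8
  have hT0 : 0 < T := by linarith
  have hM2 : (2 : ℝ) ≤ M := by
    rw [div_le_iff₀ hD0] at a1; linarith
  have hMpos : (0 : ℝ) < M := by linarith
  refine ⟨by exact_mod_cast hM2, T ^ (1 / 2 - η), Real.one_le_rpow (by linarith) (by linarith), ?_⟩
  intro H hH0 hH
  have hTpos : 0 < T ^ (1 / 2 - η) := by positivity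
  -- 1. first factor
  have f1 : (T + Real.log 2) / M ≤ 1 / D * ss T + 1 / 2 := by
    rw [div_le_iff₀ hMpos]
    have e1 : T ≤ 1 / D * ss T * M := by
      calc T = rr T * ss T := (rr_mul_ss a8).symm
        _ = 1 / D * ss T * (D * rr T) := by field_simp
        _ ≤ 1 / D * ss T * M := mul_le_mul_of_nonneg_left hM (by positivity)
    have e2 : Real.log 2 ≤ 1 := by have := Real.log_two_lt_d9; linarith
    nlinarith
  -- 2. z H
  have f2 : T ^ (1 / 2 - η) * H ≤ κ / 2 * ss T := by
    calc T ^ (1 / 2 - η) * H ≤ T ^ (1 / 2 - η) * (κ / 2 * T ^ η) :=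
          mul_le_mul_of_nonneg_left (hH.trans a2) hTpos.le
      _ = κ / 2 * (T ^ (1 / 2 - η) * T ^ η) := by ring
      _ = κ / 2 * T ^ (1 / 2 : ℝ) := by rw [← Real.rpow_add hT0]; norm_num
      _ ≤ κ / 2 * ss T := by
          apply mul_le_mul_of_nonneg_left _ (by positivity)
          rw [← Real.sqrt_eq_rpow]
          unfold ss
          apply Real.sqrt_le_sqrt
          nlinarith
  -- 3. power
  have f3 : Real.exp (D * (1 / 2 - η) * ss T) ≤ (T ^ (1 / 2 - η)) ^ M := by
    rw [Real.rpow_def_of_pos hT0, ← Real.exp_nat_mul]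
    apply Real.exp_le_exp.2
    rw [← rr_mul_log a8]
    calc D * (1 / 2 - η) * (rr T * Real.log T) = (D * rr T) * (Real.log T * (1 / 2 - η)) := by ring
      _ ≤ M * (Real.log T * (1 / 2 - η)) := by
          apply mul_le_mul_of_nonneg_right hM
          have : 0 ≤ 1 / 2 - η := by linarith
          positivity
  have hE := Real.exp_pos T
  have f4 : 1 / (T ^ (1 / 2 - η)) ^ M ≤ Real.exp (-(D * (1 / 2 - η) * ss T)) := by
    rw [Real.exp_neg, ← one_div]
    exact one_div_le_one_div_of_le (Real.exp_pos _) f3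
  calc Real.exp ((T + Real.log 2) / M) *
        (2 * Real.exp T * Real.exp (T ^ (1 / 2 - η) * H) / (T ^ (1 / 2 - η)) ^ M)
      = (Real.exp ((T + Real.log 2) / M) * (2 * Real.exp T * Real.exp (T ^ (1 / 2 - η) * H))) *
        (1 / (T ^ (1 / 2 - η)) ^ M) := by ring
    _ ≤ (Real.exp (1 / D * ss T + 1 / 2) * (2 * Real.exp T * Real.exp (κ / 2 * ss T))) *
        Real.exp (-(D * (1 / 2 - η) * ss T)) := by
        apply mul_le_mul _ f4 (by positivity) (by positivity)
        apply mul_le_mul (Real.exp_le_exp.2 f1) _ (by positivity) (by positivity)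
        apply mul_le_mul_of_nonneg_left (Real.exp_le_exp.2 f2) (by positivity)
    _ = (2 * Real.exp (1 / 2)) * Real.exp (-(κ / 2 * ss T)) * Real.exp T := by
        have e1 : Real.exp (-(κ / 2 * ss T)) =
            Real.exp (1 / D * ss T) * Real.exp (κ / 2 * ss T) * Real.exp (-(D * (1 / 2 - η) * ss T)) := by
          rw [← Real.exp_add, ← Real.exp_add]; congr 1; rw [hκ]; ring
        rw [e1, Real.exp_add]; ring
    _ ≤ ε * Real.exp T := by
        apply mul_le_mul_of_nonneg_right _ hE.le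
        have e2 : Real.exp (1 / 2) ≤ 2 := by
          have h3 : Real.exp (1/2) ^ 2 ≤ 2 ^ 2 := by
            rw [← Real.exp_nat_mul]
            have := Real.exp_one_lt_d9
            norm_num
            linarith
          exact le_of_sq_le_sq h3 (by norm_num)
        have hpos := Real.exp_pos (κ / 2 * ss T)
        rw [Real.exp_neg, ← div_eq_mul_inv, div_le_iff₀ hpos]
        rw [div_le_iff₀ hε] at a3
        linarith

/-- the normalising function `sqrt (log n / log log n)` -/
noncomputable def R (n : ℕ) : ℝ := √(Real.log n / Real.log (Real.log n))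

theorem R_eq (n : ℕ) : R n = rr (Real.log n) := rfl

theorem R_mono {n x : ℕ} (h1 : Real.exp 16 ≤ n) (h2 : n ≤ x) : R n ≤ R x := by
  have hn0 : (0 : ℝ) < n := lt_of_lt_of_le (Real.exp_pos _) h1
  have hx : (n : ℝ) ≤ x := by exact_mod_cast h2
  have l1 : 16 ≤ Real.log n := by rw [Real.le_log_iff_exp_le hn0]; exact h1
  have l2 : Real.log n ≤ Real.log x := Real.log_le_log hn0 hx
  have g1 := log_ge_one l1
  have g2 := log_ge_one (l1.trans l2)
  unfold R
  apply Real.sqrt_le_sqrt
  have e := Real.exp_one_lt_d9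
  have anti := Real.log_div_self_antitoneOn (show Real.log n ∈ {x : ℝ | Real.exp 1 ≤ x} by
      simp only [Set.mem_ofPred_eq]; linarith)
    (show Real.log x ∈ {x : ℝ | Real.exp 1 ≤ x} by simp only [Set.mem_ofPred_eq]; linarith) l2
  simp only at anti
  have hl1 : 0 < Real.log n := by linarith
  have hl2 : 0 < Real.log x := by linarith
  rw [div_le_div_iff₀ hl2 hl1] at anti
  rw [div_le_div_iff₀ (by linarith) (by linarith)]
  linarith

open N129f076f

open Classical in
theorem lower_density (c : ℝ) (hc : c < 1) (ε : ℝ) (hε : 0 < ε) :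
    ∀ᶠ x : ℕ in atTop, ((((range x).filter (fun n =>
      ((v₀ n : ℕ∞) : ENNReal) < ENNReal.ofReal (c * R n))).card : ℕ) : ℝ) ≤ ε * x := by
  set c1 : ℝ := max c (1 / 2) with hc1
  have hc10 : 0 < c1 := lt_of_lt_of_le (by norm_num) (le_max_right _ _)
  have hc11 : c1 < 1 := max_lt hc (by norm_num)
  obtain ⟨Z, hZ2, hZ⟩ := explicit_bound
  have h1 := lower_analytic c1 hc10 hc11 Z hZ2 (ε / 2) (by positivity)
  have h2 : Tendsto (fun x : ℕ => Real.log x) atTop atTop :=
    Real.tendsto_log_atTop.comp tendsto_natCast_atTop_atTop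
  have h3 : ∀ᶠ x : ℕ in atTop, (⌈Real.exp 16⌉₊ : ℝ) ≤ ε / 2 * x :=
    (tendsto_natCast_atTop_atTop.const_mul_atTop (by positivity)).eventually_ge_atTop _
  filter_upwards [h2.eventually h1, h3, h2.eventually_ge_atTop 16, eventually_ge_atTop 1]
    with x a1 a3 a4 a5
  have hx0 : (0 : ℝ) < x := by exact_mod_cast a5
  have hr := rr_pos a4
  set M : ℕ := ⌈c1 * rr (Real.log x)⌉₊ with hM
  have hM1 : c1 * rr (Real.log x) ≤ M := Nat.le_ceil _
  have hM2 : (M : ℝ) ≤ c1 * rr (Real.log x) + 1 := (Nat.ceil_lt_add_one (by positivity)).le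
  obtain ⟨y, hyZ, hy⟩ := a1 M hM1 hM2
  rw [Real.exp_log hx0] at hy
  have hmain := hZ M y x hyZ
  have hsub : (range x).filter (fun n =>
      ((v₀ n : ℕ∞) : ENNReal) < ENNReal.ofReal (c * R n)) ⊆
      (range ⌈Real.exp 16⌉₊) ∪ (range x).filter (fun n => v₀ n < (M : ℕ∞)) := by
    intro n hn
    rw [mem_filter, mem_range] at hn
    rw [mem_union, mem_range, mem_filter, mem_range]
    by_cases hlt : n < ⌈Real.exp 16⌉₊
    · exact Or.inl hlt
    · right
      refine ⟨hn.1, ?_⟩
      push Not at hlt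
      have hge : Real.exp 16 ≤ n := (Nat.le_ceil _).trans (by exact_mod_cast hlt)
      have hR : R n ≤ rr (Real.log x) := R_mono hge hn.1.le
      have hR0 : 0 ≤ R n := Real.sqrt_nonneg _
      have h5 : c * R n ≤ M := by
        calc c * R n ≤ c1 * R n := mul_le_mul_of_nonneg_right (le_max_left _ _) hR0
          _ ≤ c1 * rr (Real.log x) := mul_le_mul_of_nonneg_left hR hc10.le
          _ ≤ M := hM1
      have h6 : ENNReal.ofReal (c * R n) ≤ ((M : ℕ) : ENNReal) := by
        rw [← ENNReal.ofReal_natCast]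
        exact ENNReal.ofReal_le_ofReal h5
      have h7 : ((v₀ n : ℕ∞) : ENNReal) < ((M : ℕ) : ENNReal) := lt_of_lt_of_le hn.2 h6
      have h8 : ((M : ℕ) : ENNReal) = (((M : ℕ∞)) : ENNReal) := by simp
      rw [h8] at h7
      exact ENat.toENNReal_lt.1 h7
  have hcard : ((((range x).filter (fun n =>
      ((v₀ n : ℕ∞) : ENNReal) < ENNReal.ofReal (c * R n))).card : ℕ) : ℝ) ≤
      ⌈Real.exp 16⌉₊ + ((((range x).filter (fun n => v₀ n < (M : ℕ∞))).card : ℕ) : ℝ) := by
    have := (card_le_card hsub).trans (card_union_le _ _)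
    rw [card_range] at this
    exact_mod_cast this
  have hmain' : ((((range x).filter (fun n => v₀ n < (M : ℕ∞))).card : ℕ) : ℝ) ≤
      x / y * (1 + 4 * Real.log (4 ^ M * y)) ^ M + 4 * ((4 : ℝ) ^ (M ^ 2) * y ^ M) ^ 2 + 1 := by
    convert hmain
  linarith

open Classical in
theorem upper_density (C : ℝ) (hC : √2 < C) (ε : ℝ) (hε : 0 < ε) :
    ∀ᶠ x : ℕ in atTop, ((((range x).filter (fun n =>
      ENNReal.ofReal (C * R n) < ((v₀ n : ℕ∞) : ENNReal))).card : ℕ) : ℝ) ≤ ε * x := by
  have hC0 : 0 < C := lt_of_le_of_lt (Real.sqrt_nonneg _) hC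
  have hC2 : 2 < C ^ 2 := by
    have := (Real.sqrt_lt' hC0).1 hC
    exact this
  set δ : ℝ := (1 - 2 / C ^ 2) / 2 with hδ
  have hC3 : 2 / C ^ 2 < 1 := by rw [div_lt_one (by positivity)]; exact hC2
  have hδ0 : 0 < δ := by rw [hδ]; linarith
  have hδ1 : δ < 1 := by
    have : 0 < 2 / C ^ 2 := by positivity
    rw [hδ]; linarith
  set D : ℝ := C * √(1 - δ) with hD
  have hD0 : 0 < D := by
    have : 0 < 1 - δ := by linarith
    positivity
  have hD2 : 2 < D ^ 2 := by
    rw [hD, mul_pow, Real.sq_sqrt (by linarith), hδ]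
    field_simp
    nlinarith
  have h1 := upper_analytic D hD0 hD2 (ε / 3) (by positivity)
  have h2 : Tendsto (fun x : ℕ => Real.log x) atTop atTop :=
    Real.tendsto_log_atTop.comp tendsto_natCast_atTop_atTop
  have h3 : ∀ᶠ T : ℝ in atTop, Real.exp ((1 - δ) * T) ≤ ε / 3 * Real.exp T := by
    have := (Real.tendsto_exp_atTop.comp (tendsto_id.const_mul_atTop hδ0)).eventually_ge_atTop (3 / ε)
    filter_upwards [this] with T hT
    simp only [Function.comp_apply, id] at hT
    have e1 : Real.exp T = Real.exp (δ * T) * Real.exp ((1 - δ) * T) := by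
      rw [← Real.exp_add]; congr 1; ring
    rw [e1]
    rw [div_le_iff₀ hε] at hT
    have := Real.exp_pos ((1 - δ) * T)
    nlinarith
  have h4 : ∀ᶠ x : ℕ in atTop, (4 : ℝ) ≤ ε / 3 * x :=
    (tendsto_natCast_atTop_atTop.const_mul_atTop (by positivity)).eventually_ge_atTop _
  filter_upwards [h2.eventually h1, h2.eventually h3, h4, h2.eventually_ge_atTop (16 / (1 - δ)),
    eventually_ge_atTop 1, h2.eventually_ge_atTop 16]
    with x a1 a3 a4 a5 a6 a7
  have hx0 : (0 : ℝ) < x := by exact_mod_cast a6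
  have hlog := log_ge_one a7
  set T : ℝ := Real.log x with hT
  have hT0 : 0 < T := by linarith
  rw [Real.exp_log hx0] at a1 a3
  set M : ℕ := ⌈D * rr T⌉₊ with hM
  have hM1 : D * rr T ≤ M := Nat.le_ceil _
  obtain ⟨hM2, z, hz1, hz⟩ := a1 M hM1
  -- bound for H
  have hH0 : 0 ≤ Hs (2 * x) := Finset.sum_nonneg (fun _ _ => by positivity)
  have hH : Hs (2 * x) ≤ 13 * Real.log T := by
    set K : ℕ := ⌈2 * T⌉₊ with hK
    have hK1 : 2 * T ≤ K := Nat.le_ceil _
    have hK2 : (K : ℝ) ≤ 2 * T + 1 := (Nat.ceil_lt_add_one (by positivity)).le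
    have hKpos : 1 ≤ K := by
      have : (1 : ℝ) ≤ K := by linarith
      exact_mod_cast this
    have hle : 2 * x ≤ 2 ^ K := by
      have : (2 : ℝ) * x ≤ 2 ^ K := by
        have e1 : (2 : ℝ) * x = Real.exp (Real.log 2 + T) := by
          rw [Real.exp_add, Real.exp_log (by norm_num), hT, Real.exp_log hx0]
        have e2 : (2 : ℝ) ^ K = Real.exp (K * Real.log 2) := by
          rw [Real.exp_nat_mul, Real.exp_log (by norm_num)]
        rw [e1, e2]
        apply Real.exp_le_exp.2
        have h9 : (0.69 : ℝ) < Real.log 2 := by have := Real.log_two_gt_d9; linarith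
        have h10 : Real.log 2 < 1 := by have := Real.log_two_lt_d9; linarith
        nlinarith
      exact_mod_cast this
    have h5 := (Hs_mono hle).trans (Hs_pow_le K hKpos)
    have h6 : Real.log K ≤ Real.log 3 + Real.log T := by
      rw [← Real.log_mul (by norm_num) hT0.ne']
      apply Real.log_le_log (by linarith)
      linarith
    have h7 : Real.log 3 ≤ 1.1 := by
      rw [Real.log_le_iff_le_exp (by norm_num)]
      have h8 : Real.exp (1.1 : ℝ) = Real.exp 1 * Real.exp 0.1 := by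
        rw [← Real.exp_add]; norm_num
      have h9 := Real.exp_one_gt_d9
      have h10 := Real.add_one_le_exp (0.1 : ℝ)
      have h11 := Real.quadratic_le_exp_of_nonneg (show (0:ℝ) ≤ 0.1 by norm_num)
      rw [h8]
      nlinarith
    linarith
  have hmain := bad2_card x M hM2 z hz1 a6 (Classical.decPred _)
  have hlog2x : Real.log (2 * x) = T + Real.log 2 := by
    rw [Real.log_mul (by norm_num) hx0.ne']; ring
  rw [hlog2x] at hmain
  have hz2 := hz _ hH0 hH
  have hsub : (range x).filter (fun n =>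
      ENNReal.ofReal (C * R n) < ((v₀ n : ℕ∞) : ENNReal)) ⊆
      (range ⌈Real.exp ((1 - δ) * T)⌉₊) ∪ (range x).filter (fun n => ∃ k, M ≤ v n k) := by
    intro n hn
    rw [mem_filter, mem_range] at hn
    rw [mem_union, mem_range, mem_filter, mem_range]
    by_cases hlt : n < ⌈Real.exp ((1 - δ) * T)⌉₊
    · exact Or.inl hlt
    · right
      refine ⟨hn.1, ?_⟩
      push Not at hlt
      have hge : Real.exp ((1 - δ) * T) ≤ n := (Nat.le_ceil _).trans (by exact_mod_cast hlt)
      have hn0 : (0 : ℝ) < n := lt_of_lt_of_le (Real.exp_pos _) hge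
      have l1 : (1 - δ) * T ≤ Real.log n := by
        rw [Real.le_log_iff_exp_le hn0]; exact hge
      have l2 : Real.log n ≤ T := Real.log_le_log hn0 (by exact_mod_cast hn.1.le)
      have l3 : 16 ≤ (1 - δ) * T := by
        have h1δ : 0 < 1 - δ := by linarith
        rw [div_le_iff₀ h1δ] at a5
        linarith
      have l4 := log_ge_one (l3.trans l1)
      have hRn : D * rr T ≤ C * R n := by
        rw [hD, mul_assoc]
        apply mul_le_mul_of_nonneg_left _ hC0.le
        unfold rr R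
        rw [← Real.sqrt_mul (by linarith)]
        apply Real.sqrt_le_sqrt
        have l5 : Real.log (Real.log n) ≤ Real.log T := Real.log_le_log (by linarith) l2
        rw [mul_div_assoc', div_le_div_iff₀ (by linarith) (by linarith)]
        have h1δ : 0 < 1 - δ := by linarith
        have p1 : 0 < (1 - δ) * T := by positivity
        calc (1 - δ) * T * Real.log (Real.log n) ≤ (1 - δ) * T * Real.log T :=
              mul_le_mul_of_nonneg_left l5 p1.le
          _ ≤ Real.log n * Real.log T := mul_le_mul_of_nonneg_right l1 (by linarith)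
      have h5 := hn.2
      unfold v₀ at h5
      rw [ENat.toENNReal_iSup, lt_iSup_iff] at h5
      obtain ⟨k, hk⟩ := h5
      refine ⟨k, ?_⟩
      have h6 : C * R n < (v n k : ℝ) := by
        have h7 : ENNReal.ofReal (C * R n) < ((v n k : ℕ) : ENNReal) := by simpa using hk
        rw [← ENNReal.ofReal_natCast] at h7
        exact (ENNReal.ofReal_lt_ofReal_iff_of_nonneg (by
          have : 0 ≤ R n := Real.sqrt_nonneg _
          positivity)).1 h7
      exact Nat.ceil_le.2 (by linarith)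
  have hcard : ((((range x).filter (fun n =>
      ENNReal.ofReal (C * R n) < ((v₀ n : ℕ∞) : ENNReal))).card : ℕ) : ℝ) ≤
      ⌈Real.exp ((1 - δ) * T)⌉₊ + ((((range x).filter (fun n => ∃ k, M ≤ v n k)).card : ℕ) : ℝ) := by
    have := (card_le_card hsub).trans (card_union_le _ _)
    rw [card_range] at this
    exact_mod_cast this
  have hceil : (⌈Real.exp ((1 - δ) * T)⌉₊ : ℝ) ≤ Real.exp ((1 - δ) * T) + 1 :=
    (Nat.ceil_lt_add_one (Real.exp_pos _).le).le
  have hmain' : ((((range x).filter (fun n => ∃ k, M ≤ v n k)).card : ℕ) : ℝ) ≤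
      1 + Real.exp ((T + Real.log 2) / M) * (2 * x * Real.exp (z * Hs (2 * x)) / z ^ M) := by
    convert hmain
  linarith

open Classical in
/-- normal order of magnitude -/
theorem normal_order (c C : ℝ) (hc : c < 1) (hC : √2 < C) :
    Tendsto (fun x : ℕ => ((((range x).filter (fun n =>
      ¬ (ENNReal.ofReal (c * R n) ≤ ((v₀ n : ℕ∞) : ENNReal) ∧
        ((v₀ n : ℕ∞) : ENNReal) ≤ ENNReal.ofReal (C * R n)))).card : ℕ) : ℝ) / x) atTop (nhds 0) := by
  rw [Metric.tendsto_atTop']
  intro ε hε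
  have h1 := lower_density c hc (ε / 3) (by positivity)
  have h2 := upper_density C hC (ε / 3) (by positivity)
  obtain ⟨X, hX⟩ := eventually_atTop.1 (h1.and (h2.and (eventually_ge_atTop 1)))
  refine ⟨X, fun x hx => ?_⟩
  obtain ⟨b1, b2, b3⟩ := hX x hx.le
  have hx0 : (0 : ℝ) < x := by exact_mod_cast b3
  rw [Real.dist_eq, sub_zero, abs_of_nonneg (by positivity), div_lt_iff₀ hx0]
  have hsub : (range x).filter (fun n =>
      ¬ (ENNReal.ofReal (c * R n) ≤ ((v₀ n : ℕ∞) : ENNReal) ∧
        ((v₀ n : ℕ∞) : ENNReal) ≤ ENNReal.ofReal (C * R n))) ⊆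
      (range x).filter (fun n => ((v₀ n : ℕ∞) : ENNReal) < ENNReal.ofReal (c * R n)) ∪
      (range x).filter (fun n => ENNReal.ofReal (C * R n) < ((v₀ n : ℕ∞) : ENNReal)) := by
    intro n hn
    rw [mem_filter, not_and_or, not_le, not_le] at hn
    rw [mem_union, mem_filter, mem_filter]
    rcases hn.2 with h | h
    · exact Or.inl ⟨hn.1, h⟩
    · exact Or.inr ⟨hn.1, h⟩
  have hcard : ((((range x).filter (fun n =>
      ¬ (ENNReal.ofReal (c * R n) ≤ ((v₀ n : ℕ∞) : ENNReal) ∧
        ((v₀ n : ℕ∞) : ENNReal) ≤ ENNReal.ofReal (C * R n)))).card : ℕ) : ℝ) ≤ ε / 3 * x + ε / 3 * x := by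
    refine le_trans ?_ (add_le_add b1 b2)
    exact_mod_cast (card_le_card hsub).trans (card_union_le _ _)
  nlinarith

end Pool.Agent.H6.NewPrimes
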