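import Mathlib
import Pool.Agent.H6.NPa

namespace Pool.Agent.H6.NewPrimes

open Finset Filter

theorem ordProj_le_aux {q a : ℕ} (_hq : q.Prime) (ha : a ≠ 0) : q ^ padicValNat q a ≤ a :=
  Nat.le_of_dvd (Nat.pos_of_ne_zero ha) (pow_padicValNat_dvd)

/-- the `q`-part of `g ^ N - 1` is at most `g ^ (q + 2) * N` -/
theorem qpart_le (g N q : ℕ) (hg : 2 ≤ g) (hN : 1 ≤ N) (hq : q.Prime) (hqg : ¬ q ∣ g) :
    q ^ padicValNat q (g ^ N - 1) ≤ g ^ (q + 2) * N := by
  have : Fact q.Prime := ⟨hq⟩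
  have hgN : ∀ E : ℕ, 1 ≤ E → g ^ E - 1 ≠ 0 := by
    intro E hE
    have : 2 ≤ g ^ E := hg.trans (Nat.le_self_pow (by omega) g)
    omega
  have hmono : ∀ E : ℕ, 1 ≤ E → padicValNat q (g ^ N - 1) ≤ padicValNat q ((g ^ E) ^ N - 1) := by
    intro E hE
    have h1 : g ^ N - 1 ∣ (g ^ E) ^ N - 1 := by
      rw [← pow_mul, mul_comm, pow_mul]
      exact Nat.sub_one_dvd_pow_sub_one (g ^ N) E
    have h2 : (g ^ E) ^ N - 1 ≠ 0 := by
      rw [← pow_mul]; exact hgN _ (Nat.mul_pos hE hN)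
    have h3 : q ^ padicValNat q (g ^ N - 1) ∣ (g ^ E) ^ N - 1 := pow_padicValNat_dvd.trans h1
    exact (padicValNat_dvd_iff_le h2).1 h3
  have hg1 : 1 ≤ g := by omega
  rcases hq.eq_two_or_odd' with h2 | hodd
  · subst h2
    have h1 := hmono 2 (by norm_num)
    have h3 : padicValNat 2 (g ^ (2 * N) - 1 ^ (2 * N)) + 1 =
        padicValNat 2 (g + 1) + padicValNat 2 (g - 1) + padicValNat 2 (2 * N) := by
      apply padicValNat.pow_two_sub_pow (by omega) _ hqg (by omega) (by simp)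
      have : ¬ 2 ∣ g := hqg
      omega
    have h4 : padicValNat 2 (2 * N) = 1 + padicValNat 2 N := by
      rw [padicValNat.mul (by norm_num) (by omega)]
      simp
    rw [one_pow, h4] at h3
    rw [← pow_mul] at h1
    have h5 : padicValNat 2 (g ^ N - 1) ≤ padicValNat 2 (g + 1) + padicValNat 2 (g - 1) + padicValNat 2 N := by
      omega
    calc 2 ^ padicValNat 2 (g ^ N - 1) ≤
          2 ^ (padicValNat 2 (g + 1) + padicValNat 2 (g - 1) + padicValNat 2 N) :=
          Nat.pow_le_pow_right (by norm_num) h5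
      _ = 2 ^ padicValNat 2 (g + 1) * 2 ^ padicValNat 2 (g - 1) * 2 ^ padicValNat 2 N := by
          rw [pow_add, pow_add]
      _ ≤ (g + 1) * (g - 1) * N := by
          apply Nat.mul_le_mul (Nat.mul_le_mul (ordProj_le_aux hq (by omega))
            (ordProj_le_aux hq (by omega))) (ordProj_le_aux hq (by omega))
      _ ≤ g ^ (2 + 2) * N := by
          apply Nat.mul_le_mul_right
          have : (g + 1) * (g - 1) ≤ g ^ 2 := by
            obtain ⟨h, rfl⟩ := Nat.exists_eq_add_of_le hg1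
            have : 1 + h - 1 = h := by omega
            rw [this]; nlinarith
          exact this.trans (Nat.pow_le_pow_right hg1 (by norm_num))
  · have hq2 : 2 ≤ q := hq.two_le
    have h1 := hmono (q - 1) (by omega)
    have hcop : Nat.Coprime g q := ((Nat.Prime.coprime_iff_not_dvd hq).2 hqg).symm
    have hdvd : q ∣ g ^ (q - 1) - 1 := by
      have := Nat.ModEq.pow_totient hcop
      rw [Nat.totient_prime hq] at this
      exact (Nat.modEq_iff_dvd' (Nat.one_le_pow _ _ (by omega))).1 this.symm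
    have h3 : padicValNat q ((g ^ (q - 1)) ^ N - 1 ^ N) =
        padicValNat q (g ^ (q - 1) - 1) + padicValNat q N := by
      apply padicValNat.pow_sub_pow hodd _ hdvd _ (by omega)
      · exact Nat.one_lt_pow (by omega) (by omega)
      · intro h
        exact hqg (hq.dvd_of_dvd_pow h)
    rw [one_pow] at h3
    calc q ^ padicValNat q (g ^ N - 1) ≤ q ^ (padicValNat q (g ^ (q - 1) - 1) + padicValNat q N) :=
          Nat.pow_le_pow_right (by omega) (by omega)
      _ = q ^ padicValNat q (g ^ (q - 1) - 1) * q ^ padicValNat q N := by rw [pow_add]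
      _ ≤ (g ^ (q - 1) - 1) * N :=
          Nat.mul_le_mul (ordProj_le_aux hq (hgN _ (by omega))) (ordProj_le_aux hq (by omega))
      _ ≤ g ^ (q + 2) * N := by
          apply Nat.mul_le_mul_right
          exact (Nat.sub_le _ _).trans (Nat.pow_le_pow_right hg1 (by omega))

/-- a `K`-smooth divisor of `g ^ N - 1` is small -/
theorem smooth_le (g N K W : ℕ) (hg : 2 ≤ g) (hN : 1 ≤ N) (hW : W ∣ g ^ N - 1)
    (hs : ∀ q, q.Prime → q ∣ W → q ≤ K) : W ≤ (g ^ (K + 2) * N) ^ K := by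
  have hgN : g ^ N - 1 ≠ 0 := by
    have : 2 ≤ g ^ N := hg.trans (Nat.le_self_pow (by omega) g)
    omega
  have hW0 : W ≠ 0 := fun h => hgN (by rw [h, zero_dvd_iff] at hW; exact hW)
  have hg1 : 1 ≤ g := by omega
  have h1 : ∀ q ∈ W.primeFactors, q ^ W.factorization q ≤ g ^ (K + 2) * N := by
    intro q hq
    have hqp := Nat.prime_of_mem_primeFactors hq
    have : Fact q.Prime := ⟨hqp⟩
    have hqW := Nat.dvd_of_mem_primeFactors hq
    have hqg : ¬ q ∣ g := by
      intro h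
      have h2 : q ∣ g ^ N := h.trans (dvd_pow_self g (by omega))
      have h3 := (Nat.dvd_sub_iff_right (by have : 2 ≤ g ^ N := hg.trans (Nat.le_self_pow (by omega) g)
                                            omega) h2).1 (hqW.trans hW)
      exact hqp.one_lt.ne' (Nat.dvd_one.1 h3)
    have hqK := hs q hqp hqW
    have h4 : W.factorization q ≤ padicValNat q (g ^ N - 1) := by
      rw [Nat.factorization_def W hqp]
      exact (padicValNat_dvd_iff_le hgN).1 (pow_padicValNat_dvd.trans hW)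
    calc q ^ W.factorization q ≤ q ^ padicValNat q (g ^ N - 1) := Nat.pow_le_pow_right hqp.pos h4
      _ ≤ g ^ (q + 2) * N := qpart_le g N q hg hN hqp hqg
      _ ≤ g ^ (K + 2) * N := Nat.mul_le_mul_right _ (Nat.pow_le_pow_right hg1 (by omega))
  have h2 : W.primeFactors.card ≤ K := by
    have : W.primeFactors ⊆ Ioc 0 K := by
      intro q hq
      rw [mem_Ioc]
      exact ⟨(Nat.prime_of_mem_primeFactors hq).pos,
        hs q (Nat.prime_of_mem_primeFactors hq) (Nat.dvd_of_mem_primeFactors hq)⟩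
    have := card_le_card this
    simpa using this
  calc W = ∏ q ∈ W.primeFactors, q ^ W.factorization q := (Nat.prod_factorization_pow_eq_self hW0).symm
    _ ≤ ∏ _q ∈ W.primeFactors, (g ^ (K + 2) * N) := Finset.prod_le_prod' h1
    _ = (g ^ (K + 2) * N) ^ W.primeFactors.card := by rw [Finset.prod_const]
    _ ≤ (g ^ (K + 2) * N) ^ K := Nat.pow_le_pow_right (Nat.mul_pos (by positivity) hN) h2

/-- for large `u` the number `t² - t + 1`, `t = g ^ u`, has a prime factor exceeding `K` -/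
theorem exists_big_prime (g K : ℕ) (hg : 2 ≤ g) :
    ∃ U : ℕ, ∀ u : ℕ, U ≤ u → ∃ q, q.Prime ∧ K < q ∧ q ∣ (g ^ u) ^ 2 - g ^ u + 1 := by
  have hlim : Tendsto (fun n : ℕ => ((n : ℝ) ^ K) / (2 : ℝ) ^ n) atTop (nhds 0) :=
    tendsto_pow_const_div_const_pow_of_one_lt K (by norm_num)
  have hev : ∀ᶠ n : ℕ in atTop, ((n : ℝ) ^ K) / (2 : ℝ) ^ n < 1 / ((g ^ (K + 2) * 6) ^ K : ℕ) :=
    (tendsto_order.1 hlim).2 _ (by positivity)
  obtain ⟨U, hU⟩ := eventually_atTop.1 hev
  refine ⟨max U 1, fun u hu => ?_⟩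
  have hu1 : 1 ≤ u := (le_max_right _ _).trans hu
  by_contra hcon
  push Not at hcon
  have hs : ∀ q, q.Prime → q ∣ (g ^ u) ^ 2 - g ^ u + 1 → q ≤ K := by
    intro q hq hqd
    by_contra hlt
    push Not at hlt
    exact hcon q hq hlt hqd
  have ht1 : 1 ≤ g ^ u := Nat.one_le_pow _ _ (by omega)
  have hdvd : (g ^ u) ^ 2 - g ^ u + 1 ∣ g ^ (6 * u) - 1 := by
    obtain ⟨s, hs'⟩ := Nat.exists_eq_add_of_le ht1
    have e1 : g ^ (6 * u) = (1 + s) ^ 6 := by rw [← hs', ← pow_mul, mul_comm]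
    rw [hs', e1]
    have e2 : (1 + s) ^ 2 - (1 + s) + 1 = s ^ 2 + s + 1 := by
      have : (1 + s) ^ 2 = (s ^ 2 + s) + (1 + s) := by ring
      rw [this, Nat.add_sub_cancel]
    have e3 : (1 + s) ^ 6 - 1 = (s ^ 2 + s + 1) * (s * (s + 2) * (s ^ 2 + 3 * s + 3)) := by
      have : (1 + s) ^ 6 = (s ^ 2 + s + 1) * (s * (s + 2) * (s ^ 2 + 3 * s + 3)) + 1 := by ring
      rw [this, Nat.add_sub_cancel]
    rw [e2, e3]
    exact Dvd.intro _ rfl
  have h1 := smooth_le g (6 * u) K _ hg (by omega) hdvd hs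
  have h2 : g ^ u ≤ (g ^ u) ^ 2 - g ^ u + 1 := by
    obtain ⟨s, hs'⟩ := Nat.exists_eq_add_of_le ht1
    rw [hs']
    have : (1 + s) ^ 2 = (s ^ 2 + s) + (1 + s) := by ring
    rw [this, Nat.add_sub_cancel]
    omega
  have h3 : 2 ^ u ≤ g ^ u := Nat.pow_le_pow_left hg u
  have h4 : (g ^ (K + 2) * (6 * u)) ^ K = (g ^ (K + 2) * 6) ^ K * u ^ K := by
    rw [← mul_assoc, mul_pow]
  have h5 : 2 ^ u ≤ (g ^ (K + 2) * 6) ^ K * u ^ K := by
    rw [← h4]; exact h3.trans (h2.trans h1)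
  have h6 := hU u ((le_max_left _ _).trans hu)
  have hA : (0 : ℝ) < (((g ^ (K + 2) * 6) ^ K : ℕ) : ℝ) := by positivity
  rw [div_lt_div_iff₀ (by positivity) hA] at h6
  have h7 : ((2 ^ u : ℕ) : ℝ) ≤ (((g ^ (K + 2) * 6) ^ K * u ^ K : ℕ) : ℝ) := by exact_mod_cast h5
  push_cast at h7 h6
  linarith

/-- `M` distinct primes above `K` dividing `g ^ (3 ^ M * w) + 1` -/
theorem many_primes (g K M : ℕ) (hg : 2 ≤ g) (hK : 3 ≤ K) :
    ∃ U : ℕ, ∀ w : ℕ, U ≤ w → ∃ S : Finset ℕ, S.card = M ∧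
      ∀ q ∈ S, q.Prime ∧ K < q ∧ q ∣ g ^ (3 ^ M * w) + 1 := by
  obtain ⟨U, hU⟩ := exists_big_prime g K hg
  refine ⟨U, fun w hw => ?_⟩
  have h1 : ∀ i : ℕ, ∃ q, q.Prime ∧ K < q ∧ q ∣ (g ^ (3 ^ i * w)) ^ 2 - g ^ (3 ^ i * w) + 1 := by
    intro i
    apply hU
    exact hw.trans (Nat.le_mul_of_pos_left w (by positivity))
  choose f hf1 hf2 hf3 using h1
  have hpos : ∀ i, 1 ≤ g ^ (3 ^ i * w) := fun i => Nat.one_le_pow _ _ (by omega)
  -- congruences in ZMod (f i)
  have key : ∀ i, ((g : ZMod (f i)) ^ (3 ^ i * w)) ^ 2 - (g : ZMod (f i)) ^ (3 ^ i * w) + 1 = 0 := by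
    intro i
    have h2 := (ZMod.natCast_eq_zero_iff _ _).2 (hf3 i)
    have h3 : g ^ (3 ^ i * w) ≤ (g ^ (3 ^ i * w)) ^ 2 := Nat.le_self_pow (by norm_num) _
    push_cast [Nat.cast_sub h3] at h2
    exact h2
  have key3 : ∀ i j, i < j → (g : ZMod (f i)) ^ (3 ^ j * w) = -1 := by
    intro i j hij
    obtain ⟨e, rfl⟩ := Nat.exists_eq_add_of_lt hij
    have h4 : ((g : ZMod (f i)) ^ (3 ^ i * w)) ^ 3 = -1 := by
      have : ((g : ZMod (f i)) ^ (3 ^ i * w)) ^ 3 + 1 =
          ((g : ZMod (f i)) ^ (3 ^ i * w) + 1) *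
          (((g : ZMod (f i)) ^ (3 ^ i * w)) ^ 2 - (g : ZMod (f i)) ^ (3 ^ i * w) + 1) := by ring
      rw [key i, mul_zero] at this
      exact eq_neg_of_add_eq_zero_left this
    have h5 : 3 ^ (i + e + 1) * w = (3 ^ i * w) * 3 * 3 ^ e := by ring
    rw [h5, pow_mul, pow_mul, h4]
    exact (Odd.pow (by decide : Odd 3)).neg_one_pow
  have hinj : ∀ i j, i < j → f i ≠ f j := by
    intro i j hij heq
    have h6 := key j
    rw [← heq] at h6
    rw [key3 i j hij] at h6
    have h7 : ((3 : ℕ) : ZMod (f i)) = 0 := by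
      have : ((3 : ℕ) : ZMod (f i)) = (-1) ^ 2 - (-1) + 1 := by push_cast; ring
      rw [this]; exact h6
    have h8 := (ZMod.natCast_eq_zero_iff _ _).1 h7
    have h9 := Nat.le_of_dvd (by norm_num) h8
    have := hf2 i
    omega
  have hinj' : Function.Injective f := by
    intro i j hij
    rcases lt_trichotomy i j with h | h | h
    · exact absurd hij (hinj i j h)
    · exact h
    · exact absurd hij.symm (hinj j i h)
  refine ⟨(range M).image f, ?_, ?_⟩
  · rw [card_image_of_injective _ hinj', card_range]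
  · intro q hq
    obtain ⟨i, hi, rfl⟩ := mem_image.1 hq
    refine ⟨hf1 i, hf2 i, ?_⟩
    rw [← ZMod.natCast_eq_zero_iff]
    push_cast
    rw [key3 i M (mem_range.1 hi)]
    ring

end Pool.Agent.H6.NewPrimes
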