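import Mathlib
import Pool.Agent.H6.NPi

namespace Pool.Agent.H6.NewPrimes

open Finset Filter

open N129f076f in
theorem le_v_of_primes {n k : ℕ} (S : Finset ℕ) (hnk : n + k ≠ 0)
    (hS : ∀ q ∈ S, q.Prime ∧ k < q ∧ q ∣ n + k) : S.card ≤ v n k := by
  apply card_le_card
  intro q hq
  obtain ⟨h1, h2, h3⟩ := hS q hq
  rw [mem_filter, Nat.mem_primeFactors]
  refine ⟨⟨h1, h3, hnk⟩, ?_⟩
  intro i hi hqi
  rw [mem_range] at hi
  have h4 := Nat.dvd_sub h3 hqi
  have h5 : n + k - (n + i) = k - i := by omega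
  rw [h5] at h4
  have := Nat.le_of_dvd (by omega) h4
  omega

open N129f076f in
theorem geometric (g c : ℕ) (hg : 2 ≤ g) (hc : 1 ≤ c) (d : ℤ) :
    Tendsto (fun a : ℕ => v₀ ((c : ℤ) * (g : ℤ) ^ a + d).toNat) atTop (nhds ⊤) := by
  rw [ENat.tendsto_nhds_top_iff_natCast_lt]
  intro M
  set b0 := d.natAbs with hb0
  set B := 3 ^ (M + 1) with hB
  have hBpos : 0 < B := by positivity
  set K := c * g ^ (b0 + B) + d.natAbs + 3 with hK
  obtain ⟨U, hU⟩ := many_primes g K (M + 1) hg (by omega)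
  filter_upwards [eventually_ge_atTop (b0 + B * U)] with a ha
  set w := (a - b0) / B with hw
  set b := b0 + (a - b0) % B with hb
  have hab : a = b + B * w := by
    have := Nat.mod_add_div (a - b0) B
    rw [← hw] at this
    omega
  have hwU : U ≤ w := by
    rw [hw, Nat.le_div_iff_mul_le hBpos]
    rw [mul_comm]; omega
  obtain ⟨S, hScard, hS⟩ := hU w hwU
  have hblt : b < b0 + B := by
    have := Nat.mod_lt (a - b0) hBpos
    omega
  have hg1 : 1 ≤ g := by omega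
  have hgb : d.natAbs < c * g ^ b := by
    calc d.natAbs ≤ b := by omega
      _ < g ^ b := Nat.lt_pow_self (by omega)
      _ ≤ c * g ^ b := Nat.le_mul_of_pos_left _ hc
  have hga : c * g ^ b ≤ c * g ^ a :=
    Nat.mul_le_mul_left _ (Nat.pow_le_pow_right hg1 (by omega))
  set n := ((c : ℤ) * (g : ℤ) ^ a + d).toNat with hn
  set k := ((c : ℤ) * (g : ℤ) ^ b - d).toNat with hk
  have hn' : (n : ℤ) = (c : ℤ) * (g : ℤ) ^ a + d := by
    rw [hn]
    apply Int.toNat_of_nonneg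
    have : (d.natAbs : ℤ) < (c : ℤ) * (g : ℤ) ^ a := by exact_mod_cast lt_of_lt_of_le hgb hga
    omega
  have hk' : (k : ℤ) = (c : ℤ) * (g : ℤ) ^ b - d := by
    rw [hk]
    apply Int.toNat_of_nonneg
    have : (d.natAbs : ℤ) < (c : ℤ) * (g : ℤ) ^ b := by exact_mod_cast hgb
    omega
  have hsum : n + k = c * g ^ b * (g ^ (B * w) + 1) := by
    zify
    rw [hn', hk', hab, pow_add]
    ring
  have hkK : k ≤ K := by
    have h1 : c * g ^ b ≤ c * g ^ (b0 + B) :=
      Nat.mul_le_mul_left _ (Nat.pow_le_pow_right hg1 (by omega))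
    have h2 : (c : ℤ) * (g : ℤ) ^ b ≤ (c * g ^ (b0 + B) : ℕ) := by exact_mod_cast h1
    omega
  have hmain : S.card ≤ v n k := by
    apply le_v_of_primes S
    · rw [hsum]; positivity
    · intro q hq
      obtain ⟨h1, h2, h3⟩ := hS q hq
      refine ⟨h1, by omega, ?_⟩
      rw [hsum]
      exact Dvd.dvd.mul_left h3 _
  rw [hScard] at hmain
  have h2 : ((v n k : ℕ) : ℕ∞) ≤ v₀ n := le_iSup (fun k => ((v n k : ℕ) : ℕ∞)) k
  calc (M : ℕ∞) < ((M + 1 : ℕ) : ℕ∞) := by exact_mod_cast Nat.lt_succ_self M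
    _ ≤ ((v n k : ℕ) : ℕ∞) := by exact_mod_cast hmain
    _ ≤ v₀ n := h2

end Pool.Agent.H6.NewPrimes
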